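import Mathlib
import Pool.Agent.Lib_MP_394d50_gt.Defs2
import Pool.Agent.Lib_MP_394d50_gt.Defs3
import Pool.Agent.Lib_MP_394d50_gt.AOne
import Pool.Agent.Lib_MP_394d50_bary.BDefs2

/-!
# MP_394d50_gt, van Kampen library: working definitions
-/

namespace SingerRA

/-- `HomSphere n G` for all choices of the instances (and `V` is finite). -/
def HS {V : Type} (n : ℕ) (G : SimpleGraph V) : Prop :=
  Finite V ∧ ∀ (_ : Fintype V) (_ : DecidableEq V), HomSphere n G

/-- A family `F` of finite sets is acyclic over `F₂` (chains of mixed degrees are allowed): every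
cycle supported on `F` is a boundary. Here the value of the boundary of `z` at `τ` is
`bs z τ = ∑_{v ∉ τ} z (τ ∪ {v})`. -/
def Acyc {V : Type} [Fintype V] [DecidableEq V] (F : Set (Finset V)) : Prop :=
  ∀ z : Finset V → ZMod 2, (∀ τ, τ ∉ F → z τ = 0) → (∀ τ ∈ F, bs z τ = 0) →
    ∃ w : Finset V → ZMod 2, (∀ τ, τ ∉ F → w τ = 0) ∧ ∀ τ ∈ F, z τ = bs w τ

/-- The cliques which contain `σ` and are disjoint from `ρ`. -/
def Fam {V : Type} (G : SimpleGraph V) (σ ρ : Finset V) : Set (Finset V) :=
  {τ | τ ∈ cliq G ∧ σ ⊆ τ ∧ Disjoint τ ρ}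

open scoped Classical in
/-- The boundary operator of the family `F`. -/
noncomputable def bsF {V : Type} [Fintype V] [DecidableEq V] (F : Set (Finset V))
    (z : Finset V → ZMod 2) : Finset V → ZMod 2 :=
  fun τ => if τ ∈ F then bs z τ else 0

/-- `(σ, τ)` is a pair of disjoint cliques. -/
def DP {V : Type} (G : SimpleGraph V) (σ τ : Finset V) : Prop :=
  σ ∈ cliq G ∧ τ ∈ cliq G ∧ Disjoint σ τ

/-- The total boundary of a chain of pairs. -/
def DD {V : Type} [Fintype V] [DecidableEq V] (W : Finset V → Finset V → ZMod 2)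
    (σ τ : Finset V) : ZMod 2 :=
  bs (fun ρ => W ρ τ) σ + bs (W σ) τ

/-- `σ ∪ τ` alternates, starting with `σ`: `σ = {s₀ < s₁ < …}`, `τ = {t₀ < t₁ < …}` with
`s₀ < t₀ < s₁ < t₁ < …`, where `|σ| - |τ| ∈ {0, 1}` (for disjoint `σ`, `τ`). -/
def Alt {V : Type} [LinearOrder V] (σ τ : Finset V) : Prop :=
  (∀ x ∈ σ, (τ.filter (· < x)).card = (σ.filter (· < x)).card) ∧
    ∀ x ∈ τ, (σ.filter (· < x)).card = (τ.filter (· < x)).card + 1

open scoped Classical in
/-- The indicator of the alternating pairs. -/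
noncomputable def alt {V : Type} [LinearOrder V] (σ τ : Finset V) : ZMod 2 :=
  if Alt σ τ then 1 else 0

open scoped Classical in
/-- The bilinear form `∑_{F < G} a(F) b(G) ∏_i (y(F_i) + y(G_i))`. -/
noncomputable def qf {V R : Type} [Fintype V] [LinearOrder V] [CommRing R] (y : V → R) (k : ℕ)
    (a b : (Fin k → V) → R) : R :=
  ∑ F, ∑ G, if ∀ i, F i < G i then a F * b G * ∏ i, (y (F i) + y (G i)) else 0

/-- The linear relations in the coordinate directions. -/
def Stress {V R : Type} [Fintype V] [DecidableEq V] [CommRing R] (y : V → R) (k : ℕ)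
    (a : (Fin k → V) → R) : Prop :=
  (∀ i F, ∑ x, a (Function.update F i x) = 0) ∧
    ∀ i F, ∑ x, y x * a (Function.update F i x) = 0

/-- `α` is a generic stress of the flag complex of `G` in the top degree `r` (the number of
vertices of the facets): it is supported on the cliques with `r` vertices, and satisfies the two
relations at every clique with `r - 1` vertices. -/
structure GStress {V : Type} [Fintype V] [DecidableEq V] (G : SimpleGraph V) (r : ℕ)
    (α : Finset V → MvPolynomial V (ZMod 2)) : Prop where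
  supp : ∀ σ, ¬ (σ ∈ cliq G ∧ σ.card = r) → α σ = 0
  sum : ∀ τ ∈ cliq G, τ.card + 1 = r → ∑ v ∈ Finset.univ \ τ, α (insert v τ) = 0
  wsum : ∀ τ ∈ cliq G, τ.card + 1 = r →
    ∑ v ∈ Finset.univ \ τ, MvPolynomial.X v * α (insert v τ) = 0

/-- The linear form of the colour `i` of a set of vertices. -/
noncomputable def Lc {V : Type} [DecidableEq V] {r : ℕ} (c : V → Fin r) (i : Fin r)
    (σ : Finset V) : MvPolynomial V (ZMod 2) :=
  ∑ v ∈ σ.filter (fun v => c v = i), MvPolynomial.X v

/-- The chain of pairs attached to a stress. -/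
noncomputable def ZZ {V : Type} [DecidableEq V] {r : ℕ} (c : V → Fin r)
    (α : Finset V → MvPolynomial V (ZMod 2)) (σ τ : Finset V) : MvPolynomial V (ZMod 2) :=
  α σ * α τ * ∏ i, (Lc c i σ + Lc c i τ)

open scoped Classical in
/-- A stress as a function on `(Fin r → V)`. -/
noncomputable def asFun {V : Type} {r : ℕ} (c : V → Fin r)
    (α : Finset V → MvPolynomial V (ZMod 2)) (F : Fin r → V) : MvPolynomial V (ZMod 2) :=
  if ∀ i, c (F i) = i then α (Finset.univ.image F) else 0

end SingerRA
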