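import Mathlib
import Pool.Agent.Lib_MP_394d50_vk.VDefs

/-!
Piece VBS: the boundary squares to zero, and removal of a vertex.

* `bs_add`: linearity.
* `bs_bs`: for a convex family `F` and `u` supported on `F`, the boundary squares to zero.
* `Acyc.remove`: if `F` and `{τ ∈ F, v ∈ τ}` are acyclic then so is `{τ ∈ F, v ∉ τ}`.
-/

namespace SingerRA

variable {V : Type} [Fintype V] [DecidableEq V]

theorem bs_add (z w : Finset V → ZMod 2) (τ : Finset V) :
    bs (fun ρ => z ρ + w ρ) τ = bs z τ + bs w τ := by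
  unfold bs
  exact Finset.sum_add_distrib

theorem bs_bs (F : Set (Finset V)) (hF : Conv F) (u : Finset V → ZMod 2)
    (hu : ∀ τ, τ ∉ F → u τ = 0) (τ : Finset V) (hτ : τ ∈ F) : bs (bsF F u) τ = 0 := by
  have h1 : ∀ v ∈ Finset.univ \ τ, bsF F u (insert v τ) =
      ∑ w ∈ Finset.univ \ (insert v τ), u (insert w (insert v τ)) := by
    intro v hv
    unfold bsF
    by_cases h : insert v τ ∈ F
    · rw [if_pos h]
      rfl
    · rw [if_neg h]
      symm
      apply Finset.sum_eq_zero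
      intro w hw
      apply hu
      intro h3
      exact h (hF τ hτ _ h3 _ (Finset.subset_insert _ _) (Finset.subset_insert _ _))
  have h0 : bs (bsF F u) τ = ∑ v ∈ Finset.univ \ τ, bsF F u (insert v τ) := rfl
  rw [h0, Finset.sum_congr rfl h1, Finset.sum_sigma']
  refine Finset.sum_involution (fun p _ => ⟨p.2, p.1⟩) ?_ ?_ ?_ ?_
  · rintro ⟨v, w⟩ _
    dsimp only
    rw [Finset.insert_comm]
    exact CharTwo.add_self_eq_zero _
  · rintro ⟨v, w⟩ hp _ heq
    simp only [Finset.mem_sigma, Finset.mem_sdiff, Finset.mem_univ, true_and,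
      Finset.mem_insert, not_or] at hp
    simp only [Sigma.mk.injEq] at heq
    exact hp.2.1 heq.1
  · rintro ⟨v, w⟩ hp
    simp only [Finset.mem_sigma, Finset.mem_sdiff, Finset.mem_univ, true_and,
      Finset.mem_insert, not_or] at hp ⊢
    exact ⟨hp.2.2, fun h => hp.2.1 h.symm, hp.1⟩
  · rintro ⟨v, w⟩ _
    rfl

theorem Acyc.remove (F : Set (Finset V)) (hF : Conv F) (v : V) (h : Acyc F)
    (h' : Acyc {τ | τ ∈ F ∧ v ∈ τ}) : Acyc {τ | τ ∈ F ∧ v ∉ τ} := by
  classical
  intro z hz hcyc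
  -- `z` is a cycle on `F`
  have hzF : ∀ τ, τ ∉ F → z τ = 0 := fun τ hτ => hz τ fun h1 => hτ h1.1
  have hcF : ∀ τ ∈ F, bs z τ = 0 := by
    intro τ hτ
    by_cases hv : v ∈ τ
    · unfold bs
      apply Finset.sum_eq_zero
      intro u _
      apply hz
      rintro ⟨-, h2⟩
      exact h2 (Finset.mem_insert_of_mem hv)
    · exact hcyc τ ⟨hτ, hv⟩
  obtain ⟨w, hw, hzw⟩ := h z hzF hcF
  -- the part of `w` which contains `v`
  have hplus : ∀ τ, v ∈ τ → bs (fun ρ => if v ∈ ρ then w ρ else 0) τ = bs w τ := by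
    intro τ hv
    unfold bs
    apply Finset.sum_congr rfl
    intro u _
    exact if_pos (Finset.mem_insert_of_mem hv)
  obtain ⟨u, hu, hwu⟩ := h' (fun ρ => if v ∈ ρ then w ρ else 0)
    (by
      intro τ hτ
      split_ifs with h1
      · exact hw τ fun h2 => hτ ⟨h2, h1⟩
      · rfl)
    (by
      rintro τ ⟨h1, h2⟩
      rw [hplus τ h2, ← hzw τ h1]
      exact hz τ fun h3 => h3.2 h2)
  have huF : ∀ τ, τ ∉ F → u τ = 0 := fun τ hτ => hu τ fun h1 => hτ h1.1
  refine ⟨fun ρ => w ρ + bsF F u ρ, ?_, ?_⟩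
  · intro τ hτ
    by_cases h1 : τ ∈ F
    · have h2 : v ∈ τ := by
        by_contra h2
        exact hτ ⟨h1, h2⟩
      have h3 := hwu τ ⟨h1, h2⟩
      rw [if_pos h2] at h3
      show w τ + bsF F u τ = 0
      unfold bsF
      rw [if_pos h1, h3]
      exact CharTwo.add_self_eq_zero _
    · show w τ + bsF F u τ = 0
      unfold bsF
      rw [if_neg h1, hw τ h1, add_zero]
  · rintro τ ⟨h1, _⟩
    rw [bs_add, bs_bs F hF u huF τ h1, add_zero]
    exact hzw τ h1

end SingerRA
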