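import Mathlib
import Pool.Agent.Lib_MP_394d50_vk.VDefs

/-!
Piece VSPH: cycles of a homology sphere, with chains of mixed degrees (about 120-160 lines).

* `HomSphere.facet`: a clique `σ` with `σ.card < n` is contained in a clique with one more vertex:
  otherwise apply `acyclic σ` with `m = σ.card` to `z` = indicator of `σ`
  (no condition on the faces: `τ ⊇ σ`, `τ.card + 1 = σ.card` is impossible): `1 = z σ = bs w σ`, a sum
  over `v ∉ σ` of `w (insert v σ)`, all zero because no `insert v σ` is a clique. Iterate (`dim` gives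
  `σ.card ≤ n`).
* `HomSphere.fund`: the indicator of the facets containing `σ` is a cycle at every clique `τ ⊇ σ`:
  if `τ.card + 1 ≠ n` all terms vanish; if `τ.card + 1 = n` the number of the `v ∉ τ` with `insert v τ` a
  clique is `2` by `ridge`.
* `HomSphere.almost`: let `z` be a cycle on `Fam G σ ∅`. For every `m < n`, `σ.card ≤ m`, apply
  `acyclic` to the part of `z` in degree `m` (`zm τ = if τ.card = m then z τ else 0`): `w_m` with
  `z τ = bs w_m τ` for `τ ∈ Fam G σ ∅`, `τ.card = m`; replace `w_m` by its part on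
  `Fam G σ ∅` in degree `m + 1` (this does not change `bs w_m τ` for `τ ∈ Fam`, `τ.card = m`: `insert v τ`
  contains `σ`). In degree `n`: by `top` all the values of `z` at the facets containing `σ` are equal, to
  `e`. There is nothing in degree `> n`. Take `w = ∑_m w_m`.
-/

namespace SingerRA

variable {V : Type} [Fintype V] [DecidableEq V] {n : ℕ} {G : SimpleGraph V}

theorem HomSphere.facet (hS : HomSphere n G) (σ : Finset V) (hσ : σ ∈ cliq G) :
    ∃ τ ∈ cliq G, σ ⊆ τ ∧ τ.card = n := by
  have step : ∀ σ ∈ cliq G, σ.card < n → ∃ τ ∈ cliq G, σ ⊆ τ ∧ τ.card = σ.card + 1 := by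
    intro σ hσ hc
    by_contra hno
    push Not at hno
    obtain ⟨w, hw, hw'⟩ := hS.acyclic σ hσ σ.card le_rfl hc (fun τ => if τ = σ then 1 else 0)
      (by
        intro τ hτ
        have : τ ≠ σ := by rintro rfl; exact hτ hσ
        simp [this])
      (by
        intro τ hτ hs hc'
        have := Finset.card_le_card hs
        omega)
    have h1 := hw' σ hσ (Finset.Subset.refl _) rfl
    have h0 : bs w σ = 0 := by
      refine Finset.sum_eq_zero fun v hv => ?_
      apply hw
      intro hcl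
      have hv' : v ∉ σ := (Finset.mem_sdiff.mp hv).2
      exact hno _ hcl (Finset.subset_insert _ _) (Finset.card_insert_of_notMem hv')
    rw [h0] at h1
    simp at h1
  have main : ∀ d : ℕ, ∀ σ ∈ cliq G, n - σ.card = d → ∃ τ ∈ cliq G, σ ⊆ τ ∧ τ.card = n := by
    intro d
    induction d with
    | zero =>
      intro σ hσ hd
      have := hS.dim σ hσ
      exact ⟨σ, hσ, Finset.Subset.refl _, by omega⟩
    | succ d ih =>
      intro σ hσ hd
      obtain ⟨τ, hτ, hs, hc⟩ := step σ hσ (by omega)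
      obtain ⟨ρ, hρ, hs', hc'⟩ := ih τ hτ (by omega)
      exact ⟨ρ, hρ, hs.trans hs', hc'⟩
  exact main _ σ hσ rfl

open scoped Classical in
theorem HomSphere.fund (hS : HomSphere n G) (σ : Finset V) (τ : Finset V) (hτ : τ ∈ cliq G)
    (hστ : σ ⊆ τ) :
    bs (fun ρ => if ρ ∈ cliq G ∧ σ ⊆ ρ ∧ ρ.card = n then 1 else 0) τ = 0 := by
  unfold bs
  by_cases hc : τ.card + 1 = n
  · have h2 := hS.ridge τ hτ hc
    have h3 : ∀ v ∈ Finset.univ \ τ, (if insert v τ ∈ cliq G ∧ σ ⊆ insert v τ ∧
        (insert v τ).card = n then (1 : ZMod 2) else 0) = if insert v τ ∈ cliq G then 1 else 0 := by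
      intro v hv
      have hv' : v ∉ τ := (Finset.mem_sdiff.mp hv).2
      have h4 : (insert v τ).card = n := by rw [Finset.card_insert_of_notMem hv', hc]
      have h5 : σ ⊆ insert v τ := hστ.trans (Finset.subset_insert _ _)
      simp [h4, h5]
    rw [Finset.sum_congr rfl h3, Finset.sum_boole]
    have h6 : ((Finset.univ \ τ).filter (fun v => insert v τ ∈ cliq G)).card = 2 := by
      rw [← h2, ← Set.ncard_coe_finset]
      congr 1
      ext v
      simp [cliq]
    rw [h6]
    rfl
  · apply Finset.sum_eq_zero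
    intro v hv
    have hv' : v ∉ τ := (Finset.mem_sdiff.mp hv).2
    beta_reduce
    rw [if_neg]
    rintro ⟨_, _, h⟩
    rw [Finset.card_insert_of_notMem hv'] at h
    exact hc h

open scoped Classical in
theorem HomSphere.almost (hS : HomSphere n G) (σ : Finset V) (hσ : σ ∈ cliq G)
    (z : Finset V → ZMod 2) (hz : ∀ τ, τ ∉ Fam G σ ∅ → z τ = 0)
    (hc : ∀ τ ∈ Fam G σ ∅, bs z τ = 0) :
    ∃ (e : ZMod 2) (w : Finset V → ZMod 2), (∀ τ, τ ∉ Fam G σ ∅ → w τ = 0) ∧
      ∀ τ ∈ Fam G σ ∅, z τ = bs w τ + if τ.card = n then e else 0 := by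
  have memF : ∀ τ : Finset V, τ ∈ Fam G σ ∅ ↔ τ ∈ cliq G ∧ σ ⊆ τ := by
    intro τ
    simp [Fam]
  have hex : ∀ m : ℕ, ∃ w : Finset V → ZMod 2, (∀ τ : Finset V, τ ∉ cliq G → w τ = 0) ∧
      (σ.card ≤ m → m < n → ∀ τ ∈ cliq G, σ ⊆ τ → τ.card = m → z τ = bs w τ) := by
    intro m
    by_cases hm : σ.card ≤ m ∧ m < n
    · obtain ⟨w, hw, hw'⟩ := hS.acyclic σ hσ m hm.1 hm.2 (fun τ => if τ.card = m then z τ else 0)
        (by
          intro τ hτ
          have : z τ = 0 := hz τ (fun h => hτ ((memF τ).mp h).1)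
          simp [this])
        (by
          intro τ hτ hs hcard
          have h1 := hc τ ((memF τ).mpr ⟨hτ, hs⟩)
          refine Eq.trans ?_ h1
          unfold bs
          apply Finset.sum_congr rfl
          intro v hv
          have hv' : v ∉ τ := (Finset.mem_sdiff.mp hv).2
          beta_reduce
          rw [if_pos (by rw [Finset.card_insert_of_notMem hv', hcard])])
      refine ⟨w, hw, fun _ _ τ hτ hs hcard => ?_⟩
      have h2 := hw' τ hτ hs hcard
      simpa [hcard] using h2
    · exact ⟨fun _ => 0, fun _ _ => rfl, fun h1 h2 => absurd ⟨h1, h2⟩ hm⟩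
  choose W hW1 hW2 using hex
  obtain ⟨τ₀, hτ₀, hs₀, hc₀⟩ := hS.facet σ hσ
  refine ⟨z τ₀, fun τ => if τ ∈ Fam G σ ∅ then W (τ.card - 1) τ else 0, ?_, ?_⟩
  · intro τ hτ
    simp [hτ]
  · intro τ hτ
    obtain ⟨hτc, hτs⟩ := (memF τ).mp hτ
    have hle := hS.dim τ hτc
    have hb : bs (fun τ => if τ ∈ Fam G σ ∅ then W (τ.card - 1) τ else 0) τ = bs (W τ.card) τ := by
      unfold bs
      apply Finset.sum_congr rfl
      intro v hv
      have hv' : v ∉ τ := (Finset.mem_sdiff.mp hv).2
      beta_reduce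
      by_cases hF : insert v τ ∈ Fam G σ ∅
      · rw [if_pos hF, Finset.card_insert_of_notMem hv', Nat.add_sub_cancel]
      · rw [if_neg hF, hW1]
        intro hcl
        exact hF ((memF _).mpr ⟨hcl, hτs.trans (Finset.subset_insert _ _)⟩)
    rw [hb]
    by_cases hn : τ.card = n
    · have h0 : bs (W τ.card) τ = 0 := by
        refine Finset.sum_eq_zero fun v hv => ?_
        have hv' : v ∉ τ := (Finset.mem_sdiff.mp hv).2
        apply hW1
        intro hcl
        have := hS.dim _ hcl
        rw [Finset.card_insert_of_notMem hv'] at this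
        omega
      rw [h0, if_pos hn, zero_add]
      refine hS.top σ hσ z (fun ρ hρ => hz ρ (fun h => hρ ((memF ρ).mp h).1))
        (fun ρ hρ hs _ => hc ρ ((memF ρ).mpr ⟨hρ, hs⟩)) τ τ₀ hτc hτ₀ hτs hs₀ hn hc₀
    · rw [if_neg hn, add_zero]
      exact hW2 τ.card (Finset.card_le_card hτs) (by omega) τ hτc hτs rfl

end SingerRA
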