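import Mathlib
import Pool.Agent.Lib_MP_394d50_vk.VDefs
import Pool.Agent.Lib_MP_394d50_vk.VBs
import Pool.Agent.Lib_MP_394d50_vk.VSph

/-!
Piece VROW: a homology sphere minus a simplex is acyclic (about 120-160 lines).

* `HomSphere.acyc_one` (one vertex `v` is removed from the link of `σ`): let `z` be a cycle on
  `F⁻ = Fam G σ {v}`. It is a cycle on `T = Fam G σ ∅` (if `v ∈ τ` then all `insert u τ ∋ v`). By
  `almost`: `z = bs w + e [card = n]` on `T`. On `T⁺ = Fam G (insert v σ) ∅`, `z = 0`, so with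
  `w⁺ τ = w τ` if `v ∈ τ`, `0` otherwise: `bs w⁺ τ = bs w τ = e [τ.card = n]` for `τ ∈ T⁺`. At a facet
  `τ ∈ T⁺` (`facet`), `bs w⁺ τ = 0` (`dim`), so `e = 0`. So `w⁺` is a cycle on `T⁺` and by `almost`
  (for `insert v σ`) `w⁺ = bs u + e' [card = n]` on `T⁺`. Put
  `w' = w + bsF T u + e' · [ρ ∈ T ∧ ρ.card = n]`. On `T⁺` it vanishes, so it is supported on `F⁻`, and on `F⁻`
  `bs w' = bs w + bs (bsF T u) + e' · bs [..] = z` by `bs_bs` and `fund`.
* `HomSphere.acyc`: induction on `ρ` (for all `σ`): `ρ = {v}`: `acyc_one`. `ρ = insert v ρ'` with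
  `ρ' ≠ ∅`: `Acyc.remove` with `F = Fam G σ ρ'` (acyclic by induction), and
  `{τ ∈ F, v ∈ τ} = Fam G (insert v σ) ρ'`, acyclic by induction (`insert v σ ∪ ρ' = σ ∪ ρ`), and
  `{τ ∈ F, v ∉ τ} = Fam G σ (insert v ρ')`.
-/

namespace SingerRA

variable {V : Type} [Fintype V] [DecidableEq V] {n : ℕ} {G : SimpleGraph V}

lemma vrow_cliq_sub {G : SimpleGraph V} {σ τ : Finset V} (h : σ ⊆ τ) (hτ : τ ∈ cliq G) :
    σ ∈ cliq G := by
  have h1 : G.IsClique (τ : Set V) := hτ
  exact h1.subset (Finset.coe_subset.2 h)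

theorem conv_fam (G : SimpleGraph V) (σ ρ : Finset V) : Conv (Fam G σ ρ) := by
  intro τ1 h1 τ2 h2 r hr1 hr2
  exact ⟨vrow_cliq_sub hr2 h2.1, h1.2.1.trans hr1, Finset.disjoint_of_subset_left hr2 h2.2.2⟩

lemma vrow_two (x : ZMod 2) : x + x = 0 := CharTwo.add_self_eq_zero x

theorem HomSphere.acyc_one (hS : HomSphere n G) (σ : Finset V) (v : V) (hv : v ∉ σ)
    (h : insert v σ ∈ cliq G) : Acyc (Fam G σ {v}) := by
  classical
  intro z hz hc
  have hσ : σ ∈ cliq G := vrow_cliq_sub (Finset.subset_insert v σ) h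
  have memF : ∀ τ, τ ∈ Fam G σ {v} ↔ τ ∈ Fam G σ ∅ ∧ v ∉ τ := by
    intro τ
    unfold Fam
    simp only [Set.mem_setOf_eq, Finset.disjoint_singleton_right, Finset.disjoint_empty_right,
      and_true]
    tauto
  have memP : ∀ τ, τ ∈ Fam G (insert v σ) ∅ ↔ τ ∈ Fam G σ ∅ ∧ v ∈ τ := by
    intro τ
    unfold Fam
    simp only [Set.mem_setOf_eq, Finset.insert_subset_iff, Finset.disjoint_empty_right, and_true]
    tauto
  -- the chain is a cycle on the larger family
  have hz1 : ∀ τ, τ ∉ Fam G σ ∅ → z τ = 0 := fun τ hτ => hz τ (fun h1 => hτ ((memF τ).1 h1).1)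
  have hzv : ∀ τ, v ∈ τ → z τ = 0 := fun τ hτ => hz τ (fun h1 => ((memF τ).1 h1).2 hτ)
  have hc1 : ∀ τ ∈ Fam G σ ∅, bs z τ = 0 := by
    intro τ hτ
    by_cases hvt : v ∈ τ
    · unfold bs
      exact Finset.sum_eq_zero fun u _ => hzv _ (Finset.mem_insert_of_mem hvt)
    · exact hc τ ((memF τ).2 ⟨hτ, hvt⟩)
  obtain ⟨e, w, hw, hwz⟩ := hS.almost σ hσ z hz1 hc1
  -- the part of `w` containing `v`
  set wp : Finset V → ZMod 2 := fun τ => if v ∈ τ then w τ else 0 with hwp
  have hbwp : ∀ τ, v ∈ τ → bs wp τ = bs w τ := by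
    intro τ hτ
    unfold bs
    refine Finset.sum_congr rfl fun u _ => ?_
    rw [hwp]
    simp only
    rw [if_pos (Finset.mem_insert_of_mem hτ)]
  have hbw : ∀ τ ∈ Fam G (insert v σ) ∅, bs wp τ = if τ.card = n then e else 0 := by
    intro τ hτ
    have h1 := (memP τ).1 hτ
    rw [hbwp τ h1.2]
    have h2 := hwz τ h1.1
    rw [hzv τ h1.2] at h2
    have h3 := vrow_two (if τ.card = n then e else 0)
    calc bs w τ = bs w τ + ((if τ.card = n then e else 0) + (if τ.card = n then e else 0)) := by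
          rw [h3, add_zero]
      _ = (bs w τ + (if τ.card = n then e else 0)) + (if τ.card = n then e else 0) :=
          (add_assoc _ _ _).symm
      _ = _ := by rw [← h2, zero_add]
  have he : e = 0 := by
    obtain ⟨τ, hτ1, hτ2, hτ3⟩ := hS.facet (insert v σ) h
    have hτ : τ ∈ Fam G (insert v σ) ∅ := ⟨hτ1, hτ2, Finset.disjoint_empty_right τ⟩
    have h1 := hbw τ hτ
    rw [if_pos hτ3] at h1
    rw [← h1, hbwp τ ((memP τ).1 hτ).2]
    unfold bs
    apply Finset.sum_eq_zero
    intro u hu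
    apply hw
    intro h2
    have h3 := hS.dim _ h2.1
    rw [Finset.card_insert_of_notMem (Finset.mem_sdiff.1 hu).2] at h3
    omega
  have hwp1 : ∀ τ, τ ∉ Fam G (insert v σ) ∅ → wp τ = 0 := by
    intro τ hτ
    rw [hwp]
    simp only
    split_ifs with h1
    · exact hw τ (fun h2 => hτ ((memP τ).2 ⟨h2, h1⟩))
    · rfl
  obtain ⟨e', u, hu, huw⟩ := hS.almost (insert v σ) h wp hwp1 (by
    intro τ hτ
    rw [hbw τ hτ, he, ite_self])
  refine ⟨fun τ => (w τ + bsF (Fam G σ ∅) u τ) +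
    (e' * if τ ∈ cliq G ∧ σ ⊆ τ ∧ τ.card = n then 1 else 0), ?_, ?_⟩
  · intro τ hτ
    simp only
    by_cases hT : τ ∈ Fam G σ ∅
    · have hvt : v ∈ τ := by
        by_contra hcon
        exact hτ ((memF τ).2 ⟨hT, hcon⟩)
      have h1 := huw τ ((memP τ).2 ⟨hT, hvt⟩)
      rw [hwp] at h1
      simp only at h1
      rw [if_pos hvt] at h1
      unfold bsF
      rw [if_pos hT, h1]
      have h2 : (if τ ∈ cliq G ∧ σ ⊆ τ ∧ τ.card = n then (1 : ZMod 2) else 0) =
          if τ.card = n then 1 else 0 := by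
        by_cases hcard : τ.card = n
        · rw [if_pos ⟨hT.1, hT.2.1, hcard⟩, if_pos hcard]
        · rw [if_neg hcard, if_neg (fun h3 => hcard h3.2.2)]
      rw [h2]
      have h3 := vrow_two (bs u τ)
      have h4 := vrow_two (if τ.card = n then e' else 0)
      have h5 : e' * (if τ.card = n then (1 : ZMod 2) else 0) = if τ.card = n then e' else 0 := by
        split_ifs <;> simp
      rw [h5]
      calc bs u τ + (if τ.card = n then e' else 0) + bs u τ + (if τ.card = n then e' else 0)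
          = (bs u τ + bs u τ) + ((if τ.card = n then e' else 0) +
            (if τ.card = n then e' else 0)) := by ring
        _ = 0 := by rw [h3, h4, add_zero]
    · unfold bsF
      rw [if_neg hT, hw τ hT, if_neg (fun h3 => hT ⟨h3.1, h3.2.1, Finset.disjoint_empty_right τ⟩)]
      ring
  · intro τ hτ
    have hT := ((memF τ).1 hτ).1
    rw [bs_add (fun τ => w τ + bsF (Fam G σ ∅) u τ)
      (fun τ => e' * if τ ∈ cliq G ∧ σ ⊆ τ ∧ τ.card = n then 1 else 0) τ, bs_add w,
      bs_bs (Fam G σ ∅) (conv_fam G σ ∅) u (by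
        intro ρ hρ
        exact hu ρ (fun h1 => hρ ((memP ρ).1 h1).1)) τ hT]
    have h1 : bs (fun τ => e' * if τ ∈ cliq G ∧ σ ⊆ τ ∧ τ.card = n then (1 : ZMod 2) else 0) τ =
        e' * bs (fun ρ => if ρ ∈ cliq G ∧ σ ⊆ ρ ∧ ρ.card = n then 1 else 0) τ := by
      unfold bs
      rw [Finset.mul_sum]
    rw [h1, hS.fund σ τ hT.1 hT.2.1, mul_zero, add_zero, add_zero, hwz τ hT, he, ite_self, add_zero]

theorem HomSphere.acyc (hS : HomSphere n G) (ρ : Finset V) (hρ : ρ.Nonempty) (σ : Finset V)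
    (h : σ ∪ ρ ∈ cliq G) (hd : Disjoint σ ρ) : Acyc (Fam G σ ρ) := by
  induction ρ using Finset.induction_on generalizing σ with
  | empty => exact absurd hρ (by simp)
  | insert v ρ' hv ih =>
    rw [Finset.disjoint_insert_right] at hd
    rcases Finset.eq_empty_or_nonempty ρ' with h0 | h0
    · subst h0
      have e : (insert v (∅ : Finset V)) = {v} := rfl
      rw [e] at h ⊢
      refine hS.acyc_one σ v hd.1 (vrow_cliq_sub ?_ h)
      intro x hx
      rw [Finset.mem_insert] at hx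
      rw [Finset.mem_union, Finset.mem_singleton]
      tauto
    · have h1 : Acyc (Fam G σ ρ') := by
        refine ih h0 σ (vrow_cliq_sub ?_ h) hd.2
        exact Finset.union_subset_union_right (Finset.subset_insert v ρ')
      have h2 : Acyc (Fam G (insert v σ) ρ') := by
        refine ih h0 (insert v σ) (vrow_cliq_sub ?_ h) ?_
        · intro x hx
          rw [Finset.mem_union, Finset.mem_insert] at hx
          rw [Finset.mem_union, Finset.mem_insert]
          tauto
        · rw [Finset.disjoint_insert_left]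
          exact ⟨hv, hd.2⟩
      have h3 : {τ | τ ∈ Fam G σ ρ' ∧ v ∈ τ} = Fam G (insert v σ) ρ' := by
        ext τ
        unfold Fam
        simp only [Set.mem_setOf_eq, Finset.insert_subset_iff]
        tauto
      have h4 : {τ | τ ∈ Fam G σ ρ' ∧ v ∉ τ} = Fam G σ (insert v ρ') := by
        ext τ
        unfold Fam
        simp only [Set.mem_setOf_eq, Finset.disjoint_insert_right]
        tauto
      rw [← h4]
      exact Acyc.remove (Fam G σ ρ') (conv_fam G σ ρ') v h1 (by rw [h3]; exact h2)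

end SingerRA
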