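import Mathlib
import Pool.Agent.Lib_MP_394d50_vk.VDefs

/-!
Piece VALT: the coboundary of the alternating cochain (about 100-140 lines).

Proof. Three rules, directly from the definition of `Alt` (counting elements smaller than `x`):
(R1) `Alt ∅ ∅`. (R2) if `w` is smaller than all the elements of `σ ∪ τ` then
`Alt (insert w σ) τ ↔ Alt τ σ` (at `x = w`: `0 = 0`; for `x ∈ σ`: `#τ_{<x} = #σ_{<x} + 1`; for
`x ∈ τ`: `#σ_{<x} + 1 = #τ_{<x} + 1`). (R3) if `w` is smaller than all the elements of `σ ∪ τ` then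
`¬ Alt σ (insert w τ)` (take `x = w`: `0 = 0 + 1`).
`alt_cobd`: write `S σ τ` for the left side. Induction on `σ.card + τ.card`; if both are empty, both sides
are `0` (`1 + 1 = 0`). Otherwise let `w` be the smallest element of `σ ∪ τ`.
* `w ∈ σ`, `σ = insert w σ'`: the term `v = w` is `alt σ' τ`; by (R2) the other terms are
  `alt (insert w (σ'.erase v)) τ = alt τ (σ'.erase v)` and `alt (insert w σ') (τ.erase v) =
  alt (τ.erase v) σ'`, so `S σ τ = alt σ' τ + S τ σ' = alt σ' τ + alt τ σ' + alt σ' τ = alt τ σ' = alt σ τ`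
  and `alt τ σ = 0` by (R3).
* `w ∈ τ`, `τ = insert w τ'`: all terms vanish by (R3) except `v = w`, which is `alt σ τ'`; and
  `alt σ τ = 0` by (R3), `alt τ σ = alt σ τ'` by (R2).
-/

namespace SingerRA

variable {V : Type} [LinearOrder V]

theorem alt_aux_filter {w x : V} {σ : Finset V} (hx : w < x) (hw : w ∉ σ) :
    ((insert w σ).filter (· < x)).card = (σ.filter (· < x)).card + 1 := by
  rw [Finset.filter_insert, if_pos hx, Finset.card_insert_of_notMem]
  intro h
  exact hw (Finset.mem_filter.mp h).1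

theorem alt_aux_zero {w : V} {σ : Finset V} (h : ∀ x ∈ σ, w < x) :
    (σ.filter (· < w)).card = 0 := by
  rw [Finset.card_eq_zero, Finset.filter_eq_empty_iff]
  intro x hx
  exact not_lt.mpr (h x hx).le

theorem alt_aux_zero' {w : V} {σ : Finset V} (h : ∀ x ∈ σ, w < x) :
    ((insert w σ).filter (· < w)).card = 0 := by
  rw [Finset.card_eq_zero, Finset.filter_eq_empty_iff]
  intro x hx
  rcases Finset.mem_insert.mp hx with rfl | hx
  · exact lt_irrefl _
  · exact not_lt.mpr (h x hx).le

theorem Alt_insert_left {w : V} {σ τ : Finset V} (hσ : ∀ x ∈ σ, w < x) (hτ : ∀ x ∈ τ, w < x) :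
    Alt (insert w σ) τ ↔ Alt τ σ := by
  have hw : w ∉ σ := fun h => lt_irrefl _ (hσ w h)
  constructor
  · rintro ⟨h1, h2⟩
    refine ⟨?_, ?_⟩
    · intro x hx
      have := h2 x hx
      rw [alt_aux_filter (hτ x hx) hw] at this
      omega
    · intro x hx
      have := h1 x (Finset.mem_insert_of_mem hx)
      rwa [alt_aux_filter (hσ x hx) hw] at this
  · rintro ⟨h1, h2⟩
    refine ⟨?_, ?_⟩
    · intro x hx
      rcases Finset.mem_insert.mp hx with rfl | hx
      · rw [alt_aux_zero hτ, alt_aux_zero' hσ]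
      · rw [alt_aux_filter (hσ x hx) hw]
        exact h2 x hx
    · intro x hx
      rw [alt_aux_filter (hτ x hx) hw, h1 x hx]

theorem not_Alt_insert {w : V} {σ τ : Finset V} (hσ : ∀ x ∈ σ, w < x) (hτ : ∀ x ∈ τ, w < x) :
    ¬ Alt σ (insert w τ) := by
  rintro ⟨-, h2⟩
  have := h2 w (Finset.mem_insert_self _ _)
  rw [alt_aux_zero hσ, alt_aux_zero' hτ] at this
  omega

theorem alt_insert_left {w : V} {σ τ : Finset V} (hσ : ∀ x ∈ σ, w < x) (hτ : ∀ x ∈ τ, w < x) :
    alt (insert w σ) τ = alt τ σ := by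
  classical
  unfold alt
  exact if_congr (Alt_insert_left hσ hτ) rfl rfl

theorem alt_insert_right {w : V} {σ τ : Finset V} (hσ : ∀ x ∈ σ, w < x) (hτ : ∀ x ∈ τ, w < x) :
    alt σ (insert w τ) = 0 := by
  unfold alt
  rw [if_neg (not_Alt_insert hσ hτ)]

theorem alt_cobd (σ τ : Finset V) (h : Disjoint σ τ) :
    ∑ v ∈ σ, alt (σ.erase v) τ + ∑ v ∈ τ, alt σ (τ.erase v) = alt σ τ + alt τ σ := by
  obtain ⟨n, hn⟩ : ∃ n, σ.card + τ.card = n := ⟨_, rfl⟩
  induction n generalizing σ τ with
  | zero =>
    have h1 : σ = ∅ := Finset.card_eq_zero.mp (by omega)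
    have h2 : τ = ∅ := Finset.card_eq_zero.mp (by omega)
    subst h1
    subst h2
    rw [Finset.sum_empty, Finset.sum_empty, CharTwo.add_self_eq_zero, CharTwo.add_self_eq_zero]
  | succ n ih =>
    have hne : (σ ∪ τ).Nonempty := by
      rw [← Finset.card_pos, Finset.card_union_of_disjoint h]
      omega
    obtain ⟨w, hw, hmin⟩ := Finset.exists_minimal hne
    have hmin' : ∀ x ∈ σ ∪ τ, x ≠ w → w < x := by
      intro x hx hne
      rcases lt_trichotomy x w with h1 | h1 | h1
      · exact absurd (hmin hx h1.le) (not_le.mpr h1)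
      · exact absurd h1 hne
      · exact h1
    rcases Finset.mem_union.mp hw with hwσ | hwτ
    · obtain ⟨σ', hσ', rfl⟩ : ∃ σ', w ∉ σ' ∧ insert w σ' = σ :=
        ⟨σ.erase w, Finset.notMem_erase _ _, Finset.insert_erase hwσ⟩
      have hdis : Disjoint σ' τ := (Finset.disjoint_insert_left.mp h).2
      have hwτ : w ∉ τ := (Finset.disjoint_insert_left.mp h).1
      have hσw : ∀ x ∈ σ', w < x := fun x hx =>
        hmin' x (Finset.mem_union_left _ (Finset.mem_insert_of_mem hx))
          (fun hh => hσ' (hh ▸ hx))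
      have hτw : ∀ x ∈ τ, w < x := fun x hx =>
        hmin' x (Finset.mem_union_right _ hx) (fun hh => hwτ (hh ▸ hx))
      rw [Finset.sum_insert hσ', Finset.erase_insert hσ']
      have e1 : ∑ v ∈ σ', alt ((insert w σ').erase v) τ = ∑ v ∈ σ', alt τ (σ'.erase v) := by
        apply Finset.sum_congr rfl
        intro v hv
        have hvw : w ≠ v := (hσw v hv).ne
        rw [Finset.erase_insert_of_ne hvw]
        exact alt_insert_left (fun x hx => hσw x (Finset.mem_of_mem_erase hx)) hτw
      have e2 : ∑ v ∈ τ, alt (insert w σ') (τ.erase v) = ∑ v ∈ τ, alt (τ.erase v) σ' := by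
        apply Finset.sum_congr rfl
        intro v hv
        exact alt_insert_left hσw (fun x hx => hτw x (Finset.mem_of_mem_erase hx))
      have e3 := ih τ σ' hdis.symm (by
        rw [Finset.card_insert_of_notMem hσ'] at hn
        omega)
      rw [e1, e2, alt_insert_left hσw hτw, alt_insert_right hτw hσw, add_zero]
      rw [add_assoc, add_comm (∑ v ∈ σ', alt τ (σ'.erase v)), e3, add_comm (alt τ σ'),
        ← add_assoc, CharTwo.add_self_eq_zero, zero_add]
    · obtain ⟨τ', hτ', rfl⟩ : ∃ τ', w ∉ τ' ∧ insert w τ' = τ :=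
        ⟨τ.erase w, Finset.notMem_erase _ _, Finset.insert_erase hwτ⟩
      have hwσ : w ∉ σ := (Finset.disjoint_insert_right.mp h).1
      have hτw : ∀ x ∈ τ', w < x := fun x hx =>
        hmin' x (Finset.mem_union_right _ (Finset.mem_insert_of_mem hx))
          (fun hh => hτ' (hh ▸ hx))
      have hσw : ∀ x ∈ σ, w < x := fun x hx =>
        hmin' x (Finset.mem_union_left _ hx) (fun hh => hwσ (hh ▸ hx))
      rw [Finset.sum_insert hτ', Finset.erase_insert hτ']
      have e1 : ∑ v ∈ σ, alt (σ.erase v) (insert w τ') = 0 := by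
        apply Finset.sum_eq_zero
        intro v _
        exact alt_insert_right (fun x hx => hσw x (Finset.mem_of_mem_erase hx)) hτw
      have e2 : ∑ v ∈ τ', alt σ ((insert w τ').erase v) = 0 := by
        apply Finset.sum_eq_zero
        intro v hv
        have hvw : w ≠ v := (hτw v hv).ne
        rw [Finset.erase_insert_of_ne hvw]
        exact alt_insert_right hσw (fun x hx => hτw x (Finset.mem_of_mem_erase hx))
      rw [e1, e2, alt_insert_right hσw hτw, alt_insert_left hτw hσw, add_zero, zero_add]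

end SingerRA
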