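import Mathlib
import Pool.Agent.Lib_MP_394d50_vk.VDefs

/-!
Piece VTOT: exactness of the total complex of pairs of disjoint cliques with `σ ≠ ∅`
(about 150-200 lines).

* `dd_dd`: `DD ∘ DD = 0`: the terms are `W (σ ∪ {v,v'}) τ` (twice each), `W σ (τ ∪ {v,v'})` (twice each) and
  `W (insert v σ) (insert u τ)` (twice: once from each order). The truncation to the pairs with `DP`
  and `σ ≠ ∅` is harmless: if `W` is nonzero at a pair `(σ'', τ'')` with `σ ⊆ σ''`, `τ ⊆ τ''`, then all the pairs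
  in between are pairs of disjoint cliques with nonempty first component.
* `total_exact`: prove by induction on `N` the statement for `W` which also vanishes at the pairs with
  `σ.card > N`. `N = 0`: `W = 0`, `X = 0`. Step `N + 1`: for a clique `σ` with `σ.card = N + 1` the function
  `W σ` is a cycle on `{τ ∈ cliq G, Disjoint τ σ}` (`= Fam G ∅ σ`): the first term of `DD W σ τ` vanishes because
  `(insert v σ).card = N + 2`. So `hac` gives `x σ` supported on this family with `W σ τ = bs (x σ) τ`. Put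
  `X σ τ = x σ τ` when `σ ∈ cliq G`, `σ.card = N + 1`, and `0` otherwise. Then
  `W' σ τ = W σ τ + (DD X σ τ on the pairs with DP and σ nonempty, 0 elsewhere)` vanishes at
  the pairs with `σ.card > N`, and `DD W' = 0` on the pairs with `DP`, `σ ≠ ∅` by `dd_dd`. By induction
  `W' = DD X'`, so `W = DD (X + X')`.
-/

namespace SingerRA

variable {V : Type} [Fintype V] [DecidableEq V] {G : SimpleGraph V}

theorem vtot_bsbs (z : Finset V → ZMod 2) (σ : Finset V) : bs (fun ρ => bs z ρ) σ = 0 := by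
  unfold bs
  rw [Finset.sum_sigma']
  refine Finset.sum_involution (fun p _ => ⟨p.2, p.1⟩) ?_ ?_ ?_ ?_
  · rintro ⟨v, v'⟩ _
    show z (insert v' (insert v σ)) + z (insert v (insert v' σ)) = 0
    rw [Finset.insert_comm]
    exact CharTwo.add_self_eq_zero _
  · rintro ⟨v, v'⟩ h _ heq
    simp only [Finset.mem_sigma, Finset.mem_sdiff, Finset.mem_univ, true_and] at h
    have h1 : v' = v := congrArg (fun p : (_ : V) × V => p.1) heq
    exact h.2 (by rw [h1]; exact Finset.mem_insert_self _ _)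
  · rintro ⟨v, v'⟩ h
    simp only [Finset.mem_sigma, Finset.mem_sdiff, Finset.mem_univ, true_and,
      Finset.mem_insert, not_or] at h ⊢
    exact ⟨h.2.2, fun h' => h.2.1 h'.symm, h.1⟩
  · rintro ⟨v, v'⟩ _
    rfl

theorem vtot_bs_add (z w : Finset V → ZMod 2) (τ : Finset V) :
    bs (fun ρ => z ρ + w ρ) τ = bs z τ + bs w τ := by
  unfold bs
  exact Finset.sum_add_distrib

theorem dd_add (W W' : Finset V → Finset V → ZMod 2) (σ τ : Finset V) :
    DD (fun ρ ρ' => W ρ ρ' + W' ρ ρ') σ τ = DD W σ τ + DD W' σ τ := by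
  unfold DD
  rw [vtot_bs_add, vtot_bs_add]
  ring

theorem vtot_clique_down {σ ρ : Finset V} (h : σ ∈ cliq G) (h' : ρ ⊆ σ) : ρ ∈ cliq G :=
  Set.Pairwise.mono (Finset.coe_subset.mpr h') h

theorem vtot_DP_down {σ τ σ' τ' : Finset V} (h : DP G σ τ) (h1 : σ' ⊆ σ) (h2 : τ' ⊆ τ) :
    DP G σ' τ' :=
  ⟨vtot_clique_down h.1 h1, vtot_clique_down h.2.1 h2, Finset.disjoint_of_subset_left h1
    (Finset.disjoint_of_subset_right h2 h.2.2)⟩

/-- `DD W` vanishes outside of the pairs of disjoint cliques -/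
theorem vtot_DD_zero (W : Finset V → Finset V → ZMod 2)
    (hW : ∀ σ τ, ¬ (DP G σ τ ∧ σ.Nonempty) → W σ τ = 0) (σ τ : Finset V) (h : ¬ DP G σ τ) :
    DD W σ τ = 0 := by
  unfold DD bs
  rw [Finset.sum_eq_zero, Finset.sum_eq_zero, add_zero]
  · intro v _
    exact hW _ _ fun h' => h (vtot_DP_down h'.1 (Finset.Subset.refl _) (Finset.subset_insert _ _))
  · intro v _
    exact hW _ _ fun h' => h (vtot_DP_down h'.1 (Finset.subset_insert _ _) (Finset.Subset.refl _))

open scoped Classical in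
theorem dd_dd (W : Finset V → Finset V → ZMod 2)
    (hW : ∀ σ τ, ¬ (DP G σ τ ∧ σ.Nonempty) → W σ τ = 0) (σ τ : Finset V) (h : DP G σ τ)
    (h' : σ.Nonempty) :
    DD (fun ρ ρ' => if DP G ρ ρ' ∧ ρ.Nonempty then DD W ρ ρ' else 0) σ τ = 0 := by
  have key : ∀ ρ ρ' : Finset V, ρ.Nonempty →
      (if DP G ρ ρ' ∧ ρ.Nonempty then DD W ρ ρ' else 0) = DD W ρ ρ' := by
    intro ρ ρ' hρ
    by_cases hd : DP G ρ ρ'
    · rw [if_pos ⟨hd, hρ⟩]
    · rw [if_neg (fun h'' => hd h''.1), vtot_DD_zero W hW ρ ρ' hd]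
  have e1 : DD (fun ρ ρ' => if DP G ρ ρ' ∧ ρ.Nonempty then DD W ρ ρ' else 0) σ τ =
      bs (fun ρ => DD W ρ τ) σ + bs (fun ρ' => DD W σ ρ') τ := by
    unfold DD
    congr 1
    · unfold bs
      refine Finset.sum_congr rfl fun v _ => ?_
      exact key _ _ (Finset.insert_nonempty _ _)
    · unfold bs
      refine Finset.sum_congr rfl fun v _ => ?_
      exact key _ _ h'
  rw [e1]
  unfold DD
  rw [vtot_bs_add, vtot_bs_add]
  have e2 : bs (fun ρ => bs (fun ρ_1 => W ρ_1 τ) ρ) σ = 0 := vtot_bsbs _ _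
  have e3 : bs (fun ρ' => bs (W σ) ρ') τ = 0 := vtot_bsbs _ _
  have e4 : bs (fun ρ => bs (W ρ) τ) σ = bs (fun ρ' => bs (fun ρ => W ρ ρ') σ) τ := by
    unfold bs
    exact Finset.sum_comm
  rw [e2, e3, e4, zero_add, add_zero]
  exact CharTwo.add_self_eq_zero _

open scoped Classical in
theorem total_exact_aux (hac : ∀ σ ∈ cliq G, σ.Nonempty → Acyc (Fam G ∅ σ)) (N : ℕ) :
    ∀ (W : Finset V → Finset V → ZMod 2),
      (∀ σ τ, ¬ (DP G σ τ ∧ σ.Nonempty) → W σ τ = 0) →
      (∀ σ τ, N < σ.card → W σ τ = 0) →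
      (∀ σ τ, DP G σ τ → σ.Nonempty → DD W σ τ = 0) →
      ∃ X : Finset V → Finset V → ZMod 2, (∀ σ τ, ¬ (DP G σ τ ∧ σ.Nonempty) → X σ τ = 0) ∧
        ∀ σ τ, DP G σ τ → σ.Nonempty → W σ τ = DD X σ τ := by
  induction N with
  | zero =>
    intro W hW hN hD
    refine ⟨fun _ _ => 0, fun _ _ _ => rfl, ?_⟩
    intro σ τ h h'
    rw [hN σ τ (Finset.card_pos.2 h')]
    unfold DD bs
    simp
  | succ N ih =>
    intro W hW hN hD
    have hex : ∀ σ : Finset V, ∃ x : Finset V → ZMod 2,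
        (σ ∈ cliq G → σ.card = N + 1 → (∀ τ, τ ∉ Fam G ∅ σ → x τ = 0) ∧
          ∀ τ ∈ Fam G ∅ σ, W σ τ = bs x τ) ∧ (¬ (σ ∈ cliq G ∧ σ.card = N + 1) → x = 0) := by
      intro σ
      by_cases hσ : σ ∈ cliq G ∧ σ.card = N + 1
      · have hne : σ.Nonempty := Finset.card_pos.1 (by omega)
        obtain ⟨w, hw1, hw2⟩ := hac σ hσ.1 hne (W σ)
          (by
            intro τ hτ
            refine hW σ τ fun h => hτ ?_
            exact ⟨h.1.2.1, Finset.empty_subset _, h.1.2.2.symm⟩)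
          (by
            intro τ hτ
            have h1 := hD σ τ ⟨hσ.1, hτ.1, hτ.2.2.symm⟩ hne
            unfold DD at h1
            have h2 : bs (fun ρ => W ρ τ) σ = 0 := by
              unfold bs
              refine Finset.sum_eq_zero fun v hv => ?_
              refine hN _ _ ?_
              rw [Finset.card_insert_of_notMem (Finset.mem_sdiff.1 hv).2]
              omega
            rw [h2, zero_add] at h1
            exact h1)
        exact ⟨w, fun _ _ => ⟨hw1, hw2⟩, fun h => absurd hσ h⟩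
      · exact ⟨0, fun h1 h2 => absurd ⟨h1, h2⟩ hσ, fun _ => rfl⟩
    choose X hX1 hX2 using hex
    have hXs : ∀ σ τ, ¬ (DP G σ τ ∧ σ.Nonempty) → X σ τ = 0 := by
      intro σ τ h
      by_cases hσ : σ ∈ cliq G ∧ σ.card = N + 1
      · refine (hX1 σ hσ.1 hσ.2).1 τ fun hτ => h ⟨⟨hσ.1, hτ.1, hτ.2.2.symm⟩, ?_⟩
        exact Finset.card_pos.1 (by omega)
      · rw [hX2 σ hσ]; rfl
    have hXc : ∀ σ τ, σ.card ≠ N + 1 → X σ τ = 0 := by
      intro σ τ h
      rw [hX2 σ fun h' => h h'.2]; rfl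
    set W' : Finset V → Finset V → ZMod 2 := fun σ τ =>
      W σ τ + (if DP G σ τ ∧ σ.Nonempty then DD X σ τ else 0) with hW'
    obtain ⟨X', hX's, hX'⟩ := ih W'
      (by
        intro σ τ h
        simp only [hW']
        rw [hW σ τ h, if_neg h, add_zero])
      (by
        intro σ τ hc
        simp only [hW']
        by_cases hd : DP G σ τ ∧ σ.Nonempty
        · rw [if_pos hd]
          have h1 : bs (fun ρ => X ρ τ) σ = 0 := by
            unfold bs
            refine Finset.sum_eq_zero fun v hv => hXc _ _ ?_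
            rw [Finset.card_insert_of_notMem (Finset.mem_sdiff.1 hv).2]
            omega
          unfold DD
          rw [h1, zero_add]
          by_cases hc' : σ.card = N + 1
          · rw [← (hX1 σ hd.1.1 hc').2 τ ⟨hd.1.2.1, Finset.empty_subset _, hd.1.2.2.symm⟩]
            exact CharTwo.add_self_eq_zero _
          · rw [hN σ τ (by omega), zero_add]
            unfold bs
            exact Finset.sum_eq_zero fun v _ => hXc _ _ hc'
        · rw [if_neg hd, hW σ τ hd, add_zero])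
      (by
        intro σ τ h h'
        have e := dd_add W (fun σ τ => if DP G σ τ ∧ σ.Nonempty then DD X σ τ else 0) σ τ
        have e' : DD W' σ τ = DD W σ τ +
          DD (fun σ τ => if DP G σ τ ∧ σ.Nonempty then DD X σ τ else 0) σ τ := e
        rw [e', hD σ τ h h', zero_add]
        exact dd_dd X hXs σ τ h h')
    refine ⟨fun σ τ => X σ τ + X' σ τ, ?_, ?_⟩
    · intro σ τ h
      show X σ τ + X' σ τ = 0
      rw [hXs σ τ h, hX's σ τ h, add_zero]
    · intro σ τ h h'
      rw [dd_add, ← hX' σ τ h h']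
      simp only [hW']
      rw [if_pos ⟨h, h'⟩, add_comm (W σ τ), ← add_assoc, CharTwo.add_self_eq_zero, zero_add]

theorem total_exact (hac : ∀ σ ∈ cliq G, σ.Nonempty → Acyc (Fam G ∅ σ))
    (W : Finset V → Finset V → ZMod 2) (hW : ∀ σ τ, ¬ (DP G σ τ ∧ σ.Nonempty) → W σ τ = 0)
    (hD : ∀ σ τ, DP G σ τ → σ.Nonempty → DD W σ τ = 0) :
    ∃ X : Finset V → Finset V → ZMod 2, (∀ σ τ, ¬ (DP G σ τ ∧ σ.Nonempty) → X σ τ = 0) ∧
      ∀ σ τ, DP G σ τ → σ.Nonempty → W σ τ = DD X σ τ :=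
  total_exact_aux hac (Fintype.card V) W hW
    (fun σ _ h => absurd (Finset.card_le_univ σ) (by omega)) hD

end SingerRA
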