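import Mathlib
import Pool.Agent.Lib_MP_394d50_vk.VDefs
import Pool.Agent.Lib_MP_394d50_vk.VAlt
import Pool.Agent.Lib_MP_394d50_vk.VTot

/-!
Piece VVK: the van Kampen functional vanishes (about 120-180 lines).

* `alt_DD` (adjunction): for `X` supported on the pairs of disjoint cliques, the sum over all pairs
  `(σ, τ)` with `DP` of `alt σ τ * DD X σ τ` is
  `∑_{σ, τ} (∑_{v ∈ σ} alt (σ.erase v) τ + ∑_{v ∈ τ} alt σ (τ.erase v)) * X σ τ` (exchange the summations:
  `(σ, v ∉ σ) ↔ (σ' = insert v σ, v ∈ σ')`; when `X σ' τ ≠ 0` the pair `(σ', τ)` and so `(σ, τ)` has `DP`), which is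
  `∑_{σ, τ} (alt σ τ + alt τ σ) * X σ τ` by `alt_cobd`.
* `vk`: prove for all `d` and `K` with `K + d = 2 * n + 1`, `n < K` by induction on `d` the statement. If
  `2 * n < K` then `W = 0` because the cliques have at most `n` elements (this is the case `d = 0`). Step: all
  pairs in the support of `W` have `σ ≠ ∅` (otherwise `τ.card = K > n`). By `hex` (the conclusion of
  `total_exact`) `W = DD X` on the pairs with `DP`, `σ ≠ ∅`; replace `X` by its part with
  `σ.card + τ.card = K + 1` (then still `W σ τ = DD X σ τ` at all pairs with `DP` and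
  `σ.card + τ.card = K`, and `DD X σ τ = 0` at the pairs with `DP` and `σ.card + τ.card ≠ K`; a pair with `DP` and
  `σ = ∅` has `σ.card + τ.card ≤ n < K`, and there `DD X = 0` and `W = 0`). So `W σ τ = DD X σ τ` for all pairs with
  `DP`. Hence `∑ alt σ τ * W σ τ = ∑ (alt σ τ + alt τ σ) * X σ τ = ∑ alt σ τ * (X σ τ + X τ σ)`, and
  `W₁ σ τ = X σ τ + X τ σ` satisfies the hypotheses of the statement for `K + 1`, because `DD` commutes with
  the exchange of the two variables (`DD (fun σ τ => X τ σ) σ τ = DD X τ σ`), so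
  `DD W₁ σ τ = W σ τ + W τ σ = 0`.
-/

namespace SingerRA

variable {V : Type} [Fintype V] [LinearOrder V] {G : SimpleGraph V}

namespace VVk

omit [Fintype V] [LinearOrder V] in
lemma dp_symm {σ τ : Finset V} (h : DP G σ τ) : DP G τ σ := ⟨h.2.1, h.1, h.2.2.symm⟩

omit [Fintype V] [LinearOrder V] in
lemma dp_mono {σ σ' τ τ' : Finset V} (h : DP G σ' τ') (hσ : σ ⊆ σ') (hτ : τ ⊆ τ') : DP G σ τ :=
  ⟨h.1.subset (Finset.coe_subset.2 hσ), h.2.1.subset (Finset.coe_subset.2 hτ),
    (h.2.2.mono_left hσ).mono_right hτ⟩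

lemma exch (g : Finset V → Finset V → ZMod 2) :
    ∑ σ : Finset V, ∑ v ∈ Finset.univ \ σ, g σ (insert v σ) =
      ∑ ρ : Finset V, ∑ v ∈ ρ, g (ρ.erase v) ρ := by
  rw [Finset.sum_sigma', Finset.sum_sigma']
  refine Finset.sum_bij' (fun x _ => ⟨insert x.2 x.1, x.2⟩) (fun x _ => ⟨x.1.erase x.2, x.2⟩)
    ?_ ?_ ?_ ?_ ?_
  · rintro ⟨σ, v⟩ h
    simp
  · rintro ⟨ρ, v⟩ h
    simp
  · rintro ⟨σ, v⟩ h
    simp only [Finset.mem_sigma, Finset.mem_univ, true_and, Finset.mem_sdiff] at h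
    simp [Finset.erase_insert h]
  · rintro ⟨ρ, v⟩ h
    simp only [Finset.mem_sigma, Finset.mem_univ, true_and] at h
    simp [Finset.insert_erase h]
  · rintro ⟨σ, v⟩ h
    simp only [Finset.mem_sigma, Finset.mem_univ, true_and, Finset.mem_sdiff] at h
    simp [Finset.erase_insert h]

lemma dd_zero {X : Finset V → Finset V → ZMod 2} (hX : ∀ σ τ, ¬ DP G σ τ → X σ τ = 0)
    {σ τ : Finset V} (h : ¬ DP G σ τ) : DD X σ τ = 0 := by
  unfold DD bs
  rw [Finset.sum_eq_zero, Finset.sum_eq_zero, add_zero]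
  · intro v _
    exact hX _ _ fun h' => h (dp_mono h' subset_rfl (Finset.subset_insert _ _))
  · intro v _
    exact hX _ _ fun h' => h (dp_mono h' (Finset.subset_insert _ _) subset_rfl)

lemma dd_swap (X : Finset V → Finset V → ZMod 2) (σ τ : Finset V) :
    DD (fun ρ ρ' => X ρ' ρ) σ τ = DD X τ σ := by
  unfold DD
  rw [add_comm]

end VVk

open scoped Classical in
theorem alt_DD (X : Finset V → Finset V → ZMod 2) (hX : ∀ σ τ, ¬ DP G σ τ → X σ τ = 0) :
    ∑ σ, ∑ τ, alt σ τ * (if DP G σ τ then DD X σ τ else 0) =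
      ∑ σ, ∑ τ, (alt σ τ + alt τ σ) * X σ τ := by
  have h1 : ∀ σ τ : Finset V, (if DP G σ τ then DD X σ τ else 0) = DD X σ τ := by
    intro σ τ
    split_ifs with h
    · rfl
    · exact (VVk.dd_zero hX h).symm
  have e1 : ∑ σ, ∑ τ, alt σ τ * bs (fun ρ => X ρ τ) σ =
      ∑ σ, ∑ τ, (∑ v ∈ σ, alt (σ.erase v) τ) * X σ τ := by
    rw [Finset.sum_comm]
    rw [Finset.sum_comm (s := (Finset.univ : Finset (Finset V)))
      (f := fun σ τ => (∑ v ∈ σ, alt (σ.erase v) τ) * X σ τ)]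
    refine Finset.sum_congr rfl fun τ _ => ?_
    have h2 := VVk.exch (fun σ ρ => alt σ τ * X ρ τ)
    simp only [bs, Finset.mul_sum, Finset.sum_mul]
    exact h2
  have e2 : ∑ σ, ∑ τ, alt σ τ * bs (X σ) τ =
      ∑ σ, ∑ τ, (∑ v ∈ τ, alt σ (τ.erase v)) * X σ τ := by
    refine Finset.sum_congr rfl fun σ _ => ?_
    have h2 := VVk.exch (fun τ ρ => alt σ τ * X σ ρ)
    simp only [bs, Finset.mul_sum, Finset.sum_mul]
    exact h2
  calc ∑ σ, ∑ τ, alt σ τ * (if DP G σ τ then DD X σ τ else 0)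
      = ∑ σ, ∑ τ, alt σ τ * bs (fun ρ => X ρ τ) σ + ∑ σ, ∑ τ, alt σ τ * bs (X σ) τ := by
        simp only [h1]
        simp only [DD, mul_add, Finset.sum_add_distrib]
    _ = ∑ σ, ∑ τ, (∑ v ∈ σ, alt (σ.erase v) τ + ∑ v ∈ τ, alt σ (τ.erase v)) * X σ τ := by
        rw [e1, e2]
        simp only [add_mul, Finset.sum_add_distrib]
    _ = _ := by
        refine Finset.sum_congr rfl fun σ _ => Finset.sum_congr rfl fun τ _ => ?_
        by_cases h : DP G σ τ
        · rw [alt_cobd σ τ h.2.2]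
        · rw [hX σ τ h, mul_zero, mul_zero]

theorem vk (n K : ℕ) (hdim : ∀ σ ∈ cliq G, σ.card ≤ n) (hK : n < K)
    (hac : ∀ σ ∈ cliq G, σ.Nonempty → Acyc (Fam G ∅ σ))
    (W : Finset V → Finset V → ZMod 2)
    (hW : ∀ σ τ, ¬ (DP G σ τ ∧ σ.card + τ.card = K) → W σ τ = 0)
    (hs : ∀ σ τ, W σ τ = W τ σ) (hD : ∀ σ τ, DP G σ τ → DD W σ τ = 0) :
    ∑ σ, ∑ τ, alt σ τ * W σ τ = 0 := by
  classical
  by_cases hbig : 2 * n < K
  · refine Finset.sum_eq_zero fun σ _ => Finset.sum_eq_zero fun τ _ => ?_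
    rw [hW σ τ, mul_zero]
    rintro ⟨h1, h2⟩
    have h3 := hdim σ h1.1
    have h4 := hdim τ h1.2.1
    omega
  push Not at hbig
  obtain ⟨d, hd⟩ : ∃ d, K + d = 2 * n + 1 := ⟨2 * n + 1 - K, by omega⟩
  clear hbig
  induction d generalizing K W with
  | zero =>
    refine Finset.sum_eq_zero fun σ _ => Finset.sum_eq_zero fun τ _ => ?_
    rw [hW σ τ, mul_zero]
    rintro ⟨h1, h2⟩
    have h3 := hdim σ h1.1
    have h4 := hdim τ h1.2.1
    omega
  | succ d ih =>
    have hne : ∀ σ τ, DP G σ τ → σ.card + τ.card = K → σ.Nonempty := by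
      intro σ τ h1 h2
      rw [Finset.nonempty_iff_ne_empty]
      rintro rfl
      have := hdim τ h1.2.1
      rw [Finset.card_empty] at h2
      omega
    obtain ⟨X0, hX0, hWX⟩ := total_exact hac W
      (fun σ τ h => hW σ τ fun h' => h ⟨h'.1, hne σ τ h'.1 h'.2⟩)
      (fun σ τ h _ => hD σ τ h)
    let X : Finset V → Finset V → ZMod 2 := fun σ τ =>
      if σ.card + τ.card = K + 1 then X0 σ τ else 0
    have hXdef : ∀ σ τ, X σ τ = if σ.card + τ.card = K + 1 then X0 σ τ else 0 := fun _ _ => rfl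
    have hXsupp : ∀ σ τ, ¬ (DP G σ τ ∧ σ.card + τ.card = K + 1) → X σ τ = 0 := by
      intro σ τ h
      rw [hXdef]
      split_ifs with h1
      · exact hX0 σ τ fun h2 => h ⟨h2.1, h1⟩
      · rfl
    have hXDP : ∀ σ τ, ¬ DP G σ τ → X σ τ = 0 := fun σ τ h => hXsupp σ τ fun h' => h h'.1
    have hWD : ∀ σ τ, DP G σ τ → W σ τ = DD X σ τ := by
      intro σ τ h
      have hc1 : ∀ v ∈ Finset.univ \ σ, (insert v σ).card = σ.card + 1 := by
        intro v hv
        exact Finset.card_insert_of_notMem (Finset.mem_sdiff.1 hv).2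
      have hc2 : ∀ v ∈ Finset.univ \ τ, (insert v τ).card = τ.card + 1 := by
        intro v hv
        exact Finset.card_insert_of_notMem (Finset.mem_sdiff.1 hv).2
      by_cases hc : σ.card + τ.card = K
      · rw [hWX σ τ h (hne σ τ h hc)]
        unfold DD bs
        congr 1
        · refine Finset.sum_congr rfl fun v hv => ?_
          change X0 (insert v σ) τ = X (insert v σ) τ
          rw [hXdef, if_pos (by rw [hc1 v hv]; omega)]
        · refine Finset.sum_congr rfl fun v hv => ?_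
          rw [hXdef, if_pos (by rw [hc2 v hv]; omega)]
      · rw [hW σ τ fun h' => hc h'.2]
        unfold DD bs
        rw [Finset.sum_eq_zero, Finset.sum_eq_zero, add_zero]
        · intro v hv
          rw [hXdef, if_neg (by rw [hc2 v hv]; omega)]
        · intro v hv
          change X (insert v σ) τ = 0
          rw [hXdef, if_neg (by rw [hc1 v hv]; omega)]
    have e1 : ∑ σ, ∑ τ, alt σ τ * W σ τ =
        ∑ σ, ∑ τ, alt σ τ * (if DP G σ τ then DD X σ τ else 0) := by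
      refine Finset.sum_congr rfl fun σ _ => Finset.sum_congr rfl fun τ _ => ?_
      congr 1
      split_ifs with h
      · exact hWD σ τ h
      · exact hW σ τ fun h' => h h'.1
    have e2 : ∑ σ : Finset V, ∑ τ : Finset V, (alt σ τ + alt τ σ) * X σ τ =
        ∑ σ, ∑ τ, alt σ τ * (X σ τ + X τ σ) := by
      simp only [add_mul, mul_add, Finset.sum_add_distrib]
      congr 1
      rw [Finset.sum_comm]
    rw [e1, alt_DD X hXDP, e2]
    refine ih (K + 1) (by omega) (fun σ τ => X σ τ + X τ σ) ?_ ?_ ?_ (by omega)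
    · intro σ τ h
      rw [hXsupp σ τ h, hXsupp τ σ fun h' => h ⟨VVk.dp_symm h'.1, by omega⟩, add_zero]
    · intro σ τ
      exact add_comm _ _
    · intro σ τ h
      have h3 : DD (fun ρ ρ' => X ρ' ρ) σ τ = DD X τ σ := VVk.dd_swap X σ τ
      rw [dd_add X (fun ρ ρ' => X ρ' ρ), h3, ← hWD σ τ h, ← hWD τ σ (VVk.dp_symm h), ← hs σ τ]
      exact CharTwo.add_self_eq_zero _

end SingerRA
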