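import Mathlib
import Pool.Agent.Lib_MP_394d50_gt.Defs
import Pool.Agent.Lib_MP_394d50_gt.DefsS
import Pool.Agent.Lib_MP_394d50_vk.VDefs

/-!
# MP_394d50_gt: the class `Tame3` (used in the statement of the result)
-/

namespace SingerRA

/-- The class `Tame3 n` of flag complexes `L` (given by their graphs). It contains the empty complex
(`n = 0`) and is closed under suspension (`n ↦ n + 1`), edge subdivision and isomorphism. Moreover:

* rule `even`: for even `n + 1` it contains every finite flag complex all of whose vertex links are
  in `Tame3 n`;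
* rule `odd`: for `n = 2m + 1` it contains every `F₂`-homology sphere `L` of dimension `2m` all of
  whose vertex links are in `Tame3 (2m)` and whose vertices can be split in two sets `E`, `O` such that
  the full subcomplex on `E` has a proper colouring with `m + 1` colours, and the vertices
  `o ∈ O` can be ordered (by `ord`) in such a way that the link of `o` contains a set
  `A o` of vertices with the following properties: all the vertices of the link of `o` outside `A o` are
  adjacent to all the vertices of `A o`; the vertices of `A o` which are in `O` come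
  before `o`; the full subcomplex on `A o` is a homology sphere in a class `Tame3 k` with `k` odd.

The order complex of every finite partially ordered set is in the class when it is a homology
sphere (`tame3_comp`): `E` is the set of the elements of even rank, `A o` is the set of the elements
below `o`. -/
inductive Tame3 : ℕ → ∀ {V : Type}, SimpleGraph V → Prop
  | empty {V : Type} (hV : IsEmpty V) (G : SimpleGraph V) : Tame3 0 G
  | susp {n : ℕ} {V : Type} {G : SimpleGraph V} (h : Tame3 n G) : Tame3 (n + 1) (suspG G)
  | subdiv {n : ℕ} {V : Type} {G : SimpleGraph V} (h : Tame3 n G) {s t : V}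
      (hst : G.Adj s t) : Tame3 n (subdivG G s t)
  | even {n : ℕ} (hn : Odd n) {V : Type} (hV : Finite V) (G : SimpleGraph V)
      (h : ∀ v, Tame3 n (nbrG G v)) : Tame3 (n + 1) G
  | odd {m : ℕ} {V : Type} (G : SimpleGraph V) (hS : HS (2 * m + 1) G)
      (hl : ∀ v, Tame3 (2 * m) (nbrG G v)) (E : Set V) (c : V → Fin (m + 1))
      (hc : ∀ u ∈ E, ∀ v ∈ E, G.Adj u v → c u ≠ c v) (ord : V → ℕ) (A : V → Set V) (k : V → ℕ)
      (hk : ∀ o, o ∉ E → Odd (k o)) (hAS : ∀ o, o ∉ E → HS (k o) (G.induce (A o)))
      (hA : ∀ o, o ∉ E → Tame3 (k o) (G.induce (A o)))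
      (hadj : ∀ o, o ∉ E → ∀ a ∈ A o, G.Adj o a)
      (hjoin : ∀ o, o ∉ E → ∀ a ∈ A o, ∀ b, b ∉ A o → G.Adj o b → G.Adj b a)
      (hord : ∀ o, o ∉ E → ∀ a ∈ A o, a ∉ E → ord a < ord o) : Tame3 (2 * m + 1) G
  | iso {n : ℕ} {V V' : Type} {G : SimpleGraph V} {G' : SimpleGraph V'} (h : Tame3 n G)
      (e : G ≃g G') : Tame3 n G'

end SingerRA
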