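import Mathlib
import Pool.Agent.Lib_MP_394d50_vk.VDefs
import Pool.Agent.Lib_MP_394d50_vk.VRow
import Pool.Agent.Lib_MP_394d50_vk.VVk

/-!
Piece VEXT: the van Kampen functional for full subcomplexes of a sphere (about 150-200 lines).

* `exists_order`: extend the linear order of `U` to `V`: choose any linear order on `V`
  (`linearOrderOfSTO WellOrderingRel` or via `Fintype.equivFin`) and pull back the lexicographic sum
  `U ⊕ₗ V` (`Sum.Lex.linearOrder`) along the injective map `v ↦ inlₗ u` if `v = f u`, `inrₗ v` if `v ∉ range f`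
  (`LinearOrder.lift'`).
* `vk_comap`: let `Z'` be the extension of `Z` by zero: `Z' σ τ = Z σ₀ τ₀` if `σ = σ₀.map f`,
  `τ = τ₀.map f` and `0` otherwise. Apply `vk` to `G`, `n = 2 * m + 1`, `K = 2 * m + 2`, `W = Z'`, with the
  order of `exists_order`, `hac` from `HomSphere.acyc` (`σ = ∅`), `hdim` from `HomSphere.dim`.
  Support: `σ₀.map f` is a clique of `G` iff `σ₀` is a clique of `G.comap f`. `DD Z' σ τ` for a pair in
  `V`: if `σ`, `τ` are both images it is `DD Z σ₀ τ₀` (only the `v` in the range of `f` contribute); if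
  `σ` is not an image then no `insert v σ` is one, so everything vanishes; same for `τ`. The sum:
  `Alt (σ₀.map f) (τ₀.map f) ↔ Alt σ₀ τ₀` because `f` is strictly monotone (`Finset.filter_map`, `card_map`).
  The instance of `DecidableEq V` coming from the new order may differ from others: `HS` quantifies
  over all instances.
-/

namespace SingerRA

theorem exists_order {U V : Type} [LinearOrder U] [Finite V] (f : U ↪ V) :
    ∃ L : LinearOrder V, ∀ u v : U, L.lt (f u) (f v) ↔ u < v := by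
  classical
  have := Fintype.ofFinite V
  let L0 : LinearOrder V := LinearOrder.lift' (Fintype.equivFin V) (Fintype.equivFin V).injective
  let g : V → U ⊕ₗ V := fun v =>
    if h : ∃ u, f u = v then toLex (Sum.inl h.choose) else toLex (Sum.inr v)
  have hgf : ∀ u, g (f u) = toLex (Sum.inl u) := by
    intro u
    have h : ∃ u', f u' = f u := ⟨u, rfl⟩
    have h1 : g (f u) = toLex (Sum.inl h.choose) := dif_pos h
    rw [h1, f.injective h.choose_spec]
  have hg : Function.Injective g := by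
    intro a b hab
    by_cases ha : ∃ u, f u = a
    · obtain ⟨u, rfl⟩ := ha
      by_cases hb : ∃ u, f u = b
      · obtain ⟨u', rfl⟩ := hb
        rw [hgf, hgf] at hab
        rw [Sum.inl.inj (toLex.injective hab)]
      · have h2 : g b = toLex (Sum.inr b) := dif_neg hb
        rw [hgf, h2] at hab
        exact absurd (toLex.injective hab) (by simp)
    · have h1 : g a = toLex (Sum.inr a) := dif_neg ha
      by_cases hb : ∃ u, f u = b
      · obtain ⟨u', rfl⟩ := hb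
        rw [hgf, h1] at hab
        exact absurd (toLex.injective hab) (by simp)
      · have h2 : g b = toLex (Sum.inr b) := dif_neg hb
        rw [h1, h2] at hab
        exact Sum.inr.inj (toLex.injective hab)
  refine ⟨LinearOrder.lift' g hg, fun u v => ?_⟩
  change g (f u) < g (f v) ↔ u < v
  rw [hgf, hgf, Sum.Lex.inl_lt_inl_iff]

namespace VExt

lemma im_subset {U V : Type} (f : U ↪ V) {σ ρ : Finset V} (h : σ ⊆ ρ)
    (hρ : ∃ ρ₀ : Finset U, ρ₀.map f = ρ) : ∃ σ₀ : Finset U, σ₀.map f = σ := by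
  obtain ⟨ρ₀, rfl⟩ := hρ
  obtain ⟨u, _, hu⟩ := Finset.subset_map_iff.1 h
  exact ⟨u, hu.symm⟩

lemma bs_map {U V : Type} [Fintype U] [DecidableEq U] [Fintype V] [DecidableEq V] (f : U ↪ V)
    (h : Finset V → ZMod 2) (h₀ : Finset U → ZMod 2)
    (hz : ∀ σ, (¬ ∃ σ₀ : Finset U, σ₀.map f = σ) → h σ = 0)
    (heq : ∀ σ₀ : Finset U, h (σ₀.map f) = h₀ σ₀) (σ₀ : Finset U) :
    bs h (σ₀.map f) = bs h₀ σ₀ := by
  unfold bs
  symm
  refine Finset.sum_of_injOn f f.injective.injOn ?_ ?_ ?_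
  · intro u hu
    simp only [Finset.coe_sdiff, Finset.coe_univ, Set.mem_sdiff, Set.mem_univ, true_and,
      Finset.mem_coe] at hu ⊢
    simpa using hu
  · intro v hv hv'
    apply hz
    intro h1
    obtain ⟨w, hw⟩ := im_subset f (σ := {v}) (ρ := insert v (σ₀.map f)) (by simp) h1
    have h2 : v ∈ w.map f := by rw [hw]; simp
    obtain ⟨u, _, rfl⟩ := Finset.mem_map.1 h2
    apply hv'
    refine ⟨u, ?_, rfl⟩
    simpa using hv
  · intro u _
    rw [← heq, Finset.map_insert]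

lemma bs_off {U V : Type} [Fintype V] [DecidableEq V] (f : U ↪ V)
    (h : Finset V → ZMod 2) (hz : ∀ σ, (¬ ∃ σ₀ : Finset U, σ₀.map f = σ) → h σ = 0)
    {σ : Finset V} (hσ : ¬ ∃ σ₀ : Finset U, σ₀.map f = σ) : bs h σ = 0 := by
  unfold bs
  refine Finset.sum_eq_zero fun v _ => hz _ fun h1 => hσ ?_
  exact im_subset f (Finset.subset_insert _ _) h1

lemma cliq_map {U V : Type} {G : SimpleGraph V} (f : U ↪ V) (σ₀ : Finset U) :
    σ₀.map f ∈ cliq G ↔ σ₀ ∈ cliq (G.comap f) := by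
  change G.IsClique _ ↔ (G.comap f).IsClique _
  rw [SimpleGraph.isClique_iff, SimpleGraph.isClique_iff, Finset.coe_map]
  constructor
  · intro h u hu v hv huv
    exact h ⟨u, hu, rfl⟩ ⟨v, hv, rfl⟩ fun h' => huv (f.injective h')
  · rintro h _ ⟨u, hu, rfl⟩ _ ⟨v, hv, rfl⟩ huv
    exact h hu hv fun h' => huv (by rw [h'])

lemma dp_map {U V : Type} {G : SimpleGraph V} (f : U ↪ V) (σ₀ τ₀ : Finset U) :
    DP G (σ₀.map f) (τ₀.map f) ↔ DP (G.comap f) σ₀ τ₀ := by
  unfold DP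
  rw [cliq_map, cliq_map, Finset.disjoint_map]

lemma alt_map {U V : Type} [LinearOrder U] [LinearOrder V] (f : U ↪ V)
    (hf : ∀ u v : U, f u < f v ↔ u < v) (σ₀ τ₀ : Finset U) :
    alt (σ₀.map f) (τ₀.map f) = alt σ₀ τ₀ := by
  have hc : ∀ (ρ : Finset U) (u : U), ((ρ.map f).filter (· < f u)).card =
      (ρ.filter (· < u)).card := by
    intro ρ u
    rw [Finset.filter_map, Finset.card_map]
    congr 1
    apply Finset.filter_congr
    intro v _
    exact hf v u
  have h : Alt (σ₀.map f) (τ₀.map f) ↔ Alt σ₀ τ₀ := by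
    unfold Alt
    constructor
    · rintro ⟨h1, h2⟩
      refine ⟨fun x hx => ?_, fun x hx => ?_⟩
      · have := h1 (f x) (Finset.mem_map_of_mem f hx)
        rwa [hc, hc] at this
      · have := h2 (f x) (Finset.mem_map_of_mem f hx)
        rwa [hc, hc] at this
    · rintro ⟨h1, h2⟩
      refine ⟨fun x hx => ?_, fun x hx => ?_⟩
      · obtain ⟨u, hu, rfl⟩ := Finset.mem_map.1 hx
        rw [hc, hc]
        exact h1 u hu
      · obtain ⟨u, hu, rfl⟩ := Finset.mem_map.1 hx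
        rw [hc, hc]
        exact h2 u hu
  unfold alt
  by_cases h1 : Alt σ₀ τ₀
  · rw [if_pos h1, if_pos (h.2 h1)]
  · rw [if_neg h1, if_neg fun h2 => h1 (h.1 h2)]

end VExt

open VExt in
theorem vk_comap {V : Type} {G : SimpleGraph V} (m : ℕ) (hS : HS (2 * m + 1) G) {U : Type}
    [Fintype U] [LinearOrder U] (f : U ↪ V) (Z : Finset U → Finset U → ZMod 2)
    (h0 : ∀ σ τ, ¬ (DP (G.comap f) σ τ ∧ σ.card + τ.card = 2 * m + 2) → Z σ τ = 0)
    (hs : ∀ σ τ, Z σ τ = Z τ σ) (hD : ∀ σ τ, DP (G.comap f) σ τ → DD Z σ τ = 0) :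
    ∑ σ, ∑ τ, alt σ τ * Z σ τ = 0 := by
  classical
  obtain ⟨hfin, hS'⟩ := hS
  have hft : Fintype V := Fintype.ofFinite V
  obtain ⟨L, hL⟩ := exists_order f
  let _ : LinearOrder V := L
  have hSph : HomSphere (2 * m + 1) G := hS' _ _
  -- the extension by zero
  let pre : Finset V → Finset U := fun σ => Finset.univ.filter fun u => f u ∈ σ
  have hpre : ∀ σ₀ : Finset U, pre (σ₀.map f) = σ₀ := by
    intro σ₀
    ext u
    simp [pre]
  let Z' : Finset V → Finset V → ZMod 2 := fun σ τ =>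
    if (∃ σ₀ : Finset U, σ₀.map f = σ) ∧ ∃ τ₀ : Finset U, τ₀.map f = τ then Z (pre σ) (pre τ) else 0
  have hZmap : ∀ σ₀ τ₀ : Finset U, Z' (σ₀.map f) (τ₀.map f) = Z σ₀ τ₀ := by
    intro σ₀ τ₀
    have : Z' (σ₀.map f) (τ₀.map f) = Z (pre (σ₀.map f)) (pre (τ₀.map f)) :=
      if_pos ⟨⟨σ₀, rfl⟩, ⟨τ₀, rfl⟩⟩
    rw [this, hpre, hpre]
  have hZ1 : ∀ σ τ, (¬ ∃ σ₀ : Finset U, σ₀.map f = σ) → Z' σ τ = 0 := fun σ τ h =>
    if_neg fun h' => h h'.1
  have hZ2 : ∀ σ τ, (¬ ∃ τ₀ : Finset U, τ₀.map f = τ) → Z' σ τ = 0 := fun σ τ h =>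
    if_neg fun h' => h h'.2
  have key := vk (G := G) (2 * m + 1) (2 * m + 2) (fun σ hσ => hSph.dim σ hσ) (by omega)
    (fun σ hσ hne => hSph.acyc σ hne ∅ (by rwa [Finset.empty_union]) (Finset.disjoint_empty_left _))
    Z' ?_ ?_ ?_
  · rw [← key]
    refine Fintype.sum_of_injective (fun σ₀ : Finset U => σ₀.map f)
      (Finset.map_injective f) _ _ ?_ ?_
    · intro σ hσ
      refine Finset.sum_eq_zero fun τ _ => ?_
      rw [hZ1 σ τ fun ⟨σ₀, h⟩ => hσ ⟨σ₀, h⟩, mul_zero]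
    · intro σ₀
      refine Fintype.sum_of_injective (fun τ₀ : Finset U => τ₀.map f)
        (Finset.map_injective f) _ _ ?_ ?_
      · intro τ hτ
        rw [hZ2 _ τ fun ⟨τ₀, h⟩ => hτ ⟨τ₀, h⟩, mul_zero]
      · intro τ₀
        rw [hZmap, alt_map f hL]
  · intro σ τ h
    by_cases h1 : ∃ σ₀ : Finset U, σ₀.map f = σ
    · by_cases h2 : ∃ τ₀ : Finset U, τ₀.map f = τ
      · obtain ⟨σ₀, rfl⟩ := h1
        obtain ⟨τ₀, rfl⟩ := h2
        rw [hZmap]
        apply h0
        rw [← dp_map f]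
        rwa [Finset.card_map, Finset.card_map] at h
      · exact hZ2 _ _ h2
    · exact hZ1 _ _ h1
  · intro σ τ
    by_cases h1 : ∃ σ₀ : Finset U, σ₀.map f = σ
    · by_cases h2 : ∃ τ₀ : Finset U, τ₀.map f = τ
      · obtain ⟨σ₀, rfl⟩ := h1
        obtain ⟨τ₀, rfl⟩ := h2
        rw [hZmap, hZmap, hs]
      · rw [hZ2 _ _ h2, hZ1 _ _ h2]
    · rw [hZ1 _ _ h1, hZ2 _ _ h1]
  · intro σ τ h
    by_cases h1 : ∃ σ₀ : Finset U, σ₀.map f = σ
    · by_cases h2 : ∃ τ₀ : Finset U, τ₀.map f = τ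
      · obtain ⟨σ₀, rfl⟩ := h1
        obtain ⟨τ₀, rfl⟩ := h2
        rw [dp_map] at h
        rw [← hD σ₀ τ₀ h]
        unfold DD
        congr 1
        · exact bs_map f _ (fun ρ => Z ρ τ₀) (fun ρ hρ => hZ1 _ _ hρ) (fun ρ₀ => hZmap ρ₀ τ₀) σ₀
        · exact bs_map f _ (Z σ₀) (fun ρ hρ => hZ2 _ _ hρ) (fun ρ₀ => hZmap σ₀ ρ₀) τ₀
      · unfold DD
        rw [bs_off f _ (fun ρ hρ => hZ2 _ _ hρ) h2, add_zero]
        unfold bs
        exact Finset.sum_eq_zero fun v _ => hZ2 _ _ h2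
    · unfold DD
      rw [bs_off f _ (fun ρ hρ => hZ1 _ _ hρ) h1, zero_add]
      unfold bs
      exact Finset.sum_eq_zero fun v _ => hZ1 _ _ h1

end SingerRA
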