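import Mathlib
import Pool.Agent.Lib_MP_394d50_vk.VDefs

/-!
Piece VFUNA: the stress equations for the function `asFun c α` on `Fin r → V` (about 100-140 lines). Here `c` is a
proper colouring with `r` colours and `α` is a generic stress in degree `r`.

Fix `i` and `F`. If some `j ≠ i` has `c (F j) ≠ j`, all the terms vanish. Otherwise
let `τ = (univ.erase i).image F` (the `F j`, `j ≠ i`, have different colours, so `τ.card + 1 = r`). For `x` with
`c x = i`: `x ∉ τ` and `univ.image (update F i x) = insert x τ`. If `τ` is not a clique, all the terms
vanish. If it is, `∑_x asFun (update F i x) = ∑_{x ∉ τ} α (insert x τ)`: for `x ∉ τ` with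
`α (insert x τ) ≠ 0` the colour of `x` is different from all `j ≠ i` (`x` is adjacent to `F j`), so it is
`i`. Same with the weights `X x`.
-/

namespace SingerRA

variable {V : Type} [Fintype V] [DecidableEq V] {G : SimpleGraph V} {r : ℕ} {c : V → Fin r}
  {α : Finset V → MvPolynomial V (ZMod 2)}

theorem asFun_weighted (hc : ∀ u v, G.Adj u v → c u ≠ c v) (hα : GStress G r α)
    (w : V → MvPolynomial V (ZMod 2))
    (hw : ∀ τ ∈ cliq G, τ.card + 1 = r → ∑ v ∈ Finset.univ \ τ, w v * α (insert v τ) = 0)
    (i : Fin r) (F : Fin r → V) : ∑ x, w x * asFun c α (Function.update F i x) = 0 := by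
  classical
  by_cases h : ∀ j, j ≠ i → c (F j) = j
  · set τ : Finset V := (Finset.univ.erase i).image F with hτ
    have hinj : Set.InjOn F ((Finset.univ.erase i : Finset (Fin r)) : Set (Fin r)) := by
      intro j hj k hk hjk
      rw [Finset.mem_coe, Finset.mem_erase] at hj hk
      rw [← h j hj.1, ← h k hk.1, hjk]
    have hcard : τ.card + 1 = r := by
      rw [hτ, Finset.card_image_of_injOn hinj, Finset.card_erase_of_mem (Finset.mem_univ i),
        Finset.card_univ, Fintype.card_fin]
      have := i.pos
      omega
    have himg : ∀ x, Finset.univ.image (Function.update F i x) = insert x τ := by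
      intro x
      rw [← Finset.insert_erase (Finset.mem_univ i), Finset.image_insert, Function.update_self, hτ]
      congr 1
      apply Finset.image_congr
      intro j hj
      rw [Finset.mem_coe, Finset.mem_erase] at hj
      exact Function.update_of_ne hj.1 x F
    have hval : ∀ x, asFun c α (Function.update F i x) =
        if c x = i then α (insert x τ) else 0 := by
      intro x
      have himg' : ∀ (T : Finset V) (_ : insert x τ = T) (inst : DecidableEq V),
          @Finset.image _ _ inst (Function.update F i x) Finset.univ = T := by
        intro T hT inst
        rw [← hT, ← himg x]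
        ext y
        simp only [Finset.mem_image]
      unfold asFun
      rw [himg' (insert x τ) rfl]
      by_cases hx : c x = i
      · rw [if_pos hx, if_pos]
        intro j
        by_cases hj : j = i
        · rw [hj, Function.update_self, hx]
        · rw [Function.update_of_ne hj, h j hj]
      · rw [if_neg hx, if_neg]
        intro hall
        have := hall i
        rw [Function.update_self] at this
        exact hx this
    simp only [hval]
    have hmem : ∀ x, x ∈ τ → c x ≠ i := by
      intro x hx
      rw [hτ, Finset.mem_image] at hx
      obtain ⟨j, hj, rfl⟩ := hx
      rw [Finset.mem_erase] at hj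
      rw [h j hj.1]
      exact hj.1
    have hsub : ∀ x, insert x τ ∈ cliq G → τ ∈ cliq G := by
      intro x hx
      have hx' : G.IsClique ((insert x τ : Finset V) : Set V) := hx
      show G.IsClique (τ : Set V)
      exact hx'.subset (by
        intro y hy
        exact Finset.mem_coe.2 (Finset.mem_insert_of_mem (Finset.mem_coe.1 hy)))
    by_cases hcl : τ ∈ cliq G
    · have key := hw τ hcl hcard
      have hsum : ∑ x, w x * (if c x = i then α (insert x τ) else 0) =
          ∑ x ∈ Finset.univ \ τ, w x * α (insert x τ) := by
        symm
        apply Finset.sum_subset_zero_on_sdiff (Finset.subset_univ _)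
        · intro x hx
          have hxτ : x ∈ τ := by
            by_contra hcon
            rw [Finset.mem_sdiff] at hx
            exact hx.2 (Finset.mem_sdiff.2 ⟨Finset.mem_univ x, hcon⟩)
          rw [if_neg (hmem x hxτ), mul_zero]
        · intro x hx
          have hxτ : x ∉ τ := (Finset.mem_sdiff.1 hx).2
          by_cases hxi : c x = i
          · rw [if_pos hxi]
          · rw [if_neg hxi]
            have : α (insert x τ) = 0 := by
              by_contra hne
              have hs : insert x τ ∈ cliq G ∧ (insert x τ).card = r := by
                by_contra hcon
                exact hne (hα.supp _ hcon)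
              have hs' : G.IsClique ((insert x τ : Finset V) : Set V) := hs.1
              apply hxi
              by_contra hxi'
              have hj : F (c x) ∈ τ := by
                rw [hτ, Finset.mem_image]
                exact ⟨c x, Finset.mem_erase.2 ⟨hxi', Finset.mem_univ _⟩, rfl⟩
              have hadj : G.Adj x (F (c x)) := by
                apply hs'
                · exact Finset.mem_coe.2 (Finset.mem_insert_self x τ)
                · exact Finset.mem_coe.2 (Finset.mem_insert_of_mem hj)
                · intro he
                  exact hxτ (he ▸ hj)
              exact hc _ _ hadj (h (c x) hxi').symm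
            rw [this]
      rw [hsum]
      exact key
    · apply Finset.sum_eq_zero
      intro x _
      have : α (insert x τ) = 0 := by
        by_contra hne
        have hs : insert x τ ∈ cliq G ∧ (insert x τ).card = r := by
          by_contra hcon
          exact hne (hα.supp _ hcon)
        exact hcl (hsub x hs.1)
      rw [this]
      simp
  · push Not at h
    obtain ⟨j, hj, hcj⟩ := h
    apply Finset.sum_eq_zero
    intro x _
    have : asFun c α (Function.update F i x) = 0 := by
      unfold asFun
      rw [if_neg]
      intro hall
      have := hall j
      rw [Function.update_of_ne hj] at this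
      exact hcj this
    rw [this, mul_zero]

theorem asFun_stress (hc : ∀ u v, G.Adj u v → c u ≠ c v) (hα : GStress G r α) :
    Stress (fun v => (MvPolynomial.X v : MvPolynomial V (ZMod 2))) r (asFun c α) := by
  constructor
  · intro i F
    have := asFun_weighted hc hα (fun _ => 1)
      (fun τ hτ hr => by
        simp only [one_mul]
        exact hα.sum τ hτ hr) i F
    simpa using this
  · intro i F
    exact asFun_weighted hc hα (fun v => MvPolynomial.X v) hα.wsum i F

end SingerRA
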