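import Mathlib
import Pool.Agent.Lib_MP_394d50_vk.VDefs

/-!
Piece VFUNB: translation between finite sets and functions `Fin r → V` (about 150-200 lines). Here `c` is a
proper colouring with `r` colours, `α` is a generic stress in degree `r`, and (in `alt_asFun`) the linear
order of `V` refines the order of the colours.

* `alt_iff`: for `F`, `G` with `c (F i) = i = c (G i)`: `Alt (univ.image F) (univ.image G) ↔ ∀ i, F i < G i`.
  Indeed `F j < F i ↔ j < i`, `G j < F i ↔ j < i ∨ (j = i ∧ G i < F i)`, so the first condition at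
  `F i` says `¬ G i < F i`, and the second at `G i` says `F i < G i`.
* `sum_eq`: a set `σ` with `α σ ≠ 0` is a clique with `r` vertices, hence has exactly one vertex of every colour,
  so `σ = univ.image F` for a unique `F` with `c (F i) = i` for all `i`; then `Lc c i σ = X (F i)`. So the
  sums over the pairs `(σ, τ)` and over the pairs `(F, G)` are equal. It is convenient to prove first:
  `∑ σ, g σ = ∑ F, if ∀ i, c (F i) = i then g (univ.image F) else 0` for every `g : Finset V → M` which
  vanishes at the sets which are not cliques with `r` vertices (`Finset.sum_bij_ne_zero` or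
  `Finset.sum_nbij'` after restricting to the nonzero terms).
-/

namespace SingerRA

section

variable {V : Type} {r : ℕ} {c : V → Fin r}

private theorem vfb_inj {F : Fin r → V} (hF : ∀ i, c (F i) = i) : Function.Injective F := by
  intro i j h
  have := congrArg c h
  rwa [hF, hF] at this

/-- A clique with `r` vertices is the image of a section of the colouring. -/
private theorem vfb_surj [DecidableEq V] {G : SimpleGraph V}
    (hc : ∀ u v, G.Adj u v → c u ≠ c v) {σ : Finset V} (h1 : σ ∈ cliq G) (h2 : σ.card = r) :
    ∃ F : Fin r → V, (∀ i, c (F i) = i) ∧ Finset.univ.image F = σ := by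
  have hinj : Set.InjOn c (σ : Set V) := by
    intro u hu v hv huv
    by_contra hne
    exact hc u v (h1 hu hv hne) huv
  have h3 : σ.image c = Finset.univ := by
    apply Finset.eq_univ_of_card
    rw [Finset.card_image_of_injOn hinj, h2, Fintype.card_fin]
  have h4 : ∀ i, ∃ v ∈ σ, c v = i := by
    intro i
    have : i ∈ σ.image c := by rw [h3]; exact Finset.mem_univ _
    rw [Finset.mem_image] at this
    exact this
  choose F hF1 hF2 using h4
  refine ⟨F, hF2, ?_⟩
  apply Finset.eq_of_subset_of_card_le
  · intro v hv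
    rw [Finset.mem_image] at hv
    obtain ⟨i, _, rfl⟩ := hv
    exact hF1 i
  · rw [Finset.card_image_of_injective _ (vfb_inj hF2), h2, Finset.card_univ, Fintype.card_fin]

open scoped Classical in
private theorem vfb_sum [Fintype V] [DecidableEq V] {G : SimpleGraph V}
    (hc : ∀ u v, G.Adj u v → c u ≠ c v) {M : Type*} [AddCommMonoid M] (g : Finset V → M)
    (hg : ∀ σ, ¬ (σ ∈ cliq G ∧ σ.card = r) → g σ = 0) :
    ∑ σ, g σ = ∑ F : Fin r → V, if ∀ i, c (F i) = i then g (Finset.univ.image F) else 0 := by
  rw [← Finset.sum_filter]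
  have hi : Set.InjOn (fun F : Fin r → V => Finset.univ.image F)
      ((Finset.univ.filter fun F : Fin r → V => ∀ i, c (F i) = i : Finset (Fin r → V)) :
        Set (Fin r → V)) := by
    intro F hF F' hF' h
    simp only [Finset.coe_filter, Finset.mem_univ, true_and, Set.mem_setOf_eq] at hF hF'
    funext i
    have h1 : F i ∈ Finset.univ.image F' := by
      simp only at h
      rw [← h]
      exact Finset.mem_image_of_mem F (Finset.mem_univ i)
    rw [Finset.mem_image] at h1
    obtain ⟨j, _, hj⟩ := h1
    have h2 := congrArg c hj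
    rw [hF, hF'] at h2
    rw [← hj, h2]
  rw [← Finset.sum_image (f := g) hi]
  symm
  apply Finset.sum_subset (Finset.subset_univ _)
  intro σ _ hσ
  apply hg
  rintro ⟨h1, h2⟩
  apply hσ
  obtain ⟨F, hF, hFσ⟩ := vfb_surj hc h1 h2
  rw [Finset.mem_image]
  exact ⟨F, by simpa using hF, hFσ⟩

private theorem vfb_asFun [DecidableEq V] (α : Finset V → MvPolynomial V (ZMod 2))
    {F : Fin r → V} (hF : ∀ i, c (F i) = i) :
    asFun c α F = α (Finset.univ.image F) := by
  unfold asFun
  rw [if_pos hF]
  refine congrArg α ?_
  ext v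
  simp only [Finset.mem_image]

private theorem vfb_asFun_neg (α : Finset V → MvPolynomial V (ZMod 2))
    {F : Fin r → V} (hF : ¬ ∀ i, c (F i) = i) : asFun c α F = 0 := by
  unfold asFun
  rw [if_neg hF]

private theorem vfb_Lc [DecidableEq V] {F : Fin r → V} (hF : ∀ i, c (F i) = i) (i : Fin r) :
    Lc c i (Finset.univ.image F) = MvPolynomial.X (F i) := by
  unfold Lc
  have : (Finset.univ.image F).filter (fun v => c v = i) = {F i} := by
    ext v
    simp only [Finset.mem_filter, Finset.mem_image, Finset.mem_univ, true_and,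
      Finset.mem_singleton]
    constructor
    · rintro ⟨⟨j, rfl⟩, h⟩
      rw [hF] at h
      rw [h]
    · rintro rfl
      exact ⟨⟨i, rfl⟩, hF i⟩
  rw [this, Finset.sum_singleton]

end

section

variable {V : Type} [LinearOrder V] {r : ℕ} {c : V → Fin r}

private theorem vfb_card {F : Fin r → V} (hF : ∀ i, c (F i) = i) (x : V) :
    ((Finset.univ.image F).filter (· < x)).card
      = (Finset.univ.filter (fun j : Fin r => F j < x)).card := by
  rw [Finset.filter_image, Finset.card_image_of_injective _ (vfb_inj hF)]

/-- The number of `F j` below `G i`. -/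
private theorem vfb_count (ho : ∀ u v, c u < c v → u < v) {F G : Fin r → V}
    (hF : ∀ i, c (F i) = i) (hG : ∀ i, c (G i) = i) (i : Fin r) :
    ((Finset.univ.image F).filter (· < G i)).card = (i : ℕ) + if F i < G i then 1 else 0 := by
  rw [vfb_card hF]
  split_ifs with h
  · have : (Finset.univ.filter (fun j : Fin r => F j < G i)) = Finset.Iic i := by
      ext j
      simp only [Finset.mem_filter, Finset.mem_univ, true_and, Finset.mem_Iic]
      constructor
      · intro hj
        by_contra hij
        push Not at hij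
        have := ho (G i) (F j) (by rw [hF, hG]; exact hij)
        exact absurd hj (not_lt.mpr this.le)
      · intro hj
        rcases hj.lt_or_eq with h1 | h1
        · exact ho _ _ (by rw [hF, hG]; exact h1)
        · rw [h1]; exact h
    rw [this, Fin.card_Iic]
  · have : (Finset.univ.filter (fun j : Fin r => F j < G i)) = Finset.Iio i := by
      ext j
      simp only [Finset.mem_filter, Finset.mem_univ, true_and, Finset.mem_Iio]
      constructor
      · intro hj
        by_contra hij
        push Not at hij
        rcases hij.lt_or_eq with h1 | h1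
        · have := ho (G i) (F j) (by rw [hF, hG]; exact h1)
          exact absurd hj (not_lt.mpr this.le)
        · rw [← h1] at hj
          exact h hj
      · intro hj
        exact ho _ _ (by rw [hF, hG]; exact hj)
    rw [this, Fin.card_Iio, add_zero]

private theorem vfb_alt_iff (ho : ∀ u v, c u < c v → u < v) {F G : Fin r → V}
    (hF : ∀ i, c (F i) = i) (hG : ∀ i, c (G i) = i) :
    Alt (Finset.univ.image F) (Finset.univ.image G) ↔ ∀ i, F i < G i := by
  constructor
  · intro h i
    have h1 := h.2 (G i) (Finset.mem_image_of_mem G (Finset.mem_univ i))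
    rw [vfb_count ho hF hG, vfb_count ho hG hG] at h1
    by_contra h2
    rw [if_neg h2, if_neg (lt_irrefl _)] at h1
    omega
  · intro h
    constructor
    · intro x hx
      rw [Finset.mem_image] at hx
      obtain ⟨i, _, rfl⟩ := hx
      rw [vfb_count ho hF hF, vfb_count ho hG hF, if_neg (lt_irrefl _),
        if_neg (not_lt.mpr (h i).le)]
    · intro x hx
      rw [Finset.mem_image] at hx
      obtain ⟨i, _, rfl⟩ := hx
      rw [vfb_count ho hF hG, vfb_count ho hG hG, if_neg (lt_irrefl _), if_pos (h i), add_zero]

end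

variable {V : Type} [Fintype V] [LinearOrder V] {G : SimpleGraph V} {r : ℕ} {c : V → Fin r}
  {α : Finset V → MvPolynomial V (ZMod 2)}

open scoped Classical in
theorem alt_asFun (hc : ∀ u v, G.Adj u v → c u ≠ c v) (ho : ∀ u v, c u < c v → u < v)
    (hα : GStress G r α) :
    ∑ σ, ∑ τ, (if Alt σ τ then ZZ c α σ τ else 0) =
      qf (fun v => (MvPolynomial.X v : MvPolynomial V (ZMod 2))) r (asFun c α) (asFun c α) := by
  unfold qf
  rw [vfb_sum hc]
  swap
  · intro σ hσ
    apply Finset.sum_eq_zero
    intro τ _
    rw [show ZZ c α σ τ = 0 by unfold ZZ; rw [hα.supp σ hσ]; ring]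
    simp
  refine Finset.sum_congr rfl fun F _ => ?_
  by_cases hF : ∀ i, c (F i) = i
  swap
  · rw [if_neg hF]
    symm
    apply Finset.sum_eq_zero
    intro F' _
    rw [vfb_asFun_neg α hF]
    simp
  rw [if_pos hF, vfb_sum hc]
  swap
  · intro τ hτ
    rw [show ∀ σ, ZZ c α σ τ = 0 by intro σ; unfold ZZ; rw [hα.supp τ hτ]; ring]
    simp
  refine Finset.sum_congr rfl fun F' _ => ?_
  by_cases hF' : ∀ i, c (F' i) = i
  swap
  · rw [if_neg hF', vfb_asFun_neg α hF']
    simp
  rw [if_pos hF']
  have h1 := vfb_alt_iff ho hF hF'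
  have h2 : ZZ c α (Finset.univ.image F) (Finset.univ.image F')
      = asFun c α F * asFun c α F' * ∏ i, (MvPolynomial.X (F i) + MvPolynomial.X (F' i)) := by
    unfold ZZ
    rw [vfb_asFun α hF, vfb_asFun α hF']
    congr 1
    refine Finset.prod_congr rfl fun i _ => ?_
    rw [vfb_Lc hF, vfb_Lc hF']
  by_cases h3 : ∀ i, F i < F' i
  · rw [if_pos (h1.mpr h3), if_pos h3, h2]
  · rw [if_neg (fun h => h3 (h1.mp h)), if_neg h3]

theorem asFun_sum (hc : ∀ u v, G.Adj u v → c u ≠ c v) (hα : GStress G r α) :
    ∑ F, asFun c α F ^ 2 * ∏ i, MvPolynomial.X (F i) =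
      ∑ σ, (∏ v ∈ σ, MvPolynomial.X v) * α σ ^ 2 := by
  classical
  rw [vfb_sum hc (fun σ => (∏ v ∈ σ, MvPolynomial.X v) * α σ ^ 2)]
  swap
  · intro σ hσ
    rw [hα.supp σ hσ]
    simp
  refine Finset.sum_congr rfl fun F _ => ?_
  by_cases hF : ∀ i, c (F i) = i
  swap
  · rw [if_neg hF, vfb_asFun_neg α hF]
    simp
  rw [if_pos hF, vfb_asFun α hF, Finset.prod_image (fun i _ j _ h => vfb_inj hF h), mul_comm]

end SingerRA
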