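import Mathlib
import Pool.Agent.Lib_MP_394d50_vk.VDefs
import Pool.Agent.Lib_MP_394d50_vk.VFunA
import Pool.Agent.Lib_MP_394d50_vk.VFunB

/-! VFUN = VFUNA + VFUNB. -/
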