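import Mathlib
import Pool.Agent.Lib_MP_394d50_vk.VDefs

/-!
Piece VQID: the quadratic identity (about 120-160 lines).

* `qf_succ`: `Fin (k+1) → V` is `V × (Fin k → V)` (`Fin.cons`, `Fin.consEquiv`/`Fin.insertNthEquiv`,
  `Fin.forall_fin_succ`, `Fin.prod_univ_succ`).
* `Stress.tail`: for a stress `a` of size `k + 1` and `x : V`, `F ↦ a (Fin.cons x F)` is a stress of size `k`
  (use `Fin.cons_update`).
* `qf_symm_diag`, by induction on `k`, simultaneously: for stresses `a`, `b`, `qf y k a b = qf y k b a`,
  and `qf y k a a = ∑ F, a F ^ 2 * ∏ i, y (F i)`. Put `a_x = fun F => a (Fin.cons x F)` and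
  `Φ = qf y k`, bilinear (linear in each argument: sums and scalars). `k = 0`: `a F * b F`.
  Symmetry: `qf (k+1) a b + qf (k+1) b a = ∑_{x < x'} (y x + y x') (Φ a_x b_x' + Φ b_x a_x')
  = ∑_{x < x'} (y x + y x') (Φ a_x b_x' + Φ a_x' b_x) = ∑_{x, x'} (y x + y x') Φ a_x b_x'` (the diagonal terms
  vanish, characteristic two) `= Φ (∑ y x • a_x) (∑ b_x') + Φ (∑ a_x) (∑ y x' • b_x') = 0` by the relations
  in the direction `i = 0`. Diagonal: `0 = Φ (∑ a_x) (∑ y x' • a_x') = ∑_{x, x'} y x' Φ a_x a_x' =
  ∑_x y x Φ a_x a_x + ∑_{x < x'} (y x' + y x) Φ a_x a_x'` by symmetry, and the last sum is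
  `qf (k+1) a a`; conclude by the induction hypothesis and characteristic two.
-/

namespace SingerRA

variable {V R : Type} [Fintype V] [LinearOrder V] [CommRing R]

namespace QidAux

theorem sum_cons {M : Type} [AddCommMonoid M] (k : ℕ) (f : (Fin (k + 1) → V) → M) :
    ∑ F, f F = ∑ x : V, ∑ F : Fin k → V, f (Fin.cons x F : Fin (k + 1) → V) := by
  rw [← (Fin.consEquiv (fun _ : Fin (k + 1) => V)).sum_comp, Fintype.sum_prod_type]
  rfl

end QidAux

theorem qf_succ (y : V → R) (k : ℕ) (a b : (Fin (k + 1) → V) → R) :
    qf y (k + 1) a b = ∑ x, ∑ x', if x < x' then (y x + y x') *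
      qf y k (fun F => a (Fin.cons x F)) (fun F => b (Fin.cons x' F)) else 0 := by
  rw [qf, QidAux.sum_cons]
  refine Finset.sum_congr rfl fun x _ => ?_
  have h1 : ∀ F : Fin k → V, (∑ G : Fin (k + 1) → V,
      if ∀ i, (Fin.cons x F : Fin (k + 1) → V) i < G i then
        a (Fin.cons x F) * b G * ∏ i, (y ((Fin.cons x F : Fin (k + 1) → V) i) + y (G i)) else 0) =
      ∑ x' : V, ∑ G : Fin k → V, if x < x' then (if ∀ i, F i < G i then (y x + y x') *
        (a (Fin.cons x F) * b (Fin.cons x' G) * ∏ i, (y (F i) + y (G i))) else 0) else 0 := by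
    intro F
    rw [QidAux.sum_cons]
    refine Finset.sum_congr rfl fun x' _ => Finset.sum_congr rfl fun G _ => ?_
    have h2 : (∀ i, (Fin.cons x F : Fin (k + 1) → V) i < (Fin.cons x' G : Fin (k + 1) → V) i) ↔
        x < x' ∧ ∀ i, F i < G i := by
      rw [Fin.forall_fin_succ]
      simp
    have h3 : ∏ i, (y ((Fin.cons x F : Fin (k + 1) → V) i) +
        y ((Fin.cons x' G : Fin (k + 1) → V) i)) =
        (y x + y x') * ∏ i, (y (F i) + y (G i)) := by
      rw [Fin.prod_univ_succ]
      simp
    rw [h3]
    by_cases hx : x < x'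
    · by_cases hF : ∀ i, F i < G i
      · rw [if_pos (h2.mpr ⟨hx, hF⟩), if_pos hx, if_pos hF]
        ring
      · rw [if_neg (fun h => hF (h2.mp h).2), if_pos hx, if_neg hF]
    · rw [if_neg (fun h => hx (h2.mp h).1), if_neg hx]
  rw [Finset.sum_congr rfl fun F _ => h1 F, Finset.sum_comm]
  refine Finset.sum_congr rfl fun x' _ => ?_
  by_cases hx : x < x'
  · simp only [if_pos hx]
    rw [qf, Finset.mul_sum]
    refine Finset.sum_congr rfl fun F _ => ?_
    rw [Finset.mul_sum]
    refine Finset.sum_congr rfl fun G _ => ?_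
    by_cases hF : ∀ i, F i < G i
    · rw [if_pos hF, if_pos hF]
    · rw [if_neg hF, if_neg hF, mul_zero]
  · simp only [if_neg hx]
    simp

theorem Stress.tail {y : V → R} {k : ℕ} {a : (Fin (k + 1) → V) → R} (h : Stress y (k + 1) a)
    (x : V) : Stress y k (fun F => a (Fin.cons x F)) := by
  refine ⟨fun i F => ?_, fun i F => ?_⟩
  · have h1 := h.1 i.succ (Fin.cons x F)
    rw [← h1]
    refine Finset.sum_congr rfl fun z _ => ?_
    simp only [Fin.cons_update]
  · have h1 := h.2 i.succ (Fin.cons x F)
    rw [← h1]
    refine Finset.sum_congr rfl fun z _ => ?_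
    simp only [Fin.cons_update]

namespace QidAux

theorem head {y : V → R} {k : ℕ} {a : (Fin (k + 1) → V) → R} (h : Stress y (k + 1) a)
    (F : Fin k → V) : ∑ x, a (Fin.cons x F) = 0 ∧ ∑ x, y x * a (Fin.cons x F) = 0 := by
  rcases isEmpty_or_nonempty V with hV | ⟨⟨x0⟩⟩
  · simp
  · have h1 := h.1 0 (Fin.cons x0 F)
    have h2 := h.2 0 (Fin.cons x0 F)
    constructor
    · rw [← h1]
      refine Finset.sum_congr rfl fun z _ => ?_
      rw [Fin.update_cons_zero]
    · rw [← h2]
      refine Finset.sum_congr rfl fun z _ => ?_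
      rw [Fin.update_cons_zero]

theorem sum_left (y : V → R) (k : ℕ) (s : V → R) (a : V → (Fin k → V) → R)
    (b : (Fin k → V) → R) :
    ∑ x, s x * qf y k (a x) b = qf y k (fun F => ∑ x, s x * a x F) b := by
  unfold qf
  simp_rw [Finset.mul_sum]
  rw [Finset.sum_comm]
  refine Finset.sum_congr rfl fun F _ => ?_
  rw [Finset.sum_comm]
  refine Finset.sum_congr rfl fun G _ => ?_
  split_ifs
  · rw [Finset.sum_mul, Finset.sum_mul]
    refine Finset.sum_congr rfl fun x _ => ?_
    ring
  · simp

theorem sum_right (y : V → R) (k : ℕ) (s : V → R) (a : (Fin k → V) → R)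
    (b : V → (Fin k → V) → R) :
    ∑ x, s x * qf y k a (b x) = qf y k a (fun F => ∑ x, s x * b x F) := by
  unfold qf
  simp_rw [Finset.mul_sum]
  rw [Finset.sum_comm]
  refine Finset.sum_congr rfl fun F _ => ?_
  rw [Finset.sum_comm]
  refine Finset.sum_congr rfl fun G _ => ?_
  split_ifs
  · rw [Finset.sum_mul]
    refine Finset.sum_congr rfl fun x _ => ?_
    ring
  · simp

theorem zero_left (y : V → R) (k : ℕ) (b : (Fin k → V) → R) : qf y k (fun _ => 0) b = 0 := by
  simp [qf]

theorem zero_right (y : V → R) (k : ℕ) (a : (Fin k → V) → R) : qf y k a (fun _ => 0) = 0 := by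
  simp [qf]

theorem tri (f : V → V → R) : ∑ x, ∑ x', f x x' =
    ∑ x, f x x + ∑ x, ∑ x', (if x < x' then f x x' + f x' x else 0) := by
  have h1 : ∀ x x', f x x' = (if x = x' then f x x' else 0) + (if x < x' then f x x' else 0) +
      (if x' < x then f x x' else 0) := by
    intro x x'
    rcases lt_trichotomy x x' with h | h | h
    · rw [if_neg h.ne, if_pos h, if_neg h.le.not_gt]
      ring
    · rw [if_pos h, if_neg (by rw [h]; exact lt_irrefl _), if_neg (by rw [h]; exact lt_irrefl _)]
      ring
    · rw [if_neg h.ne', if_neg h.le.not_gt, if_pos h]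
      ring
  have h2 : ∀ x x', (if x < x' then f x x' + f x' x else 0) =
      (if x < x' then f x x' else 0) + (if x < x' then f x' x else 0) := by
    intro x x'
    split_ifs <;> ring
  have h3 : ∑ x, ∑ x', (if x < x' then f x' x else 0) = ∑ x, ∑ x', (if x' < x then f x x' else 0) :=
    Finset.sum_comm
  calc ∑ x, ∑ x', f x x' = ∑ x, ∑ x', ((if x = x' then f x x' else 0) +
        (if x < x' then f x x' else 0) + (if x' < x then f x x' else 0)) :=
        Finset.sum_congr rfl fun x _ => Finset.sum_congr rfl fun x' _ => h1 x x'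
    _ = _ := by
        simp_rw [h2, Finset.sum_add_distrib]
        rw [h3, add_assoc]
        congr 1
        refine Finset.sum_congr rfl fun x _ => ?_
        simp

end QidAux

theorem qf_symm_diag [CharP R 2] (y : V → R) (k : ℕ) :
    (∀ a b, Stress y k a → Stress y k b → qf y k a b = qf y k b a) ∧
    (∀ a, Stress y k a → qf y k a a = ∑ F, a F ^ 2 * ∏ i, y (F i)) := by
  induction k with
  | zero =>
    constructor
    · intro a b _ _
      unfold qf
      simp
      ring
    · intro a _
      unfold qf
      simp
      ring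
  | succ k ih =>
    obtain ⟨ihs, ihd⟩ := ih
    constructor
    · intro a b ha hb
      have key : qf y (k + 1) a b + qf y (k + 1) b a = 0 := by
        have h1 : qf y (k + 1) a b + qf y (k + 1) b a = ∑ x, ∑ x',
            (if x < x' then (y x + y x') * qf y k (fun F => a (Fin.cons x F))
              (fun F => b (Fin.cons x' F)) + (y x' + y x) * qf y k (fun F => a (Fin.cons x' F))
              (fun F => b (Fin.cons x F)) else 0) := by
          rw [qf_succ, qf_succ, ← Finset.sum_add_distrib]
          refine Finset.sum_congr rfl fun x _ => ?_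
          rw [← Finset.sum_add_distrib]
          refine Finset.sum_congr rfl fun x' _ => ?_
          rw [ihs _ _ (hb.tail x) (ha.tail x')]
          split_ifs
          · ring
          · ring
        have h2 := QidAux.tri (fun x x' => (y x + y x') * qf y k (fun F => a (Fin.cons x F))
              (fun F => b (Fin.cons x' F)))
        have h3 : ∑ x, (y x + y x) * qf y k (fun F => a (Fin.cons x F))
              (fun F => b (Fin.cons x F)) = 0 := by
          refine Finset.sum_eq_zero fun x _ => ?_
          rw [CharTwo.add_self_eq_zero, zero_mul]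
        rw [h3, zero_add, ← h1] at h2
        rw [← h2]
        have h4 : ∀ x x', (y x + y x') * qf y k (fun F => a (Fin.cons x F))
              (fun F => b (Fin.cons x' F)) = y x * qf y k (fun F => a (Fin.cons x F))
              (fun F => b (Fin.cons x' F)) + y x' * qf y k (fun F => a (Fin.cons x F))
              (fun F => b (Fin.cons x' F)) := fun x x' => add_mul _ _ _
        simp_rw [h4, Finset.sum_add_distrib]
        have h5 : ∑ x, ∑ x', y x * qf y k (fun F => a (Fin.cons x F))
              (fun F => b (Fin.cons x' F)) = 0 := by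
          rw [Finset.sum_comm]
          refine Finset.sum_eq_zero fun x' _ => ?_
          rw [QidAux.sum_left]
          have : (fun F : Fin k → V => ∑ x, y x * a (Fin.cons x F)) = fun _ => 0 :=
            funext fun F => (QidAux.head ha F).2
          rw [this, QidAux.zero_left]
        have h6 : ∑ x, ∑ x', y x' * qf y k (fun F => a (Fin.cons x F))
              (fun F => b (Fin.cons x' F)) = 0 := by
          refine Finset.sum_eq_zero fun x _ => ?_
          rw [QidAux.sum_right]
          have : (fun F : Fin k → V => ∑ x, y x * b (Fin.cons x F)) = fun _ => 0 :=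
            funext fun F => (QidAux.head hb F).2
          rw [this, QidAux.zero_right]
        rw [h5, h6, add_zero]
      exact CharTwo.add_eq_zero.mp key
    · intro a ha
      have h1 : ∑ x, ∑ x', y x' * qf y k (fun F => a (Fin.cons x F))
              (fun F => a (Fin.cons x' F)) = 0 := by
        refine Finset.sum_eq_zero fun x _ => ?_
        rw [QidAux.sum_right]
        have : (fun F : Fin k → V => ∑ x, y x * a (Fin.cons x F)) = fun _ => 0 :=
          funext fun F => (QidAux.head ha F).2
        rw [this, QidAux.zero_right]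
      rw [QidAux.tri] at h1
      have h2 : ∑ x, ∑ x', (if x < x' then y x' * qf y k (fun F => a (Fin.cons x F))
              (fun F => a (Fin.cons x' F)) + y x * qf y k (fun F => a (Fin.cons x' F))
              (fun F => a (Fin.cons x F)) else 0) = qf y (k + 1) a a := by
        rw [qf_succ]
        refine Finset.sum_congr rfl fun x _ => Finset.sum_congr rfl fun x' _ => ?_
        rw [ihs _ _ (ha.tail x') (ha.tail x)]
        split_ifs
        · ring
        · rfl
      rw [h2] at h1
      have h3 := CharTwo.add_eq_zero.mp h1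
      rw [← h3, QidAux.sum_cons]
      refine Finset.sum_congr rfl fun x _ => ?_
      rw [ihd _ (ha.tail x), Finset.mul_sum]
      refine Finset.sum_congr rfl fun F _ => ?_
      rw [Fin.prod_univ_succ]
      simp only [Fin.cons_zero, Fin.cons_succ]
      ring

end SingerRA
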