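import Mathlib
import Pool.Agent.Lib_MP_394d50_vk.VDefs

/-!
Piece VSQF: squarefree monomials are independent over the squares (about 60-100 lines).

`α σ ^ 2 = expand 2 (α σ)` (`MvPolynomial.expand_zmod`), so its coefficient at `2 • e` is the
coefficient of `α σ` at `e` and its coefficients at the exponents which are not in `2 • _` vanish
(`MvPolynomial.coeff_expand_smul`, `MvPolynomial.coeff_expand_of_not_dvd`/or `support_expand`).
Fix `σ` and `e`; take the coefficient of the sum at `d = 2 • e + ∑_{v ∈ σ} single v 1`. The term of `τ` is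
the coefficient of `(∏_{v ∈ τ} X v) * α τ ^ 2`, nonzero only if `d - 1_τ` is even everywhere, that
is if `τ = σ` (parity of the exponents), and the term of `σ` is the coefficient of `α σ` at `e`
(`MvPolynomial.coeff_mul_monomial'`/`coeff_monomial_mul`; `∏_{v ∈ τ} X v = monomial (∑_{v ∈ τ} single v 1) 1`).
-/

namespace SingerRA

open MvPolynomial in
theorem sqfree_prod_X {V : Type} (σ : Finset V) :
    (∏ v ∈ σ, (X v : MvPolynomial V (ZMod 2))) = monomial (∑ v ∈ σ, Finsupp.single v 1) 1 := by
  rw [monomial_sum_one]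
  rfl

theorem sqfree_ind_apply {V : Type} [DecidableEq V] (σ : Finset V) (x : V) :
    (∑ v ∈ σ, Finsupp.single v 1 : V →₀ ℕ) x = if x ∈ σ then 1 else 0 := by
  classical
  rw [Finsupp.finsetSum_apply]
  simp [Finsupp.single_apply]

open MvPolynomial in
theorem sqfree_coeff_ne {V : Type} [Fintype V] [DecidableEq V] (σ τ : Finset V) (hne : τ ≠ σ)
    (e : V →₀ ℕ) (p : MvPolynomial V (ZMod 2)) :
    coeff ((∑ v ∈ σ, Finsupp.single v 1) + 2 • e) ((∏ v ∈ τ, X v) * p ^ 2) = 0 := by
  rw [sqfree_prod_X, coeff_monomial_mul']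
  split_ifs with hle
  · rw [one_mul, ← expand_zmod]
    obtain ⟨x, hx⟩ : ∃ x, ¬ (x ∈ τ ↔ x ∈ σ) := by
      by_contra hcon
      push Not at hcon
      exact hne (Finset.ext hcon)
    apply coeff_expand_of_not_dvd (i := x)
    rw [Finsupp.tsub_apply, Finsupp.add_apply, sqfree_ind_apply, sqfree_ind_apply,
      Finsupp.smul_apply, smul_eq_mul]
    have hlx := hle x
    rw [Finsupp.add_apply, sqfree_ind_apply, sqfree_ind_apply,
      Finsupp.smul_apply, smul_eq_mul] at hlx
    by_cases h1 : x ∈ τ <;> by_cases h2 : x ∈ σ <;> simp only [h1, h2, if_true, if_false, not_true,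
      iff_true, true_iff, not_false_iff] at hx hlx ⊢
    · omega
    · omega
  · rfl

open MvPolynomial in
theorem sqfree_coeff_eq {V : Type} [Fintype V] [DecidableEq V] (σ : Finset V)
    (e : V →₀ ℕ) (p : MvPolynomial V (ZMod 2)) :
    coeff ((∑ v ∈ σ, Finsupp.single v 1) + 2 • e) ((∏ v ∈ σ, X v) * p ^ 2) = coeff e p := by
  rw [sqfree_prod_X, coeff_monomial_mul, one_mul, ← expand_zmod, coeff_expand_smul 2 two_ne_zero]

theorem sqfree_indep {V : Type} [Fintype V] [DecidableEq V]
    (α : Finset V → MvPolynomial V (ZMod 2))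
    (h : ∑ σ, (∏ v ∈ σ, MvPolynomial.X v) * α σ ^ 2 = 0) : α = 0 := by
  funext σ
  refine MvPolynomial.ext _ _ fun e => ?_
  have h1 := congrArg (MvPolynomial.coeff ((∑ v ∈ σ, Finsupp.single v 1) + 2 • e)) h
  rw [MvPolynomial.coeff_sum, Finset.sum_eq_single σ] at h1
  · rw [sqfree_coeff_eq] at h1
    simpa using h1
  · intro τ _ hne
    exact sqfree_coeff_ne σ τ hne e (α τ)
  · intro hcon
    exact absurd (Finset.mem_univ σ) hcon

end SingerRA
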