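import Mathlib
import Pool.Agent.Lib_MP_394d50_vk.VDefs

/-!
Piece VZZ: properties of the chain of pairs `ZZ` (about 150-200 lines). Here `c` is a proper
colouring with `r` colours and `α` a generic stress in degree `r`.

* `rainbow`: a clique with `r` vertices has exactly one vertex of every colour.
* `Lc_rainbow`: if `α σ ≠ 0`, `v ∈ σ`, then `Lc c (c v) σ = X v`.
* `ZZ_supp`: if `ZZ c α σ τ ≠ 0` then `α σ ≠ 0`, `α τ ≠ 0`, so both are cliques with `r` vertices; if `v ∈ σ ∩ τ`
  then the factor `i = c v` is `X v + X v = 0` (characteristic two: `CharTwo.add_self_eq_zero`).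
* `ZZ_cycle`: let `σ ∈ cliq G` and `τ` be given; if `σ.card + 1 ≠ r` all terms vanish. Otherwise the
  colours of the vertices of `σ` are distinct, so exactly one colour `κ` is missing. For `v ∉ σ` with
  `α (insert v σ) ≠ 0`: `insert v σ` is a clique so `c v = κ`, `Lc c i (insert v σ) = Lc c i σ` for `i ≠ κ`,
  and `Lc c κ (insert v σ) = X v` (`Lc c κ σ = 0`). So
  `∑_v ZZ c α (insert v σ) τ = α τ * ∏_{i ≠ κ} (Lc c i σ + Lc c i τ) *
  (∑_v X v * α (insert v σ) + Lc c κ τ * ∑_v α (insert v σ)) = 0`.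
-/

namespace SingerRA

variable {V : Type} [Fintype V] [DecidableEq V] {G : SimpleGraph V} {r : ℕ} {c : V → Fin r}
  {α : Finset V → MvPolynomial V (ZMod 2)}

theorem ZZ_symm (σ τ : Finset V) : ZZ c α σ τ = ZZ c α τ σ := by
  unfold ZZ
  rw [mul_comm (α σ)]
  congr 1
  exact Finset.prod_congr rfl fun i _ => add_comm _ _

omit [Fintype V] in
theorem Lc_clique (hc : ∀ u v, G.Adj u v → c u ≠ c v) {σ : Finset V} (hσ : σ ∈ cliq G) {v : V}
    (hv : v ∈ σ) : Lc c (c v) σ = MvPolynomial.X v := by
  have h : σ.filter (fun u => c u = c v) = {v} := by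
    ext u
    rw [Finset.mem_filter, Finset.mem_singleton]
    constructor
    · rintro ⟨hu, hcu⟩
      by_contra hne
      exact hc u v (hσ (Finset.mem_coe.mpr hu) (Finset.mem_coe.mpr hv) hne) hcu
    · rintro rfl
      exact ⟨hv, rfl⟩
  rw [Lc, h, Finset.sum_singleton]

theorem ZZ_supp (hc : ∀ u v, G.Adj u v → c u ≠ c v) (hα : GStress G r α) (σ τ : Finset V)
    (h : ¬ (DP G σ τ ∧ σ.card = r ∧ τ.card = r)) : ZZ c α σ τ = 0 := by
  unfold ZZ
  by_cases h1 : σ ∈ cliq G ∧ σ.card = r
  · by_cases h2 : τ ∈ cliq G ∧ τ.card = r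
    · have h3 : ¬ Disjoint σ τ := fun hd => h ⟨⟨h1.1, h2.1, hd⟩, h1.2, h2.2⟩
      rw [Finset.not_disjoint_iff] at h3
      obtain ⟨v, hv1, hv2⟩ := h3
      have h4 : ∏ i, (Lc c i σ + Lc c i τ) = 0 := by
        apply Finset.prod_eq_zero (Finset.mem_univ (c v))
        rw [Lc_clique hc h1.1 hv1, Lc_clique hc h2.1 hv2]
        exact CharTwo.add_self_eq_zero _
      rw [h4, mul_zero]
    · rw [hα.supp τ h2]
      ring
  · rw [hα.supp σ h1]
    ring

theorem ZZ_cycle (hc : ∀ u v, G.Adj u v → c u ≠ c v) (hα : GStress G r α) (σ : Finset V)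
    (hσ : σ ∈ cliq G) (τ : Finset V) : ∑ v ∈ Finset.univ \ σ, ZZ c α (insert v σ) τ = 0 := by
  by_cases hcard : σ.card + 1 = r
  swap
  · refine Finset.sum_eq_zero fun v hv => ?_
    rw [Finset.mem_sdiff] at hv
    unfold ZZ
    rw [hα.supp (insert v σ) (fun h => hcard (by rw [← h.2, Finset.card_insert_of_notMem hv.2]))]
    ring
  have hinj : Set.InjOn c (σ : Set V) := by
    intro u hu v hv huv
    by_contra hne
    exact hc u v (hσ hu hv hne) huv
  have himg : (σ.image c).card + 1 = r := by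
    rw [Finset.card_image_of_injOn hinj, hcard]
  have hmiss : (Finset.univ \ σ.image c).card = 1 := by
    rw [Finset.card_univ_diff, Fintype.card_fin]
    omega
  obtain ⟨κ, hκ⟩ := Finset.card_eq_one.mp hmiss
  have hκ1 : ∀ i : Fin r, i ∉ σ.image c ↔ i = κ := by
    intro i
    have := Finset.ext_iff.mp hκ i
    rw [Finset.mem_sdiff, Finset.mem_singleton] at this
    rw [← this]
    simp
  have hkey : ∀ v ∈ Finset.univ \ σ, ZZ c α (insert v σ) τ =
      (α τ * ∏ i ∈ Finset.univ.erase κ, (Lc c i σ + Lc c i τ)) *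
        (MvPolynomial.X v * α (insert v σ) + Lc c κ τ * α (insert v σ)) := by
    intro v hv
    rw [Finset.mem_sdiff] at hv
    by_cases hcl : insert v σ ∈ cliq G ∧ (insert v σ).card = r
    swap
    · unfold ZZ
      rw [hα.supp _ hcl]
      ring
    have hcv : c v = κ := by
      rw [← hκ1]
      intro hmem
      rw [Finset.mem_image] at hmem
      obtain ⟨u, hu, huv⟩ := hmem
      have hne : u ≠ v := by
        rintro rfl
        exact hv.2 hu
      exact hc u v (hcl.1 (Finset.mem_coe.mpr (Finset.mem_insert_of_mem hu))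
        (Finset.mem_coe.mpr (Finset.mem_insert_self v σ)) hne) huv
    have hκf : Lc c κ (insert v σ) = MvPolynomial.X v := by
      rw [← hcv]
      exact Lc_clique hc hcl.1 (Finset.mem_insert_self v σ)
    have hif : ∀ i ∈ Finset.univ.erase κ, Lc c i (insert v σ) + Lc c i τ =
        Lc c i σ + Lc c i τ := by
      intro i hi
      have hi' := Finset.ne_of_mem_erase hi
      have h1 : (insert v σ).filter (fun u => c u = i) = σ.filter (fun u => c u = i) := by
        rw [Finset.filter_insert, if_neg]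
        rw [hcv]
        exact hi'.symm
      unfold Lc
      rw [h1]
    unfold ZZ
    rw [← Finset.mul_prod_erase Finset.univ _ (Finset.mem_univ κ), Finset.prod_congr rfl hif, hκf]
    ring
  rw [Finset.sum_congr rfl hkey, ← Finset.mul_sum, Finset.sum_add_distrib, ← Finset.mul_sum,
    hα.sum σ hσ hcard, hα.wsum σ hσ hcard]
  ring

end SingerRA
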