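import Mathlib
import Pool.Agent.Lib_MP_394d50_vk.VDefs
import Pool.Agent.Lib_MP_394d50_vk.VQid
import Pool.Agent.Lib_MP_394d50_vk.VSqf
import Pool.Agent.Lib_MP_394d50_vk.VZz
import Pool.Agent.Lib_MP_394d50_vk.VFun
import Pool.Agent.Lib_MP_394d50_vk.VExt

/-!
Piece VCORE: no generic stress.

`stress_zero_order`: for every exponent `μ` the chain `Z σ τ = coeff μ (ZZ c α σ τ)` satisfies the hypotheses of
`vk_comap`, so `∑ alt σ τ * Z σ τ = 0`; together: `∑_{σ, τ} (if Alt σ τ then ZZ c α σ τ else 0) = 0`. By `alt_asFun` and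
`qf_symm_diag` this is `∑_σ X^σ (α σ)^2`, so `α = 0` by `sqfree_indep`.
-/

namespace SingerRA

open MvPolynomial in
theorem stress_zero_order {V : Type} {G : SimpleGraph V} (m : ℕ) (hS : HS (2 * m + 1) G)
    {U : Type} [Fintype U] [LinearOrder U] (f : U ↪ V) (c : U → Fin (m + 1))
    (hc : ∀ u v, (G.comap f).Adj u v → c u ≠ c v) (ho : ∀ u v, c u < c v → u < v)
    (α : Finset U → MvPolynomial U (ZMod 2)) (hα : GStress (G.comap f) (m + 1) α) : α = 0 := by
  classical
  have hsum : ∑ σ, ∑ τ, (if Alt σ τ then ZZ c α σ τ else 0) = 0 := by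
    ext μ
    have h1 := vk_comap m hS f (fun σ τ => coeff μ (ZZ c α σ τ)) ?_ ?_ ?_
    · rw [coeff_zero, ← h1, coeff_sum]
      refine Finset.sum_congr rfl fun σ _ => ?_
      rw [coeff_sum]
      refine Finset.sum_congr rfl fun τ _ => ?_
      unfold alt
      by_cases h : Alt σ τ
      · rw [if_pos h, if_pos h, one_mul]
      · rw [if_neg h, if_neg h, zero_mul, coeff_zero]
    · intro σ τ h
      have h2 : ZZ c α σ τ = 0 := by
        refine ZZ_supp hc hα σ τ ?_
        rintro ⟨h3, h4, h5⟩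
        exact h ⟨h3, by omega⟩
      show coeff μ (ZZ c α σ τ) = 0
      rw [h2, coeff_zero]
    · intro σ τ
      show coeff μ (ZZ c α σ τ) = coeff μ (ZZ c α τ σ)
      rw [ZZ_symm]
    · intro σ τ h
      unfold DD bs
      have h2 := ZZ_cycle hc hα σ h.1 τ
      have h3 := ZZ_cycle hc hα τ h.2.1 σ
      have h4 : ∑ v ∈ Finset.univ \ σ, coeff μ (ZZ c α (insert v σ) τ) = 0 := by
        rw [← coeff_sum, h2, coeff_zero]
      have h5 : ∑ v ∈ Finset.univ \ τ, coeff μ (ZZ c α σ (insert v τ)) = 0 := by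
        have : ∀ v ∈ Finset.univ \ τ, coeff μ (ZZ c α σ (insert v τ)) =
            coeff μ (ZZ c α (insert v τ) σ) := fun v _ => by rw [ZZ_symm]
        rw [Finset.sum_congr rfl this, ← coeff_sum, h3, coeff_zero]
      rw [h4, h5, add_zero]
  have h1 := alt_asFun hc ho hα
  have h2 := (qf_symm_diag (R := MvPolynomial U (ZMod 2)) (fun v => X v) (m + 1)).2 (asFun c α)
    (asFun_stress hc hα)
  have h3 := asFun_sum hc hα
  apply sqfree_indep
  rw [← h3, ← h2, ← h1, hsum]

theorem stress_zero {V : Type} {G : SimpleGraph V} (m : ℕ) (hS : HS (2 * m + 1) G)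
    {U : Type} [iF : Fintype U] [iD : DecidableEq U] (f : U ↪ V) (c : U → Fin (m + 1))
    (hc : ∀ u v, (G.comap f).Adj u v → c u ≠ c v)
    (α : Finset U → MvPolynomial U (ZMod 2)) (hα : GStress (G.comap f) (m + 1) α) : α = 0 := by
  have e : U ≃ Fin (Fintype.card U) := Fintype.equivFin U
  let key : U → Fin (m + 1) ×ₗ Fin (Fintype.card U) := fun u => toLex (c u, e u)
  have hkey : Function.Injective key := by
    intro u v h
    have h1 : (c u, e u) = (c v, e v) := toLex.injective h
    exact e.injective (Prod.ext_iff.mp h1).2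
  let L : LinearOrder U := LinearOrder.lift' key hkey
  have ho : ∀ u v : U, c u < c v → L.lt u v := by
    intro u v h
    show key u < key v
    exact Prod.Lex.left _ _ h
  have hd : iD = L.toDecidableEq := Subsingleton.elim _ _
  subst hd
  exact stress_zero_order m hS f c hc ho α hα

end SingerRA
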