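import Mathlib
import Pool.Agent.Lib_MP_394d50_gt.Defs3
import Pool.Agent.Lib_MP_394d50_gt.EAdd
import Pool.Agent.Lib_MP_394d50_gt.AGood
import Pool.Agent.Lib_MP_394d50_gt.EHer

/-!
Piece VJOIN: joins, and building a complex by adding vertices.
-/

namespace SingerRA

/-- Two injective maps with the same range induce isomorphic graphs. -/
theorem comap_iso {V A B : Type} (G : SimpleGraph V) (f : A → V) (g : B → V)
    (hf : Function.Injective f) (hg : Function.Injective g) (h : Set.range f = Set.range g) :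
    Nonempty (G.comap f ≃g G.comap g) := by
  let e : A ≃ B := (Equiv.ofInjective f hf).trans
    ((Equiv.setCongr h).trans (Equiv.ofInjective g hg).symm)
  have he : ∀ a, g (e a) = f a := by
    intro a
    exact Equiv.apply_ofInjective_symm hg _
  exact ⟨⟨e, by intro a b; simp [he]⟩⟩

/-- The graph of `delG` for an induced graph. -/
theorem delG_induce {V : Type} (G : SimpleGraph V) (T : Set V) (v : T) :
    Nonempty (G.induce (T \ {v.1}) ≃g delG (G.induce T) v) := by
  refine comap_iso G Subtype.val (fun u : {u : T // u ≠ v} => u.1.1) Subtype.val_injective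
    (fun a b h => Subtype.ext (Subtype.ext h)) ?_
  ext u
  simp only [Subtype.range_coe_subtype, Set.mem_ofPred_eq, Set.mem_range, Set.mem_sdiff,
    Set.mem_singleton_iff]
  constructor
  · rintro ⟨h1, h2⟩
    exact ⟨⟨⟨u, h1⟩, fun h => h2 (congrArg Subtype.val h)⟩, rfl⟩
  · rintro ⟨a, rfl⟩
    exact ⟨a.1.2, fun h => a.2 (Subtype.ext h)⟩

/-- The graph of `nbrG` for an induced graph. -/
theorem nbrG_induce {V : Type} (G : SimpleGraph V) (T : Set V) (v : T) :
    Nonempty (G.induce {u | u ∈ T ∧ G.Adj v.1 u} ≃g nbrG (G.induce T) v) := by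
  refine comap_iso G Subtype.val (fun u : {u : T // (G.induce T).Adj v u} => u.1.1)
    Subtype.val_injective (fun a b h => Subtype.ext (Subtype.ext h)) ?_
  ext u
  simp only [Subtype.range_coe_subtype, Set.mem_ofPred_eq, Set.mem_range]
  constructor
  · rintro ⟨h1, h2⟩
    exact ⟨⟨⟨u, h1⟩, h2⟩, rfl⟩
  · rintro ⟨a, rfl⟩
    exact ⟨a.1.2, a.2⟩

theorem induce_univ_iso {V : Type} (G : SimpleGraph V) :
    Nonempty (G.induce Set.univ ≃g G) :=
  comap_iso G Subtype.val id Subtype.val_injective Function.injective_id (by simp)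

/-- Joins, relative version. -/
theorem join_aux {V : Type} [Finite V] (G : SimpleGraph V) (S : Set V)
    (hS : ∀ p, SmallGrad p (G.induce S)) : ∀ (n : ℕ) (T : Set V), S ⊆ T → (T \ S).ncard = n →
    (∀ v ∈ T, v ∉ S → ∀ s ∈ S, G.Adj v s) → ∀ p, SmallGrad p (G.induce T) := by
  intro n
  induction n using Nat.strong_induction_on with
  | _ n IH =>
    intro T hST hn hj p
    by_cases hE : (T \ S) = ∅
    · have : T = S := Set.Subset.antisymm (Set.sdiff_eq_empty.mp hE) hST
      subst this
      exact hS p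
    · obtain ⟨v, hvT, hvS⟩ := Set.nonempty_iff_ne_empty.mpr hE
      refine SmallGrad.add (G.induce T) ⟨v, hvT⟩ p ?_ ?_
      · obtain ⟨e⟩ := delG_induce G T ⟨v, hvT⟩
        refine SmallGrad.iso e p (IH _ ?_ (T \ {v}) ?_ rfl ?_ p)
        · rw [← hn]
          refine Set.ncard_lt_ncard ?_ (Set.toFinite _)
          refine ⟨fun u hu => ⟨hu.1.1, hu.2⟩, fun h => ?_⟩
          exact (h ⟨hvT, hvS⟩).1.2 rfl
        · exact fun s hs => ⟨hST hs, fun h => hvS (by rw [← Set.mem_singleton_iff.mp h]; exact hs)⟩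
        · exact fun u hu => hj u hu.1
      · intro j _
        obtain ⟨e⟩ := nbrG_induce G T ⟨v, hvT⟩
        refine SmallGrad.iso e j (IH _ ?_ {u | u ∈ T ∧ G.Adj v u} ?_ rfl ?_ j)
        · rw [← hn]
          refine Set.ncard_lt_ncard ?_ (Set.toFinite _)
          refine ⟨fun u hu => ⟨hu.1.1, hu.2⟩, fun h => ?_⟩
          exact G.loopless.irrefl v (h ⟨hvT, hvS⟩).1.2
        · exact fun s hs => ⟨hST hs, hj v hvT hvS s hs⟩
        · exact fun u hu => hj u hu.1

theorem SmallGrad.join {V : Type} [Finite V] (G : SimpleGraph V) (S : Set V)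
    (hj : ∀ v, v ∉ S → ∀ s ∈ S, G.Adj v s) (hS : ∀ p, SmallGrad p (G.induce S)) (p : ℕ) :
    SmallGrad p G := by
  obtain ⟨e⟩ := induce_univ_iso G
  exact SmallGrad.iso e p (join_aux G S hS _ Set.univ (Set.subset_univ _) rfl
    (fun v _ => hj v) p)

/-- Building a complex from the full subcomplex on `E` by adding the vertices `o ∉ E` in the order of
`ord`: every neighbour of `o` outside `A o` is adjacent to all of `A o`, the vertices of `A o` come before
`o`, and all the gradients of the full subcomplex on `A o` are small. -/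
theorem SmallGrad.build {V : Type} [Finite V] (G : SimpleGraph V) (p : ℕ) (E : Set V)
    (hE : SmallGrad p (G.induce E)) (ord : V → ℕ) (A : V → Set V)
    (hA : ∀ o, o ∉ E → ∀ q, SmallGrad q (G.induce (A o)))
    (hadj : ∀ o, o ∉ E → ∀ a ∈ A o, G.Adj o a)
    (hjoin : ∀ o, o ∉ E → ∀ a ∈ A o, ∀ b, b ∉ A o → G.Adj o b → G.Adj b a)
    (hord : ∀ o, o ∉ E → ∀ a ∈ A o, a ∉ E → ord a < ord o) : SmallGrad p G := by
  have key : ∀ (n : ℕ) (S : Set V), E ⊆ S → (S \ E).ncard = n →
      (∀ o ∈ S, o ∉ E → A o ⊆ S) → SmallGrad p (G.induce S) := by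
    intro n
    induction n using Nat.strong_induction_on with
    | _ n IH =>
      intro S hES hn hcl
      by_cases hSE : (S \ E) = ∅
      · have : S = E := Set.Subset.antisymm (Set.sdiff_eq_empty.mp hSE) hES
        subst this
        exact hE
      · obtain ⟨x, ⟨hxS, hxE⟩, hmax⟩ := Set.exists_max_image (S \ E) ord (Set.toFinite _)
          (Set.nonempty_iff_ne_empty.mpr hSE)
        refine SmallGrad.add (G.induce S) ⟨x, hxS⟩ p ?_ ?_
        · obtain ⟨e⟩ := delG_induce G S ⟨x, hxS⟩
          refine SmallGrad.iso e p (IH _ ?_ (S \ {x}) ?_ rfl ?_)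
          · rw [← hn]
            refine Set.ncard_lt_ncard ?_ (Set.toFinite _)
            refine ⟨fun u hu => ⟨hu.1.1, hu.2⟩, fun h => ?_⟩
            exact (h ⟨hxS, hxE⟩).1.2 rfl
          · exact fun s hs => ⟨hES hs, fun h => hxE (by
              rw [← Set.mem_singleton_iff.mp h]; exact hs)⟩
          · intro o ho hoE a ha
            refine ⟨hcl o ho.1 hoE ha, fun h => ?_⟩
            rw [Set.mem_singleton_iff] at h
            subst h
            have h1 := hord o hoE a ha hxE
            have h2 := hmax o ⟨ho.1, hoE⟩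
            omega
        · intro j _
          obtain ⟨e⟩ := nbrG_induce G S ⟨x, hxS⟩
          refine SmallGrad.iso e j (join_aux G (A x) (hA x hxE) _ {u | u ∈ S ∧ G.Adj x u}
            (fun a ha => ⟨hcl x hxS hxE ha, hadj x hxE a ha⟩) rfl ?_ j)
          intro b hb hbA a ha
          exact hjoin x hxE a ha b hbA hb.2
  obtain ⟨e⟩ := induce_univ_iso G
  exact SmallGrad.iso e p (key _ Set.univ (Set.subset_univ _) rfl fun _ _ _ => Set.subset_univ _)

end SingerRA
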