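import Mathlib
import Pool.Agent.Lib_MP_394d50_vk.VDefs

/-!
Piece VNBR: links of homology spheres (about 150-200 lines).

`HomSphere.nbr`: for a set `ρ` of neighbours of `v` (`ρ : Finset {u // G.Adj v u}`) put
`e ρ = insert v (ρ.map ⟨Subtype.val, _⟩) : Finset V`; `e` is a bijection from the finsets of
`{u // G.Adj v u}` which are cliques of `nbrG G v` onto the cliques of `G` containing `v`, `e ρ ⊆ e ρ' ↔ ρ ⊆ ρ'`,
`(e ρ).card = ρ.card + 1`, `insert (u : V) (e ρ) = e (insert u ρ)`. For `z` on the link let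
`z' τ = z ρ` if `τ = e ρ`, `0` otherwise (e.g. `z' τ = if v ∈ τ ∧ τ ∈ cliq G then z (preimage) else 0`); for a clique
`ρ`: `bs z' (e ρ) = bs z ρ` when `z` vanishes off the cliques of the link (for `u ∉ e ρ` not adjacent
to `v` the set `insert u (e ρ)` is not a clique). Conversely for `w` on `V` put `w₀ ρ = w (e ρ)` for the cliques
`ρ`, so `bs w₀ ρ = bs w (e ρ)` if `w` vanishes off the cliques. Then `dim`, `acyclic`, `top`, `ridge` for
`σ` in the link are those of `e σ` in `G` (with `m + 1` instead of `m`).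
`HomSphere.iso`: transport along a graph isomorphism (`Finset.map e`, `Equiv.sum_comp`).
-/

namespace SingerRA

section Nbr

variable {V : Type} [Fintype V] [DecidableEq V] {G : SimpleGraph V} {v : V}

/-- The set of the neighbours `ρ` together with `v`. -/
def eN (G : SimpleGraph V) (v : V) (ρ : Finset {u // G.Adj v u}) : Finset V :=
  insert v (ρ.map (Function.Embedding.subtype _))

theorem mem_eN (ρ : Finset {u // G.Adj v u}) (x : V) :
    x ∈ eN G v ρ ↔ x = v ∨ ∃ h : G.Adj v x, (⟨x, h⟩ : {u // G.Adj v u}) ∈ ρ := by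
  simp [eN]

theorem notMem_map_eN (ρ : Finset {u // G.Adj v u}) :
    v ∉ ρ.map (Function.Embedding.subtype _) := by
  intro h
  obtain ⟨⟨a, ha⟩, _, h2⟩ := Finset.mem_map.mp h
  simp only [Function.Embedding.subtype_apply] at h2
  subst h2
  exact G.loopless.irrefl _ ha

theorem card_eN (ρ : Finset {u // G.Adj v u}) : (eN G v ρ).card = ρ.card + 1 := by
  unfold eN
  rw [Finset.card_insert_of_notMem (notMem_map_eN ρ), Finset.card_map]

theorem val_mem_eN (ρ : Finset {u // G.Adj v u}) (a : {u // G.Adj v u}) :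
    a.1 ∈ eN G v ρ ↔ a ∈ ρ := by
  rw [mem_eN]
  constructor
  · rintro (h | ⟨h, h'⟩)
    · exact absurd (h ▸ a.2) (G.loopless.irrefl _)
    · exact h'
  · intro h
    exact Or.inr ⟨a.2, h⟩

theorem eN_subset (ρ ρ' : Finset {u // G.Adj v u}) : eN G v ρ ⊆ eN G v ρ' ↔ ρ ⊆ ρ' := by
  constructor
  · intro h a ha
    exact (val_mem_eN ρ' a).mp (h ((val_mem_eN ρ a).mpr ha))
  · intro h x hx
    rw [mem_eN] at hx ⊢
    rcases hx with hx | ⟨hx, hx'⟩
    · exact Or.inl hx
    · exact Or.inr ⟨hx, h hx'⟩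

theorem eN_inj {ρ ρ' : Finset {u // G.Adj v u}} (h : eN G v ρ = eN G v ρ') : ρ = ρ' :=
  Finset.Subset.antisymm ((eN_subset _ _).mp h.subset) ((eN_subset _ _).mp h.symm.subset)

theorem eN_insert [DecidableEq {u // G.Adj v u}] (ρ : Finset {u // G.Adj v u})
    (a : {u // G.Adj v u}) : insert a.1 (eN G v ρ) = eN G v (insert a ρ) := by
  ext x
  rw [Finset.mem_insert, mem_eN, mem_eN]
  constructor
  · rintro (h | h | ⟨h, h'⟩)
    · subst h
      exact Or.inr ⟨a.2, Finset.mem_insert_self _ _⟩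
    · exact Or.inl h
    · exact Or.inr ⟨h, Finset.mem_insert_of_mem h'⟩
  · rintro (h | ⟨h, h'⟩)
    · exact Or.inr (Or.inl h)
    · rcases Finset.mem_insert.mp h' with h' | h'
      · left
        rw [← h']
      · exact Or.inr (Or.inr ⟨h, h'⟩)

theorem eN_cliq (ρ : Finset {u // G.Adj v u}) :
    eN G v ρ ∈ cliq G ↔ ρ ∈ cliq (nbrG G v) := by
  constructor
  · intro h a ha b hb hab
    have h1 := h ((val_mem_eN ρ a).mpr ha) ((val_mem_eN ρ b).mpr hb)
      (fun h2 => hab (Subtype.ext h2))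
    exact h1
  · intro h x hx y hy hxy
    rw [Finset.mem_coe, mem_eN] at hx hy
    rcases hx with hx | ⟨hx, hx'⟩
    · rcases hy with hy | ⟨hy, hy'⟩
      · exact absurd (hx.trans hy.symm) hxy
      · rw [hx]; exact hy
    · rcases hy with hy | ⟨hy, hy'⟩
      · rw [hy]; exact hx.symm
      · exact h hx' hy' (fun h2 => hxy (congrArg Subtype.val h2))

theorem eN_surj {τ : Finset V} (hτ : τ ∈ cliq G) (hv : v ∈ τ) : ∃ ρ, eN G v ρ = τ := by
  classical
  refine ⟨(τ.erase v).attach.map ⟨fun a => ⟨a.1, hτ hv (Finset.mem_of_mem_erase a.2)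
    (Finset.ne_of_mem_erase a.2).symm⟩, ?_⟩, ?_⟩
  · intro a b hab
    exact Subtype.ext (congrArg (fun x : {u // G.Adj v u} => x.1) hab)
  · ext x
    rw [mem_eN]
    constructor
    · rintro (h | ⟨h, h'⟩)
      · rw [h]; exact hv
      · obtain ⟨a, _, ha⟩ := Finset.mem_map.mp h'
        have : a.1 = x := congrArg (fun x : {u // G.Adj v u} => x.1) ha
        rw [← this]
        exact Finset.mem_of_mem_erase a.2
    · intro hx
      by_cases hxv : x = v
      · exact Or.inl hxv
      · refine Or.inr ⟨hτ hv hx (fun h => hxv h.symm), ?_⟩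
        refine Finset.mem_map.mpr ⟨⟨x, Finset.mem_erase.mpr ⟨hxv, hx⟩⟩, Finset.mem_attach _ _, rfl⟩

theorem self_mem_eN (ρ : Finset {u // G.Adj v u}) : v ∈ eN G v ρ := by
  rw [mem_eN]; exact Or.inl rfl

theorem bs_eN [Fintype {u // G.Adj v u}] [DecidableEq {u // G.Adj v u}]
    (z : Finset V → ZMod 2) (hz : ∀ τ, τ ∉ cliq G → z τ = 0) (ρ : Finset {u // G.Adj v u}) :
    bs z (eN G v ρ) = bs (fun ρ' => z (eN G v ρ')) ρ := by
  unfold bs
  symm
  have h1 : ∑ a ∈ Finset.univ \ ρ, z (eN G v (insert a ρ)) =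
      ∑ x ∈ (Finset.univ \ ρ).map (Function.Embedding.subtype _), z (insert x (eN G v ρ)) := by
    rw [Finset.sum_map]
    apply Finset.sum_congr rfl
    intro a _
    rw [Function.Embedding.subtype_apply, eN_insert]
  rw [h1]
  apply Finset.sum_subset
  · intro x hx
    obtain ⟨a, ha, hax⟩ := Finset.mem_map.mp hx
    rw [Function.Embedding.subtype_apply] at hax
    rw [← hax]
    refine Finset.mem_sdiff.mpr ⟨Finset.mem_univ _, fun h => ?_⟩
    exact (Finset.mem_sdiff.mp ha).2 ((val_mem_eN ρ a).mp h)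
  · intro x hx hx'
    apply hz
    intro hcl
    have hxn : x ∉ eN G v ρ := (Finset.mem_sdiff.mp hx).2
    have hxv : v ≠ x := fun h => hxn (h ▸ self_mem_eN ρ)
    have hadj : G.Adj v x := hcl (Finset.mem_coe.mpr (Finset.mem_insert_of_mem (self_mem_eN ρ)))
      (Finset.mem_coe.mpr (Finset.mem_insert_self _ _)) hxv
    apply hx'
    refine Finset.mem_map.mpr ⟨⟨x, hadj⟩, ?_, rfl⟩
    refine Finset.mem_sdiff.mpr ⟨Finset.mem_univ _, fun h => ?_⟩
    exact hxn ((val_mem_eN ρ ⟨x, hadj⟩).mpr h)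

open scoped Classical in
/-- The extension of a function on the link. -/
noncomputable def extN (G : SimpleGraph V) (v : V) (z : Finset {u // G.Adj v u} → ZMod 2)
    (τ : Finset V) : ZMod 2 :=
  if h : ∃ ρ, eN G v ρ = τ then z h.choose else 0

theorem extN_eN (z : Finset {u // G.Adj v u} → ZMod 2) (ρ : Finset {u // G.Adj v u}) :
    extN G v z (eN G v ρ) = z ρ := by
  unfold extN
  have h : ∃ ρ', eN G v ρ' = eN G v ρ := ⟨ρ, rfl⟩
  rw [dif_pos h]
  exact congrArg z (eN_inj h.choose_spec)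

theorem extN_zero (z : Finset {u // G.Adj v u} → ZMod 2)
    (hz : ∀ ρ, ρ ∉ cliq (nbrG G v) → z ρ = 0) (τ : Finset V) (hτ : τ ∉ cliq G) :
    extN G v z τ = 0 := by
  by_cases h : ∃ ρ, eN G v ρ = τ
  · obtain ⟨ρ, rfl⟩ := h
    rw [extN_eN]
    exact hz ρ (fun h => hτ ((eN_cliq ρ).mpr h))
  · unfold extN
    rw [dif_neg h]

theorem bs_extN [Fintype {u // G.Adj v u}] [DecidableEq {u // G.Adj v u}]
    (z : Finset {u // G.Adj v u} → ZMod 2)
    (hz : ∀ ρ, ρ ∉ cliq (nbrG G v) → z ρ = 0) (ρ : Finset {u // G.Adj v u}) :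
    bs (extN G v z) (eN G v ρ) = bs z ρ := by
  rw [bs_eN _ (extN_zero z hz)]
  congr 1
  funext ρ'
  exact extN_eN z ρ'

end Nbr

theorem HomSphere.nbr {V : Type} [Fintype V] [DecidableEq V] {n : ℕ} {G : SimpleGraph V}
    (h : HomSphere (n + 1) G) (v : V) [Fintype {u // G.Adj v u}]
    [DecidableEq {u // G.Adj v u}] : HomSphere n (nbrG G v) where
  dim := by
    intro σ hσ
    have h1 := h.dim (eN G v σ) ((eN_cliq σ).mpr hσ)
    rw [card_eN] at h1
    omega
  acyclic := by
    intro σ hσ m hm hmn z hz hc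
    obtain ⟨w, hw, hw'⟩ := h.acyclic (eN G v σ) ((eN_cliq σ).mpr hσ) (m + 1)
      (by rw [card_eN]; omega) (by omega) (extN G v z) (extN_zero z hz)
      (by
        intro τ hτ hs hcard
        obtain ⟨ρ, rfl⟩ := eN_surj (v := v) hτ (hs (self_mem_eN σ))
        rw [bs_extN z hz]
        rw [card_eN] at hcard
        exact hc ρ ((eN_cliq ρ).mp hτ) ((eN_subset _ _).mp hs) (by omega))
    refine ⟨fun ρ => w (eN G v ρ), fun ρ hρ => hw _ (fun h => hρ ((eN_cliq ρ).mp h)), ?_⟩
    intro ρ hρ hs hcard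
    rw [← bs_eN w hw, ← hw' (eN G v ρ) ((eN_cliq ρ).mpr hρ) ((eN_subset _ _).mpr hs)
      (by rw [card_eN, hcard]), extN_eN]
  top := by
    intro σ hσ z hz hc τ τ' hτ hτ' hs hs' hcard hcard'
    have h1 := h.top (eN G v σ) ((eN_cliq σ).mpr hσ) (extN G v z) (extN_zero z hz)
      (by
        intro τ hτ hs hcard
        obtain ⟨ρ, rfl⟩ := eN_surj (v := v) hτ (hs (self_mem_eN σ))
        rw [bs_extN z hz]
        rw [card_eN] at hcard
        exact hc ρ ((eN_cliq ρ).mp hτ) ((eN_subset _ _).mp hs) (by omega))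
      (eN G v τ) (eN G v τ') ((eN_cliq τ).mpr hτ) ((eN_cliq τ').mpr hτ')
      ((eN_subset _ _).mpr hs) ((eN_subset _ _).mpr hs') (by rw [card_eN, hcard])
      (by rw [card_eN, hcard'])
    rwa [extN_eN, extN_eN] at h1
  ridge := by
    intro τ hτ hcard
    rw [← h.ridge (eN G v τ) ((eN_cliq τ).mpr hτ) (by rw [card_eN]; omega)]
    have h1 : {u | u ∉ eN G v τ ∧ G.IsClique ((insert u (eN G v τ) : Finset V) : Set V)} =
        Subtype.val '' {a : {u // G.Adj v u} | a ∉ τ ∧ (nbrG G v).IsClique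
          ((insert a τ : Finset {u // G.Adj v u}) : Set {u // G.Adj v u})} := by
      ext x
      constructor
      · rintro ⟨hx, hcl⟩
        have hxv : v ≠ x := fun h => hx (h ▸ self_mem_eN τ)
        have hadj : G.Adj v x :=
          hcl (Finset.mem_coe.mpr (Finset.mem_insert_of_mem (self_mem_eN τ)))
            (Finset.mem_coe.mpr (Finset.mem_insert_self _ _)) hxv
        refine ⟨⟨x, hadj⟩, ⟨fun h => hx ((val_mem_eN τ ⟨x, hadj⟩).mpr h), ?_⟩, rfl⟩
        have h2 : insert x (eN G v τ) ∈ cliq G := hcl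
        have h3 := eN_insert τ ⟨x, hadj⟩
        simp only at h3
        rw [h3] at h2
        exact (eN_cliq _).mp h2
      · rintro ⟨a, ⟨ha, ha'⟩, rfl⟩
        refine ⟨fun h => ha ((val_mem_eN τ a).mp h), ?_⟩
        rw [eN_insert]
        exact (eN_cliq _).mpr ha'
    rw [h1, Set.ncard_image_of_injective _ Subtype.val_injective]

section Iso

variable {V V' : Type} [Fintype V] [DecidableEq V] [Fintype V'] [DecidableEq V']
  {G : SimpleGraph V} {G' : SimpleGraph V'} (e : G ≃g G')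

/-- The preimage of a set. -/
def eI (e : G ≃g G') (τ : Finset V') : Finset V := τ.map e.symm.toEquiv.toEmbedding

theorem mem_eI (τ : Finset V') (x : V) : x ∈ eI e τ ↔ e x ∈ τ := by
  unfold eI
  rw [Finset.mem_map_equiv]
  rfl

theorem eI_cliq (τ : Finset V') : eI e τ ∈ cliq G ↔ τ ∈ cliq G' := by
  constructor
  · intro h a ha b hb hab
    have h1 : e.symm a ∈ eI e τ := (mem_eI e τ _).mpr (by simpa using ha)
    have h2 : e.symm b ∈ eI e τ := (mem_eI e τ _).mpr (by simpa using hb)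
    have h3 := h h1 h2 (fun h => hab (e.symm.injective h))
    exact e.symm.map_adj_iff.mp h3
  · intro h a ha b hb hab
    have h1 := h ((mem_eI e τ a).mp ha) ((mem_eI e τ b).mp hb) (fun h => hab (e.injective h))
    exact e.map_adj_iff.mp h1

theorem eI_subset (τ τ' : Finset V') : eI e τ ⊆ eI e τ' ↔ τ ⊆ τ' := by
  unfold eI
  exact Finset.map_subset_map

theorem card_eI (τ : Finset V') : (eI e τ).card = τ.card := Finset.card_map _

theorem eI_insert (τ : Finset V') (a : V') : insert (e.symm a) (eI e τ) = eI e (insert a τ) := by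
  unfold eI
  rw [Finset.map_insert]
  rfl

theorem eI_surj (σ : Finset V) : ∃ τ, eI e τ = σ := by
  refine ⟨σ.map e.toEquiv.toEmbedding, ?_⟩
  ext x
  rw [mem_eI, Finset.mem_map_equiv]
  have : e.toEquiv.symm (e x) = x := e.toEquiv.symm_apply_apply x
  rw [this]

theorem bs_eI (z : Finset V → ZMod 2) (τ : Finset V') :
    bs z (eI e τ) = bs (fun τ' => z (eI e τ')) τ := by
  unfold bs
  have h1 : (Finset.univ \ eI e τ) = (Finset.univ \ τ).map e.symm.toEquiv.toEmbedding := by
    ext x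
    rw [Finset.mem_map_equiv, Finset.mem_sdiff, Finset.mem_sdiff, mem_eI]
    constructor
    · rintro ⟨_, h⟩
      exact ⟨Finset.mem_univ _, h⟩
    · rintro ⟨_, h⟩
      exact ⟨Finset.mem_univ _, h⟩
  rw [h1, Finset.sum_map]
  apply Finset.sum_congr rfl
  intro a _
  beta_reduce
  rw [← eI_insert]
  rfl

end Iso

theorem HomSphere.iso {V V' : Type} [Fintype V] [DecidableEq V] [Fintype V'] [DecidableEq V']
    {n : ℕ} {G : SimpleGraph V} {G' : SimpleGraph V'} (e : G ≃g G') (h : HomSphere n G) :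
    HomSphere n G' where
  dim := by
    intro σ hσ
    have h1 := h.dim (eI e σ) ((eI_cliq e σ).mpr hσ)
    rwa [card_eI] at h1
  acyclic := by
    intro σ hσ m hm hmn z hz hc
    have key : ∀ τ, bs (fun ρ => z (eI e.symm ρ)) (eI e τ) = bs z τ := by
      intro τ
      rw [bs_eI]
      congr 1
      funext τ'
      congr 1
      ext x
      rw [mem_eI, mem_eI]
      simp
    have key2 : ∀ τ, eI e.symm (eI e τ) = τ := by
      intro τ
      ext x
      rw [mem_eI, mem_eI]
      simp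
    obtain ⟨w, hw, hw'⟩ := h.acyclic (eI e σ) ((eI_cliq e σ).mpr hσ) m
      (by rw [card_eI]; omega) hmn (fun ρ => z (eI e.symm ρ))
      (fun τ hτ => hz _ (fun h => hτ ((eI_cliq e.symm τ).mp h)))
      (by
        intro τ hτ hs hcard
        obtain ⟨ρ, rfl⟩ := eI_surj e τ
        rw [key]
        rw [card_eI] at hcard
        exact hc ρ ((eI_cliq e ρ).mp hτ) ((eI_subset e _ _).mp hs) hcard)
    refine ⟨fun ρ => w (eI e ρ), fun ρ hρ => hw _ (fun h => hρ ((eI_cliq e ρ).mp h)), ?_⟩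
    intro ρ hρ hs hcard
    rw [← bs_eI, ← hw' (eI e ρ) ((eI_cliq e ρ).mpr hρ) ((eI_subset e _ _).mpr hs)
      (by rw [card_eI, hcard]), key2]
  top := by
    intro σ hσ z hz hc τ τ' hτ hτ' hs hs' hcard hcard'
    have key : ∀ τ, bs (fun ρ => z (eI e.symm ρ)) (eI e τ) = bs z τ := by
      intro τ
      rw [bs_eI]
      congr 1
      funext τ'
      congr 1
      ext x
      rw [mem_eI, mem_eI]
      simp
    have key2 : ∀ τ, eI e.symm (eI e τ) = τ := by
      intro τ
      ext x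
      rw [mem_eI, mem_eI]
      simp
    have h1 := h.top (eI e σ) ((eI_cliq e σ).mpr hσ) (fun ρ => z (eI e.symm ρ))
      (fun τ hτ => hz _ (fun h => hτ ((eI_cliq e.symm τ).mp h)))
      (by
        intro τ hτ hs hcard
        obtain ⟨ρ, rfl⟩ := eI_surj e τ
        rw [key]
        rw [card_eI] at hcard
        exact hc ρ ((eI_cliq e ρ).mp hτ) ((eI_subset e _ _).mp hs) hcard)
      (eI e τ) (eI e τ') ((eI_cliq e τ).mpr hτ) ((eI_cliq e τ').mpr hτ')
      ((eI_subset e _ _).mpr hs) ((eI_subset e _ _).mpr hs') (by rw [card_eI, hcard])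
      (by rw [card_eI, hcard'])
    simp only [key2] at h1
    exact h1
  ridge := by
    intro τ hτ hcard
    rw [← h.ridge (eI e τ) ((eI_cliq e τ).mpr hτ) (by rw [card_eI]; omega)]
    have h1 : {u | u ∉ eI e τ ∧ G.IsClique ((insert u (eI e τ) : Finset V) : Set V)} =
        e.symm '' {a : V' | a ∉ τ ∧ G'.IsClique ((insert a τ : Finset V') : Set V')} := by
      ext x
      constructor
      · rintro ⟨hx, hcl⟩
        refine ⟨e x, ⟨fun h => hx ((mem_eI e τ x).mpr h), ?_⟩, by simp⟩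
        have h2 : insert x (eI e τ) ∈ cliq G := hcl
        have h3 := eI_insert e τ (e x)
        rw [e.symm_apply_apply] at h3
        rw [h3] at h2
        exact (eI_cliq e _).mp h2
      · rintro ⟨a, ⟨ha, ha'⟩, rfl⟩
        refine ⟨fun h => ha (by simpa using (mem_eI e τ (e.symm a)).mp h), ?_⟩
        rw [eI_insert]
        exact (eI_cliq e _).mpr ha'
    rw [h1, Set.ncard_image_of_injective _ e.symm.injective]

theorem HS.nbr {V : Type} {n : ℕ} {G : SimpleGraph V} (h : HS (n + 1) G) (v : V) :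
    HS n (nbrG G v) := by
  obtain ⟨hV, h⟩ := h
  refine ⟨inferInstance, ?_⟩
  intro i1 i2
  classical
  have := Fintype.ofFinite V
  exact (h inferInstance inferInstance).nbr v

theorem HS.iso {V V' : Type} {n : ℕ} {G : SimpleGraph V} {G' : SimpleGraph V'} (e : G ≃g G')
    (h : HS n G) : HS n G' := by
  obtain ⟨hV, h⟩ := h
  refine ⟨Finite.of_equiv V e.toEquiv, ?_⟩
  intro i1 i2
  classical
  have := Fintype.ofFinite V
  exact (h inferInstance inferInstance).iso e

end SingerRA
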