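import Mathlib
import Pool.Agent.Lib_MP_394d50_vk.VDefs
import Pool.Agent.Lib_MP_394d50_vk.VSph
import Pool.Agent.Lib_MP_394d50_vk.VNbr

/-!
Piece VPOS: lower intervals of Gorenstein* posets (about 120-160 lines).

* `HS.unique`: by `HomSphere.facet` with `σ = ∅` there is a clique with `n` vertices, so `n ≤ k` by `dim`;
  symmetric.
* `HS.zero`: no vertex, since `{v}` is a clique with one vertex.
* `nbr_comp`: the identity on the underlying points.
* `nbr_max`: for a maximal `t` the elements comparable with `t` and different from `t` are those below `t`.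
* `below_below`: for `x < t`: `{y : {y // y < t} // y < x} ≃ {y // y < x}`.
* `HS.below`: induction on `n` (for all posets). `n = 0`: no vertex. `n + 1`: let `t ≥ x` be maximal in
  `P` (`P` is finite). `HS n (compG {y // y < t})` by `HS.nbr`, `nbr_max`, `HS.iso`. If `x = t`, done
  (`k = n`); otherwise `x < t` and the induction hypothesis for `{y // y < t}` and `x` gives
  `k < n` with `HS k` of the poset of the elements below `x` in it, then `below_below`.
* `exists_rank`: choose `rk x` by `HS.below`. For `x < y` apply `HS.below` to `{z // z < y}` and `x`, and use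
  `HS.unique`.
-/

namespace SingerRA

theorem HS.unique {V : Type} {n k : ℕ} {G : SimpleGraph V} (h : HS n G) (h' : HS k G) :
    n = k := by
  obtain ⟨hV, h⟩ := h
  obtain ⟨_, h'⟩ := h'
  classical
  have := Fintype.ofFinite V
  have h1 := h inferInstance inferInstance
  have h2 := h' inferInstance inferInstance
  have h0 : (∅ : Finset V) ∈ cliq G := by simp [cliq]
  obtain ⟨τ, hτ, _, hc⟩ := h1.facet ∅ h0
  obtain ⟨τ', hτ', _, hc'⟩ := h2.facet ∅ h0
  have h3 := h1.dim τ' hτ'
  have h4 := h2.dim τ hτ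
  omega

theorem HS.zero {V : Type} {G : SimpleGraph V} (h : HS 0 G) : IsEmpty V := by
  obtain ⟨hV, h⟩ := h
  classical
  have := Fintype.ofFinite V
  have h1 := h inferInstance inferInstance
  refine ⟨fun v => ?_⟩
  have h2 := h1.dim {v} (by simp)
  simp at h2

theorem nbr_comp {P : Type} [PartialOrder P] (x : P) :
    Nonempty (nbrG (compG P) x ≃g compG {y : P // x < y ∨ y < x}) :=
  ⟨⟨Equiv.refl _, Iff.rfl⟩⟩

theorem nbr_max {P : Type} [PartialOrder P] (t : P) (ht : ∀ y, ¬ t < y) :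
    Nonempty (nbrG (compG P) t ≃g compG {y : P // y < t}) :=
  ⟨⟨⟨fun y => ⟨y.1, y.2.resolve_left (ht _)⟩, fun y => ⟨y.1, Or.inr y.2⟩, fun _ => rfl,
    fun _ => rfl⟩, Iff.rfl⟩⟩

theorem below_below {P : Type} [PartialOrder P] (t : P) (x : {y : P // y < t}) :
    Nonempty (compG {y : {y : P // y < t} // y < x} ≃g compG {y : P // y < x.1}) :=
  ⟨⟨⟨fun y => ⟨y.1.1, y.2⟩, fun y => ⟨⟨y.1, y.2.trans x.2⟩, y.2⟩, fun _ => rfl,
    fun _ => rfl⟩, Iff.rfl⟩⟩

theorem HS.below {P : Type} [PartialOrder P] {n : ℕ} (h : HS n (compG P)) (x : P) :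
    ∃ k < n, HS k (compG {y : P // y < x}) := by
  induction n generalizing P with
  | zero => exact (h.zero.false x).elim
  | succ n ih =>
    have hfin : Finite P := h.1
    obtain ⟨t, hxt, ht⟩ : ∃ t, x ≤ t ∧ ∀ y, ¬ t < y := by
      obtain ⟨t, hxt, hmax⟩ := Finite.exists_le_maximal (p := fun _ : P => True) (a := x) trivial
      exact ⟨t, hxt, fun y hy => hmax.not_gt trivial hy⟩
    obtain ⟨e⟩ := nbr_max t ht
    have h1 : HS n (compG {y : P // y < t}) := (h.nbr t).iso e
    rcases hxt.eq_or_lt with rfl | hlt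
    · exact ⟨n, Nat.lt_succ_self n, h1⟩
    · obtain ⟨k, hk, hk'⟩ := ih h1 ⟨x, hlt⟩
      obtain ⟨e'⟩ := below_below t ⟨x, hlt⟩
      exact ⟨k, hk.trans (Nat.lt_succ_self n), hk'.iso e'⟩

theorem exists_rank {P : Type} [PartialOrder P] {n : ℕ} (h : HS n (compG P)) :
    ∃ rk : P → ℕ, (∀ x, rk x < n) ∧ (∀ x y, x < y → rk x < rk y) ∧
      ∀ x, HS (rk x) (compG {y : P // y < x}) := by
  choose rk h1 h2 using fun x => h.below x
  refine ⟨rk, h1, fun x y hxy => ?_, h2⟩
  obtain ⟨k, hk, hk'⟩ := (h2 y).below ⟨x, hxy⟩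
  obtain ⟨e⟩ := below_below y ⟨x, hxy⟩
  rw [(h2 x).unique (hk'.iso e)]
  exact hk

end SingerRA
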