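import Mathlib
import Pool.Agent.Lib_MP_394d50_vk.VDefs
import Pool.Agent.Lib_MP_394d50_vk.VJoin
import Pool.Agent.Lib_MP_394d50_vk.VPos
import Pool.Agent.Lib_MP_394d50_vk.VCore

/-!
Piece VODD: the middle degree for Gorenstein* posets of odd rank.

Let `rk` be as in `exists_rank`, `E = {x | Even (rk x)}`: it has the `m + 1` colours `rk x / 2`. Use
`SmallGrad.build` with `ord = rk`, `A x = {y | y < x}`.
-/

namespace SingerRA

theorem small_odd {P : Type} [PartialOrder P] (m : ℕ) (h : HS (2 * m + 1) (compG P))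
    (hcol : ∀ (U : Type) (f : U ↪ P) (c : U → Fin (m + 1)),
      (∀ u v, ((compG P).comap f).Adj u v → c u ≠ c v) → SmallGrad (m + 1) ((compG P).comap f))
    (hlow : ∀ (x : P) (k : ℕ), Odd k → k < 2 * m + 1 → HS k (compG {y : P // y < x}) →
      ∀ p, SmallGrad p (compG {y : P // y < x})) :
    SmallGrad (m + 1) (compG P) := by
  have hfin : Finite P := h.1
  obtain ⟨rk, h1, h2, h3⟩ := exists_rank h
  refine SmallGrad.build (compG P) (m + 1) {x | Even (rk x)} ?_ rk (fun x => {y | y < x})
    ?_ ?_ ?_ ?_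
  · refine hcol {x // Even (rk x)} (Function.Embedding.subtype _)
      (fun x => ⟨rk x.1 / 2, by have := h1 x.1; omega⟩) ?_
    rintro ⟨u, hu⟩ ⟨v, hv⟩ huv hcc
    have h4 : rk u / 2 = rk v / 2 := congrArg Fin.val hcc
    obtain ⟨a, ha⟩ := hu
    obtain ⟨b, hb⟩ := hv
    rcases huv with h5 | h5
    · have := h2 _ _ h5
      simp only [Function.Embedding.subtype_apply] at this
      omega
    · have := h2 _ _ h5
      simp only [Function.Embedding.subtype_apply] at this
      omega
  · intro x hx q
    have hx' : Odd (rk x) := Nat.not_even_iff_odd.mp hx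
    exact hlow x (rk x) hx' (h1 x) (h3 x) q
  · intro x _ a ha
    exact Or.inr ha
  · intro x _ a ha b hb hxb
    rcases hxb with h5 | h5
    · exact Or.inr (lt_trans ha h5)
    · exact absurd h5 hb
  · intro x _ a ha _
    exact h2 a x ha

end SingerRA
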