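import Mathlib
import Pool.Agent.Lib_MP_394d50_gt.EMain
import Pool.Agent.Lib_MP_394d50_gt.EHer
import Pool.Agent.Lib_MP_394d50_gt.TSmall
import Pool.Agent.Lib_MP_394d50_vk.VDefs
import Pool.Agent.Lib_MP_394d50_vk.VCore
import Pool.Agent.Lib_MP_394d50_vk.VOdd

/-!
Piece VMAIN: order complexes.
-/

namespace SingerRA

/-- T1: full subcomplexes of a homology sphere of dimension `2m` with `m + 1` colours. -/
theorem small_coloured {V : Type} {G : SimpleGraph V} (m : ℕ) (hS : HS (2 * m + 1) G) {U : Type}
    (f : U ↪ V) (c : U → Fin (m + 1)) (hc : ∀ u v, (G.comap f).Adj u v → c u ≠ c v) :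
    SmallGrad (m + 1) (G.comap f) := by
  classical
  have : Finite V := hS.1
  have : Finite U := Finite.of_injective f f.injective
  have iU : Fintype U := Fintype.ofFinite U
  apply SmallGrad.of_generic (G.comap f) (m + 1) c hc
  intro z h1 h2 h3
  exact stress_zero m hS f c hc z ⟨h1, h2, h3⟩

/-- For a homology sphere of odd type, small gradients above the middle give small gradients in all
degrees. -/
theorem HS.all_small {V : Type} {n : ℕ} {G : SimpleGraph V} (hS : HS n G) (hn : Odd n)
    (h : ∀ p, n < 2 * p → SmallGrad p G) (k : ℕ) : SmallGrad k G := by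
  classical
  have : Finite V := hS.1
  have iU : Fintype V := Fintype.ofFinite V
  refine small_of_upper (hS.2 _ _) h k ?_
  rintro rfl
  exact (Nat.not_odd_iff_even.mpr (even_two_mul k)) hn

theorem her_comp (n : ℕ) : ∀ {P : Type} [PartialOrder P], HS n (compG P) → ∀ p, n < 2 * p →
    Her p (compG P) := by
  induction n using Nat.strong_induction_on with
  | _ n IH =>
    intro P _ h p hp
    have hfin : Finite P := h.1
    rcases n with _ | n
    · have hE : IsEmpty P := h.zero
      intro U f
      have : IsEmpty U := Function.isEmpty f
      exact SmallGrad.of_isEmpty _ p (by omega)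
    · have hlink : ∀ x : P, ∀ q, n < 2 * q → Her q (nbrG (compG P) x) := by
        intro x q hq
        obtain ⟨e⟩ := nbr_comp x
        have h1 : HS n (compG {y : P // x < y ∨ y < x}) := (h.nbr x).iso e
        have h2 := IH n (by omega) h1 q hq
        intro U f
        let g : U ↪ {y : P // x < y ∨ y < x} := f.trans e.toEquiv.toEmbedding
        have h3 := h2 U g
        have : Finite U := Finite.of_injective g g.injective
        have e' : (compG {y : P // x < y ∨ y < x}).comap g ≃g (nbrG (compG P) x).comap f :=
          ⟨Equiv.refl U, fun {a b} => (e.map_rel_iff (a := f a) (b := f b)).symm⟩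
        exact SmallGrad.iso e' q h3
      obtain ⟨q, rfl⟩ : ∃ q, p = q + 1 := ⟨p - 1, by omega⟩
      by_cases hq : n < 2 * q
      · exact her_of_links q _ fun x => hlink x q hq
      · obtain rfl : n = 2 * q := by omega
        refine her_of_small (q + 1) (by omega) _ ?_ fun x => hlink x (q + 1) (by omega)
        refine small_odd q h (fun U f c hc => small_coloured q h f c hc) ?_
        intro x k hk hk2 h1
        exact h1.all_small hk fun p hp => by
          have := h1.1
          exact (IH k hk2 h1 p hp).small

theorem small_comp {P : Type} [PartialOrder P] {n : ℕ} (h : HS n (compG P)) (k : ℕ)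
    (hk : 2 * k ≠ n) : SmallGrad k (compG P) := by
  classical
  have : Finite P := h.1
  have iU : Fintype P := Fintype.ofFinite P
  exact small_of_upper (h.2 _ _) (fun p hp => (her_comp n h p hp).small) k hk

end SingerRA
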