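import Mathlib
import Pool.Agent.Lib_MP_394d50_gt.Defs3
import Pool.Agent.Lib_MP_394d50_gt.DLink
import Pool.Agent.Lib_MP_394d50_gt.EMain
import Pool.Agent.Lib_MP_394d50_gt.EHer
import Pool.Agent.Lib_MP_394d50_vk.VClass
import Pool.Agent.Lib_MP_394d50_vk.VMain

/-! The class `Tame3`: closed under links, vanishing, order complexes. -/

namespace SingerRA

theorem Tame3.finite {n : ℕ} {V : Type} {G : SimpleGraph V} (h : Tame3 n G) : Finite V := by
  induction h with
  | empty hV G => exact Finite.of_subsingleton
  | susp h ih => exact Finite.instSum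
  | subdiv h hst ih => exact inferInstance
  | even hn hV G h ih => exact hV
  | odd G hS => exact hS.1
  | iso h e ih => exact Finite.of_equiv _ e.toEquiv

theorem Tame3.no_vertex {V : Type} {G : SimpleGraph V} (h : Tame3 0 G) : IsEmpty V := by
  generalize hm : 0 = m at h
  induction h with
  | empty hV G => exact hV
  | susp h ih => exact absurd hm (by omega)
  | subdiv h hst ih =>
    have := ih hm
    exact (this.false ‹_›).elim
  | even hn hV G h ih => exact absurd hm (by omega)
  | odd G hS => exact absurd hm (by omega)
  | iso h e ih =>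
    have := ih hm
    exact e.symm.toEquiv.isEmpty

theorem Tame3.link {n : ℕ} {V : Type} {G : SimpleGraph V} (h : Tame3 (n + 1) G) (v : V) :
    Tame3 n (nbrG G v) := by
  induction n generalizing V with
  | zero =>
    generalize hm : 0 + 1 = m at h
    induction h with
    | empty hV G => exact absurd hm (by omega)
    | @susp n' V G h ih =>
      obtain rfl : n' = 0 := by omega
      rcases v with a | b
      · exact (h.no_vertex.false a).elim
      · obtain ⟨e⟩ := nbrG_susp_inr G b
        exact Tame3.iso h e
    | @subdiv n' V G h s t hst ih =>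
      exact ((ih s hm).no_vertex.false ⟨t, hst⟩).elim
    | @even n' hn V hV G h ih =>
      obtain rfl : n' = 0 := by omega
      exact h v
    | @odd m V G hS hl =>
      obtain rfl : m = 0 := by omega
      exact hl v
    | iso h e ih =>
      obtain ⟨e'⟩ := nbrG_iso e v
      exact Tame3.iso (ih (e.symm v) hm) e'
  | succ n ihn =>
    generalize hm : n + 1 + 1 = m at h
    induction h with
    | empty hV G => exact absurd hm (by omega)
    | @susp n' V G h ih =>
      obtain rfl : n' = n + 1 := by omega
      rcases v with a | b
      · obtain ⟨e⟩ := nbrG_susp_inl G a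
        exact Tame3.iso (Tame3.susp (ihn h a)) e
      · obtain ⟨e⟩ := nbrG_susp_inr G b
        exact Tame3.iso h e
    | @subdiv n' V G h s t hst ih =>
      rcases v with _ | a
      · obtain ⟨e⟩ := nbrG_subdiv_none G s t hst
        obtain ⟨e'⟩ := linkG_iso G s t hst
        have h1 := ihn (ih s hm) ⟨t, hst⟩
        exact Tame3.iso (Tame3.susp (Tame3.iso h1 e'.symm)) e
      · by_cases h1 : a = s
        · subst h1
          obtain ⟨e⟩ := nbrG_subdiv_left G a t hst
          exact Tame3.iso (ih a hm) e
        · by_cases h2 : a = t
          · subst h2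
            rw [subdivG_comm]
            obtain ⟨e⟩ := nbrG_subdiv_left G a s hst.symm
            exact Tame3.iso (ih a hm) e
          · by_cases h3 : G.Adj s a ∧ G.Adj t a
            · obtain ⟨e⟩ := nbrG_subdiv_common G s t a h3.1.symm h3.2.symm
              exact Tame3.iso (Tame3.subdiv (s := ⟨s, h3.1.symm⟩) (t := ⟨t, h3.2.symm⟩)
                (ih a hm) hst) e
            · obtain ⟨e⟩ := nbrG_subdiv_other G s t a h1 h2 h3
              exact Tame3.iso (ih a hm) e
    | @even n' hn V hV G h ih =>
      obtain rfl : n' = n + 1 := by omega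
      exact h v
    | @odd m V G hS hl =>
      have h2 : 2 * m = n + 1 := by omega
      rw [← h2]
      exact hl v
    | iso h e ih =>
      obtain ⟨e'⟩ := nbrG_iso e v
      exact Tame3.iso (ih (e.symm v) hm) e'

theorem Tame3.no_adj {V : Type} {G : SimpleGraph V} (h : Tame3 1 G) (u v : V) : ¬ G.Adj u v :=
  fun huv => (h.link u).no_vertex.false ⟨v, huv⟩

theorem Tame3.linkG {n : ℕ} {V : Type} {G : SimpleGraph V} (h : Tame3 (n + 2) G) (s t : V)
    (hst : G.Adj s t) : Tame3 n (linkG G s t) := by
  obtain ⟨e⟩ := linkG_iso G s t hst
  exact Tame3.iso ((h.link s).link ⟨t, hst⟩) e.symm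

theorem Tame.tame3 {n : ℕ} {V : Type} {G : SimpleGraph V} (h : Tame n G) : Tame3 n G := by
  induction h with
  | empty hV G => exact Tame3.empty hV G
  | susp _ ih => exact Tame3.susp ih
  | subdiv _ hst ih => exact Tame3.subdiv ih hst
  | even hn hV G _ ih => exact Tame3.even hn hV G ih
  | iso _ e ih => exact Tame3.iso ih e

/-- The middle degree for the rule `odd`. -/
theorem small_rule {m : ℕ} {V : Type} (G : SimpleGraph V) (hS : HS (2 * m + 1) G)
    (E : Set V) (c : V → Fin (m + 1)) (hc : ∀ u ∈ E, ∀ v ∈ E, G.Adj u v → c u ≠ c v)
    (ord : V → ℕ) (A : V → Set V) (hA : ∀ o, o ∉ E → ∀ q, SmallGrad q (G.induce (A o)))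
    (hadj : ∀ o, o ∉ E → ∀ a ∈ A o, G.Adj o a)
    (hjoin : ∀ o, o ∉ E → ∀ a ∈ A o, ∀ b, b ∉ A o → G.Adj o b → G.Adj b a)
    (hord : ∀ o, o ∉ E → ∀ a ∈ A o, a ∉ E → ord a < ord o) : SmallGrad (m + 1) G := by
  have := hS.1
  exact SmallGrad.build G (m + 1) E
    (small_coloured m hS (Function.Embedding.subtype _) (fun u : E => c u)
      (fun u v huv => hc u u.2 v v.2 huv)) ord A hA hadj hjoin hord

theorem small_of_tame3_aux {m : ℕ} {V : Type} {G : SimpleGraph V} (h : Tame3 m G) :
    (∀ m' < m, ∀ (V : Type) (G : SimpleGraph V), Tame3 m' G → ∀ p, m' < 2 * p → Her p G) →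
    ∀ p, m < 2 * p → SmallGrad p G := by
  induction h with
  | @empty V hV G =>
    intro _ p hp
    exact SmallGrad.of_isEmpty G p (by omega)
  | @susp n V G h ih =>
    intro _ p _
    have := h.finite
    exact SmallGrad.susp G p
  | @subdiv n V G h s t hst ih =>
    intro IH p hp
    have hfin := h.finite
    refine SmallGrad.subdiv G s t hst p (ih IH p hp) ?_
    intro j hj
    rcases n with _ | _ | n
    · exact (h.no_vertex.false s).elim
    · exact (h.no_adj s t hst).elim
    · have hl := h.linkG s t hst
      have := hl.finite
      exact (IH n (by omega) _ _ hl j (by omega)).small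
  | @even n hn V hV G h ih =>
    intro IH p hp
    obtain ⟨q, rfl⟩ : ∃ q, p = q + 1 := ⟨p - 1, by omega⟩
    have hq : n < 2 * q := by
      obtain ⟨r, hr⟩ := hn
      omega
    exact (her_of_links q G fun v => IH n (by omega) _ _ (h v) q hq).small
  | @odd m V G hS hl E c hc ord A k hk hAS hA hadj hjoin hord ih1 ih2 =>
    intro IH p hp
    have hV := hS.1
    obtain ⟨q, rfl⟩ : ∃ q, p = q + 1 := ⟨p - 1, by omega⟩
    by_cases hq : 2 * m < 2 * q
    · exact (her_of_links q G fun v => IH (2 * m) (by omega) _ _ (hl v) q hq).small
    · obtain rfl : q = m := by omega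
      refine small_rule G hS E c hc ord A ?_ hadj hjoin hord
      intro o ho
      have hko : k o < 2 * q + 1 := by
        have hAf := (hAS o ho).1
        have iA : Fintype (A o) := Fintype.ofFinite _
        classical
        obtain ⟨τ, hτ, _, hc⟩ := ((hAS o ho).2 _ _).facet ∅ (by
          show (G.induce (A o)).IsClique ((∅ : Finset (A o)) : Set (A o))
          simp)
        have iV : Fintype V := Fintype.ofFinite _
        have h1 : G.IsClique ((insert o (τ.map (Function.Embedding.subtype _)) : Finset V) :
            Set V) := by
          rw [Finset.coe_insert, SimpleGraph.isClique_insert]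
          refine ⟨?_, ?_⟩
          · intro a ha b hb hab
            simp only [Finset.coe_map, Set.mem_image, Finset.mem_coe] at ha hb
            obtain ⟨a', ha', rfl⟩ := ha
            obtain ⟨b', hb', rfl⟩ := hb
            exact hτ ha' hb' (fun h => hab (congrArg _ h))
          · intro b hb _
            simp only [Finset.coe_map, Set.mem_image, Finset.mem_coe] at hb
            obtain ⟨b', hb', rfl⟩ := hb
            exact hadj o ho _ b'.2
        have h2 := (hS.2 iV (Classical.decEq V)).dim _ h1
        have h3 : o ∉ τ.map (Function.Embedding.subtype _) := by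
          intro h
          simp only [Finset.mem_map] at h
          obtain ⟨b', hb', hb⟩ := h
          have := hadj o ho _ b'.2
          rw [show b'.1 = o from hb] at this
          exact G.loopless.irrefl _ this
        rw [Finset.card_insert_of_notMem h3, Finset.card_map, hc] at h2
        obtain ⟨r, hr⟩ := hk o ho
        omega
      exact (hAS o ho).all_small (hk o ho) fun p hp => by
        have := (hAS o ho).1
        exact (IH (k o) hko _ _ (hA o ho) p hp).small
  | @iso n V V' G G' h e ih =>
    intro IH p hp
    have hfin := h.finite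
    exact SmallGrad.iso e p (ih IH p hp)

theorem her_of_tame3 {n : ℕ} {V : Type} {G : SimpleGraph V} (h : Tame3 n G) (p : ℕ)
    (hp : n < 2 * p) : Her p G := by
  induction n using Nat.strong_induction_on generalizing V p with
  | _ n IH =>
    have hfin := h.finite
    have h0 : SmallGrad p G := small_of_tame3_aux h
      (fun m' hm' V G hG p hp => IH m' hm' hG p hp) p hp
    refine her_of_small p (by omega) G h0 ?_
    intro v
    rcases n with _ | n
    · exact (h.no_vertex.false v).elim
    · exact IH n (by omega) (h.link v) p (by omega)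

theorem small_of_tame3 {n : ℕ} {V : Type} [Fintype V] [DecidableEq V] {G : SimpleGraph V}
    (h : Tame3 n G) (hS : HomSphere n G) (k : ℕ) (hk : 2 * k ≠ n) : SmallGrad k G :=
  small_of_upper hS (fun p hp => (her_of_tame3 h p hp).small) k hk

/-- Order complexes which are homology spheres are in the class. -/
theorem tame3_comp (n : ℕ) : ∀ {P : Type} [PartialOrder P], HS n (compG P) →
    Tame3 n (compG P) := by
  induction n using Nat.strong_induction_on with
  | _ n IH =>
    intro P _ h
    have hfin : Finite P := h.1
    rcases n with _ | n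
    · exact Tame3.empty h.zero _
    · have hlink : ∀ x : P, Tame3 n (nbrG (compG P) x) := by
        intro x
        obtain ⟨e⟩ := nbr_comp x
        have h1 : HS n (compG {y : P // x < y ∨ y < x}) := (h.nbr x).iso e
        exact Tame3.iso (IH n (by omega) h1) e.symm
      rcases Nat.even_or_odd n with hn | hn
      · obtain ⟨m, rfl⟩ := hn
        obtain ⟨rk, h1, h2, h3⟩ := exists_rank h
        have e0 : m + m + 1 = 2 * m + 1 := by omega
        have e1 : m + m = 2 * m := by omega
        rw [e0] at h ⊢
        rw [e1] at hlink
        refine Tame3.odd (compG P) h hlink {x | Even (rk x)}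
          (fun x => ⟨rk x / 2, by have := h1 x; omega⟩) ?_ rk (fun x => {y | y < x}) rk ?_ ?_ ?_
          ?_ ?_ ?_
        · rintro u ⟨a, ha⟩ v ⟨b, hb⟩ huv hcc
          have h4 : rk u / 2 = rk v / 2 := congrArg Fin.val hcc
          rcases huv with h5 | h5
          · have := h2 _ _ h5
            omega
          · have := h2 _ _ h5
            omega
        · intro o ho
          exact Nat.not_even_iff_odd.mp ho
        · intro o _
          exact h3 o
        · intro o _
          exact IH (rk o) (h1 o) (h3 o)
        · intro x _ a ha
          exact Or.inr ha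
        · intro x _ a ha b hb hxb
          rcases hxb with h5 | h5
          · exact Or.inr (lt_trans ha h5)
          · exact absurd h5 hb
        · intro x _ a ha _
          exact h2 a x ha
      · exact Tame3.even hn hfin _ hlink

end SingerRA
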