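import Mathlib
import Pool.Agent.Lib_MP_394d50_gt.Defs2
import Pool.Agent.Lib_MP_394d50_gt.AOne
import Pool.Agent.Lib_MP_394d50_gt.ACover

/-!
Piece SDBL: relative version of `bettiF_double` (ACover.lean), about 130-160 lines.

Copy the proof of `bettiF_double` (`ACover.lean`, line 142) with these changes. `N = covN V s z`. The image
of `IC a T k` under `N` is `IC b T1 k`: for `σ ∈ T`, `σ ∉ T1` the component `c σ x + c σ (z * x)` vanishes by
`hzT`; for `σ ∈ T1` use `hsurj`. The kernel of `N` on `IC a T k` is contained in the pull back of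
`IC b T k` (same proof as `hker`). So `cdim a T k ≤ cdim b T k + cdim b T1 k`. Ranks: `(IC a T k).map (dT A T)` is mapped by
`N` onto `(IC b T1 k).map (dT B T) = (IC b T1 k).map (dT B T1)` (`map_N_dT`, `aone_dT_eq_of_mem`), and it contains the
pull back of `(IC b T k).map (dT B T)`, which is killed by `N`; so `rk b T k + rk b T1 k ≤ rk a T k`
(`cov_finrank_le`, `cov_finrank_map_inj`). Conclude with `bettiF = cdim - rk - rk`.
-/

namespace SingerRA

variable {V : Type} [Fintype V] [DecidableEq V] {A : Type} [Group A] [Finite A]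

theorem bettiF_double_rel {B : Type} [Group B] (π : A →* B) (hπ : Function.Surjective π)
    (z : A) (hz : ∀ x, π x = 1 ↔ x = 1 ∨ x = z) (hz1 : z ≠ 1) (a : V → A)
    (T T1 : Set (Finset V)) (h1 : T1 ⊆ T)
    (hd : ∀ σ ∈ T1, ∀ τ ∈ T, τ ⊆ σ → τ ∈ T1)
    (hsurj : ∀ σ ∈ T1, ∀ f : B → ZMod 2, (∀ v ∈ σ, ∀ x, f (x * π (a v)) = f x) →
      ∃ g : A → ZMod 2, (∀ v ∈ σ, ∀ x, g (x * a v) = g x) ∧ ∀ x, g x + g (z * x) = f (π x))
    (hzT : ∀ σ ∈ T, σ ∉ T1 → ∀ f : A → ZMod 2, (∀ v ∈ σ, ∀ x, f (x * a v) = f x) →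
      ∀ x, f (z * x) = f x) (k : ℕ) :
    bettiF a T k ≤ bettiF (fun v => π (a v)) T k + bettiF (fun v => π (a v)) T1 k := by
  classical
  have : Finite B := Finite.of_surjective π hπ
  have hπz : π z = 1 := (hz z).2 (Or.inr rfl)
  have hzz : z * z = 1 := by
    rcases (hz (z * z)).1 (by rw [map_mul, hπz, one_mul]) with h1 | h1
    · exact h1
    · exact absurd (mul_eq_left.1 h1) hz1
  -- section
  let s : B → A := Function.surjInv hπ
  have hs : ∀ y, π (s y) = y := Function.surjInv_eq hπ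
  have hsx : ∀ x, s (π x) = x ∨ s (π x) = z * x := by
    intro x
    have h1 : π (s (π x) * x⁻¹) = 1 := by rw [map_mul, hs, map_inv, mul_inv_cancel]
    rcases (hz _).1 h1 with h2 | h2
    · exact Or.inl (mul_inv_eq_one.1 h2)
    · exact Or.inr (mul_inv_eq_iff_eq_mul.1 h2)
  have hN : ∀ (c : Finset V → A → ZMod 2) σ x,
      covN V s z c σ (π x) = c σ x + c σ (z * x) := by
    intro c σ x
    show c σ (s (π x)) + c σ (z * s (π x)) = _
    rcases hsx x with h1 | h1
    · rw [h1]
    · rw [h1, ← mul_assoc, hzz, one_mul, add_comm]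
  set b : V → B := fun v => π (a v) with hb
  have hNmem : ∀ k, ∀ c ∈ IC a T k, covN V s z c ∈ IC b T1 k := by
    rintro k c ⟨hc1, hc2⟩
    refine ⟨fun σ hσ => ?_, fun σ v hv y => ?_⟩
    · funext y
      obtain ⟨x, rfl⟩ := hπ y
      rw [hN]
      by_cases hT : σ ∈ T ∧ σ.card = k
      · have hT1 : σ ∉ T1 := fun h' => hσ ⟨h', hT.2⟩
        rw [hzT σ hT.1 hT1 (c σ) (fun v hv x => hc2 σ v hv x) x]
        exact CharTwo.add_self_eq_zero _
      · rw [hc1 σ hT]; simp
    · obtain ⟨x, rfl⟩ := hπ y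
      show covN V s z c σ (π x * π (a v)) = covN V s z c σ (π x)
      rw [← map_mul, hN, hN, hc2 σ v hv, ← mul_assoc, hc2 σ v hv]
  have hNsurj : ∀ k, (IC a T k).map (covN V s z) = IC b T1 k := by
    intro k
    apply le_antisymm
    · rintro _ ⟨c, hc, rfl⟩
      exact hNmem k c hc
    · intro c hc
      have hex : ∀ σ : Finset V, ∃ g : A → ZMod 2, (∀ v ∈ σ, ∀ x, g (x * a v) = g x) ∧
          ∀ x, g x + g (z * x) = c σ (π x) := by
        intro σ
        by_cases hσ : σ ∈ T1
        · exact hsurj σ hσ (c σ) (fun v hv x => hc.2 σ v hv x)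
        · refine ⟨fun _ => 0, fun _ _ _ => rfl, fun x => ?_⟩
          rw [hc.1 σ (fun h1 => hσ h1.1)]
          simp
      choose g hg1 hg2 using hex
      refine ⟨fun σ => if σ ∈ T1 ∧ σ.card = k then g σ else 0, ⟨fun σ hσ => ?_,
        fun σ v hv x => ?_⟩, ?_⟩
      · exact if_neg (fun h' => hσ ⟨h1 h'.1, h'.2⟩)
      · show (if σ ∈ T1 ∧ σ.card = k then g σ else 0) (x * a v) =
          (if σ ∈ T1 ∧ σ.card = k then g σ else 0) x
        split_ifs
        · exact hg1 σ v hv x
        · rfl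
      · funext σ y
        obtain ⟨x, rfl⟩ := hπ y
        rw [hN]
        split_ifs with hσ
        · exact hg2 σ x
        · rw [hc.1 σ hσ]; simp
  have hker : ∀ k, ∀ c ∈ IC a T k, covN V s z c = 0 → c ∈ (IC b T k).map (covPull V π) := by
    intro k c hc h0
    have hcz : ∀ σ x, c σ (z * x) = c σ x := by
      intro σ x
      have h1 := hN c σ x
      rw [h0] at h1
      have h2 : c σ x + c σ (z * x) = 0 := h1.symm
      have h3 := CharTwo.add_self_eq_zero (c σ x)
      exact (add_left_cancel (h2.trans h3.symm))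
    have hcs : ∀ σ x, c σ (s (π x)) = c σ x := by
      intro σ x
      rcases hsx x with h1 | h1
      · rw [h1]
      · rw [h1, hcz]
    refine ⟨fun σ y => c σ (s y), ⟨fun σ hσ => ?_, fun σ v hv y => ?_⟩, ?_⟩
    · funext y
      show c σ (s y) = 0
      rw [hc.1 σ hσ]; rfl
    · obtain ⟨x, rfl⟩ := hπ y
      show c σ (s (π x * π (a v))) = c σ (s (π x))
      rw [← map_mul, hcs, hcs]
      exact hc.2 σ v hv x
    · funext σ x
      exact hcs σ x
  have hpull0 : ∀ c : Finset V → B → ZMod 2, covN V s z (covPull V π c) = 0 := by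
    intro c
    funext σ y
    obtain ⟨x, rfl⟩ := hπ y
    rw [hN]
    show c σ (π x) + c σ (π (z * x)) = 0
    rw [map_mul, hπz, one_mul]
    exact CharTwo.add_self_eq_zero _
  have hpinj := covPull_inj (V := V) π hπ
  have hcd : ∀ k, cdim a T k ≤ cdim b T k + cdim b T1 k := by
    intro k
    unfold cdim
    have h1 := cov_finrank_ge (covN V s z) (IC a T k) ((IC b T k).map (covPull V π)) (hker k)
    rw [hNsurj, cov_finrank_map_inj _ _ hpinj] at h1
    omega
  have hT1 : ∀ k, (IC b T1 k).map (dT B T) = (IC b T1 k).map (dT B T1) := by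
    intro k
    ext x
    constructor
    · rintro ⟨c, hc, rfl⟩
      exact ⟨c, hc, (aone_dT_eq_of_mem b T T1 h1 hd k c hc).symm⟩
    · rintro ⟨c, hc, rfl⟩
      exact ⟨c, hc, aone_dT_eq_of_mem b T T1 h1 hd k c hc⟩
  have hrk : ∀ k, rk b T k + rk b T1 k ≤ rk a T k := by
    intro k
    unfold rk
    have h1 := cov_finrank_le (covN V s z) ((IC a T k).map (dT A T))
      (((IC b T k).map (dT B T)).map (covPull V π)) (by
        rw [← map_pull_dT]
        apply Submodule.map_mono
        rintro _ ⟨c, hc, rfl⟩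
        exact covPull_mem π a T k c hc) (by
        rintro _ ⟨c, _, rfl⟩
        exact hpull0 c)
    rw [← map_N_dT, hNsurj, hT1, cov_finrank_map_inj _ _ hpinj] at h1
    omega
  unfold bettiF
  have h1 := hcd k
  have h2 := hrk k
  have h3 := hrk (k + 1)
  linarith

end SingerRA
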