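import Mathlib
import Pool.Agent.Lib_MP_394d50_gt.Defs
import Pool.Agent.Lib_MP_394d50_gt.Defs2

/-!
# MP_394d50_gt: contraction of an edge of a flag complex
-/

namespace SingerRA

/-- The graph of the contraction of the edge `{u, w}`, on the vertex set `V`: the vertex `w` becomes
isolated and `u` is joined to all the neighbours of `u` and of `w`. -/
def contrH {V : Type} (G : SimpleGraph V) (u w : V) : SimpleGraph V where
  Adj x y := x ≠ w ∧ y ≠ w ∧ x ≠ y ∧ (G.Adj x y ∨ (x = u ∧ G.Adj w y) ∨ (y = u ∧ G.Adj w x))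
  symm := ⟨by
    rintro x y ⟨h1, h2, h3, h4⟩
    refine ⟨h2, h1, h3.symm, ?_⟩
    rcases h4 with h | h | h
    · exact Or.inl h.symm
    · exact Or.inr (Or.inr h)
    · exact Or.inr (Or.inl h)⟩
  loopless := ⟨fun _ h => h.2.2.1 rfl⟩

/-- The contraction of the edge `{u, w}` of a flag complex, on the vertex set `V ∖ {w}`: the
new vertex (called `u`) is adjacent to all the neighbours of `u` and of `w`. -/
def contrG {V : Type} (G : SimpleGraph V) (u w : V) : SimpleGraph {x : V // x ≠ w} :=
  (contrH G u w).comap Subtype.val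

/-- The edge `{u, w}` is not contained in an induced `4`-cycle `u, w, y, x`. -/
def NoSquare {V : Type} (G : SimpleGraph V) (u w : V) : Prop :=
  ∀ x y, G.Adj u x → x ≠ w → ¬ G.Adj w x → G.Adj w y → y ≠ u → ¬ G.Adj u y → ¬ G.Adj x y

end SingerRA
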