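import Mathlib
import Pool.Agent.Lib_MP_394d50_gt.Defs2
import Pool.Agent.Lib_MP_394d50_gt.AOne
import Pool.Agent.Lib_MP_394d50_gt.ALink
import Pool.Agent.Lib_MP_394d50_gt.EAdd
import Pool.Agent.Lib_MP_394d50_vk.SDefs

/-!
Piece SLNK: the cells containing both `u` and `w`, over a group with `b u = b w` (about 100-140
lines).

Let `S = {σ ∈ cliq G, u ∈ σ, w ∈ σ}` and `F = {τ | w ∉ τ, u ∈ τ, insert w τ ∈ cliq G}`. Removing `w` gives a bijection
`S → F`, and because `b w = b u` and `u ∈ τ` for `τ ∈ F` the invariance conditions are the same, so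
`bettiF b S (k + 2) = bettiF b F (k + 1)` (linear injection `c ↦ (fun τ => if w ∈ τ then 0 else c (insert w τ))`
on `IC b S (k+2)` with image `IC b F (k+1)`, commuting with `dT`; as in AReindex.lean). Only `≤` is
needed. Then `bettiF_link` (ALink.lean) for `F' = {τ | w ∉ τ, insert w τ ∈ cliq G}` and `v = u`
(`F = {τ ∈ F', u ∈ τ}`; `OK b F'` follows from `hOK`, `F' ⊆ {σ ∈ cliq G, w ∉ σ}`, see `OK_mono`/`OK.subset`):
`bettiF b F (k + 1) ≤ bettiF b {τ | u ∉ τ ∧ insert u τ ∈ F'} k`, and this family is
`cliqP G (fun x => G.Adj u x ∧ G.Adj w x)`.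
-/

namespace SingerRA

/-- removal of the vertex `w` -/
private def rmv {V : Type} [DecidableEq V] {B : Type} (w : V) :
    (Finset V → B → ZMod 2) →ₗ[ZMod 2] (Finset V → B → ZMod 2) where
  toFun c := fun τ => if w ∈ τ then 0 else c (insert w τ)
  map_add' c d := by
    funext τ
    simp only [Pi.add_apply]
    split_ifs <;> simp
  map_smul' r c := by
    funext τ
    simp only [Pi.smul_apply, RingHom.id_apply]
    split_ifs <;> simp

private theorem rmv_apply {V : Type} [DecidableEq V] {B : Type} (w : V)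
    (c : Finset V → B → ZMod 2) (τ : Finset V) :
    rmv w c τ = if w ∈ τ then 0 else c (insert w τ) := rfl

private theorem rmv_inj {V : Type} [DecidableEq V] {B : Type} (w : V)
    (c : Finset V → B → ZMod 2) (hc : ∀ σ, w ∉ σ → c σ = 0) (h : rmv w c = 0) : c = 0 := by
  funext σ
  by_cases hσ : w ∈ σ
  · have h1 := congrFun h (σ.erase w)
    rw [rmv_apply, if_neg (Finset.notMem_erase w σ), Finset.insert_erase hσ] at h1
    exact h1
  · exact hc σ hσ

private theorem bettiF_rmv {V : Type} [Fintype V] [DecidableEq V] {B : Type} [Group B] [Finite B]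
    (G : SimpleGraph V) (u w : V) (huw : u ≠ w) (b : V → B) (hb : b u = b w) (k : ℕ) :
    bettiF b {σ | σ ∈ cliq G ∧ u ∈ σ ∧ w ∈ σ} (k + 1) =
      bettiF b {τ | (w ∉ τ ∧ insert w τ ∈ cliq G) ∧ u ∈ τ} k := by
  classical
  set S : Set (Finset V) := {σ | σ ∈ cliq G ∧ u ∈ σ ∧ w ∈ σ} with hS
  set F : Set (Finset V) := {τ | (w ∉ τ ∧ insert w τ ∈ cliq G) ∧ u ∈ τ} with hF
  have hSF : ∀ τ, w ∉ τ → (insert w τ ∈ S ↔ τ ∈ F) := by
    intro τ hτ
    constructor
    · rintro ⟨h1, h2, _⟩
      refine ⟨⟨hτ, h1⟩, ?_⟩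
      rcases Finset.mem_insert.mp h2 with h3 | h3
      · exact absurd h3 huw
      · exact h3
    · rintro ⟨⟨_, h1⟩, h2⟩
      exact ⟨h1, Finset.mem_insert_of_mem h2, Finset.mem_insert_self _ _⟩
  have hIC : ∀ j, (IC b S (j + 1)).map (rmv w) = IC b F j := by
    intro j
    apply le_antisymm
    · rintro _ ⟨c, ⟨h1, h2⟩, rfl⟩
      refine ⟨?_, ?_⟩
      · intro τ hτ
        rw [rmv_apply]
        by_cases hw : w ∈ τ
        · rw [if_pos hw]
        · rw [if_neg hw]
          apply h1
          rintro ⟨h3, h4⟩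
          apply hτ
          rw [Finset.card_insert_of_notMem hw] at h4
          exact ⟨(hSF τ hw).mp h3, by omega⟩
      · intro τ v hv x
        rw [rmv_apply]
        by_cases hw : w ∈ τ
        · rw [if_pos hw]; rfl
        · rw [if_neg hw]
          exact h2 _ v (Finset.mem_insert_of_mem hv) x
    · rintro e ⟨h1, h2⟩
      refine ⟨fun σ => if w ∈ σ then e (σ.erase w) else 0, ⟨?_, ?_⟩, ?_⟩
      · intro σ hσ
        show (if w ∈ σ then e (σ.erase w) else 0) = 0
        by_cases hw : w ∈ σ
        · rw [if_pos hw]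
          apply h1
          rintro ⟨h3, h4⟩
          apply hσ
          have h5 := (hSF _ (Finset.notMem_erase w σ)).mpr h3
          rw [Finset.insert_erase hw] at h5
          rw [Finset.card_erase_of_mem hw] at h4
          have := Finset.card_pos.mpr ⟨w, hw⟩
          exact ⟨h5, by omega⟩
        · rw [if_neg hw]
      · intro σ v hv x
        show (if w ∈ σ then e (σ.erase w) else 0) (x * b v) =
          (if w ∈ σ then e (σ.erase w) else 0) x
        by_cases hw : w ∈ σ
        · rw [if_pos hw]
          by_cases hvw : v = w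
          · subst hvw
            by_cases hu : u ∈ σ.erase v
            · rw [← hb]
              exact h2 _ u hu x
            · have h3 : e (σ.erase v) = 0 := h1 _ (fun h4 => hu h4.1.2)
              rw [h3]; rfl
          · exact h2 _ v (Finset.mem_erase.mpr ⟨hvw, hv⟩) x
        · rw [if_neg hw]; rfl
      · funext τ
        rw [rmv_apply]
        by_cases hw : w ∈ τ
        · rw [if_pos hw]
          exact (h1 τ (fun h3 => h3.1.1.1 hw)).symm
        · rw [if_neg hw, if_pos (Finset.mem_insert_self w τ), Finset.erase_insert hw]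
  have hd : ∀ c : Finset V → B → ZMod 2, rmv w (dT B S c) = dT B F (rmv w c) := by
    intro c
    funext τ
    rw [rmv_apply]
    by_cases hw : w ∈ τ
    · rw [if_pos hw]
      by_cases hτ : τ ∈ F
      · exact absurd hw hτ.1.1
      · exact (if_neg hτ).symm
    · rw [if_neg hw]
      by_cases hτ : τ ∈ F
      · have e1 : dT B S c (insert w τ) = ∑ v ∈ Finset.univ \ insert w τ, c (insert v (insert w τ)) :=
          if_pos ((hSF τ hw).mpr hτ)
        have e2 : dT B F (rmv w c) τ = ∑ v ∈ Finset.univ \ τ, rmv w c (insert v τ) := if_pos hτ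
        rw [e1, e2]
        have e3 : Finset.univ \ τ = insert w (Finset.univ \ insert w τ) := by
          ext x
          simp only [Finset.mem_sdiff, Finset.mem_univ, true_and, Finset.mem_insert, not_or]
          constructor
          · intro h
            by_cases hx : x = w
            · exact Or.inl hx
            · exact Or.inr ⟨hx, h⟩
          · rintro (h | h)
            · rw [h]; exact hw
            · exact h.2
        rw [e3, Finset.sum_insert (by simp)]
        have e4 : rmv w c (insert w τ) = 0 := by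
          rw [rmv_apply, if_pos (Finset.mem_insert_self w τ)]
        rw [e4, zero_add]
        apply Finset.sum_congr rfl
        intro v hv
        have hv' : w ∉ insert v τ := by
          simp only [Finset.mem_sdiff, Finset.mem_univ, true_and, Finset.mem_insert, not_or] at hv
          rw [Finset.mem_insert, not_or]
          exact ⟨fun h => hv.1 h.symm, hw⟩
        rw [rmv_apply, if_neg hv', Finset.insert_comm]
      · have e1 : dT B S c (insert w τ) = 0 := if_neg (fun h => hτ ((hSF τ hw).mp h))
        have e2 : dT B F (rmv w c) τ = 0 := if_neg hτ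
        rw [e1, e2]
  have hcd : ∀ j, cdim b S (j + 1) = cdim b F j := by
    intro j
    unfold cdim
    rw [← hIC j, finrank_map_of_injOn (rmv w) (IC b S (j + 1)) (fun e he =>
      rmv_inj w e (fun σ hσ => he.1 σ (fun h => hσ h.1.2.2)))]
  have hrk : ∀ j, rk b S (j + 1) = rk b F j := by
    intro j
    unfold rk
    have h1 : ((IC b S (j + 1)).map (dT B S)).map (rmv w) = (IC b F j).map (dT B F) := by
      rw [← hIC j, ← Submodule.map_comp, ← Submodule.map_comp]
      congr 1
      apply LinearMap.ext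
      intro c
      exact hd c
    rw [← h1, finrank_map_of_injOn (rmv w) ((IC b S (j + 1)).map (dT B S)) (by
      rintro _ ⟨e, _, rfl⟩
      refine rmv_inj w _ (fun σ hσ => ?_)
      exact if_neg (fun h => hσ h.2.2))]
  unfold bettiF
  rw [hcd, hrk, hrk]

theorem bettiF_both {V : Type} [Fintype V] [DecidableEq V] {B : Type} [Group B] [Finite B]
    (G : SimpleGraph V) (u w : V) (huw : G.Adj u w) (b : V → B) (hb : b u = b w)
    (hOK : OK b {σ | σ ∈ cliq G ∧ w ∉ σ}) (k : ℕ) :
    bettiF b {σ | σ ∈ cliq G ∧ u ∈ σ ∧ w ∈ σ} (k + 2) ≤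
      bettiF b (cliqP G (fun x => G.Adj u x ∧ G.Adj w x)) k := by
  have hne : u ≠ w := fun h => G.loopless.irrefl w (h ▸ huw)
  have hsub : {τ : Finset V | w ∉ τ ∧ insert w τ ∈ cliq G} ⊆ {σ | σ ∈ cliq G ∧ w ∉ σ} := by
    rintro τ ⟨h1, h2⟩
    exact ⟨cliq_down G _ h2 _ (Finset.subset_insert _ _), h1⟩
  have hconv : Conv {τ : Finset V | w ∉ τ ∧ insert w τ ∈ cliq G} := by
    apply conv_of_down
    rintro τ ⟨h1, h2⟩ ρ hρ
    exact ⟨fun h => h1 (hρ h), cliq_down G _ h2 _ (Finset.insert_subset_insert _ hρ)⟩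
  have h1 := bettiF_link b {τ : Finset V | w ∉ τ ∧ insert w τ ∈ cliq G}
    (hOK.subset hconv hsub) u k
  rw [bettiF_rmv G u w hne b hb (k + 1)]
  have e : {τ : Finset V | u ∉ τ ∧ insert u τ ∈ {τ : Finset V | w ∉ τ ∧ insert w τ ∈ cliq G}} =
      cliqP G (fun x => G.Adj u x ∧ G.Adj w x) := by
    ext τ
    constructor
    · rintro ⟨g1, g2, g3⟩
      have g4 : w ∉ τ := fun h => g2 (Finset.mem_insert_of_mem h)
      refine ⟨cliq_down G _ g3 _ ((Finset.subset_insert _ _).trans (Finset.subset_insert _ _)),
        fun v hv => ⟨?_, ?_⟩⟩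
      · refine g3 (Finset.mem_coe.mpr (Finset.mem_insert_of_mem (Finset.mem_insert_self _ _)))
          (Finset.mem_coe.mpr (Finset.mem_insert_of_mem (Finset.mem_insert_of_mem hv))) ?_
        rintro rfl
        exact g1 hv
      · refine g3 (Finset.mem_coe.mpr (Finset.mem_insert_self _ _))
          (Finset.mem_coe.mpr (Finset.mem_insert_of_mem (Finset.mem_insert_of_mem hv))) ?_
        rintro rfl
        exact g4 hv
    · rintro ⟨g1, g2⟩
      have g3 : u ∉ τ := fun h => G.loopless.irrefl u (g2 u h).1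
      have g4 : w ∉ τ := fun h => G.loopless.irrefl w (g2 w h).2
      refine ⟨g3, ?_, ?_⟩
      · rw [Finset.mem_insert, not_or]
        exact ⟨hne.symm, g4⟩
      · show G.IsClique _
        rw [Finset.coe_insert, SimpleGraph.isClique_insert, Finset.coe_insert,
          SimpleGraph.isClique_insert]
        refine ⟨⟨g1, fun x hx _ => (g2 x (Finset.mem_coe.mp hx)).1⟩, ?_⟩
        rintro x hx hwx
        rcases hx with hx | hx
        · rw [hx]; exact huw.symm
        · exact (g2 x (Finset.mem_coe.mp hx)).2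
  rw [e] at h1
  exact h1

end SingerRA
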