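import Mathlib
import Pool.Agent.Lib_MP_394d50_gt.Defs2
import Pool.Agent.Lib_MP_394d50_gt.AOne
import Pool.Agent.Lib_MP_394d50_gt.ACover
import Pool.Agent.Lib_MP_394d50_gt.EAdd
import Pool.Agent.Lib_MP_394d50_vk.SDefs

/-!
Piece SQIS: over a group with `b u = b w` the complex of the flag complex `L'` (graph `G`) is
quasi-isomorphic to that of its contraction. Only the inequality is needed.

Notation: `T = cliq G`, `L = cliqP (contrH G u w) (· ≠ w)` (the cliques `τ ∌ w` of the contraction). By `hns` and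
`huw`: for `ρ` with `u, w ∉ ρ`: `insert u ρ ∈ L ↔ (insert u ρ ∈ T ∨ insert w ρ ∈ T)` and
(`insert u ρ ∈ T ∧ insert w ρ ∈ T ↔ insert u (insert w ρ) ∈ T`); and `ρ ∈ L ↔ ρ ∈ T`.
Linear map `Φ` on the chains over `B`: `(Φ c) τ = 0` if `w ∈ τ`; `(Φ c) τ = c τ` if `u, w ∉ τ`;
`(Φ c) τ = c τ + c (insert w (τ.erase u))` if `u ∈ τ`, `w ∉ τ`.
-/

namespace SingerRA

section SQ

variable {V : Type} [Fintype V] [DecidableEq V] {B : Type} [Group B]

omit [Fintype V] in
/-- the cliques without `u` and `w` -/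
theorem sq_base (G : SimpleGraph V) (u w : V) (ρ : Finset V) (h1 : u ∉ ρ) (h2 : w ∉ ρ) :
    ρ ∈ cliqP (contrH G u w) (fun x => x ≠ w) ↔ ρ ∈ cliq G := by
  constructor
  · intro h x hx y hy hxy
    have := h.1 hx hy hxy
    rcases this.2.2.2 with h | h | h
    · exact h
    · exact absurd (h.1 ▸ hx : u ∈ (ρ : Set V)) (by simpa using h1)
    · exact absurd (h.1 ▸ hy : u ∈ (ρ : Set V)) (by simpa using h1)
  · intro h
    refine ⟨fun x hx y hy hxy => ?_, fun v hv hvw => h2 (hvw ▸ hv)⟩
    refine ⟨fun h' => h2 ?_, fun h' => h2 ?_, hxy, Or.inl (h hx hy hxy)⟩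
    · rw [← h']; exact hx
    · rw [← h']; exact hy

omit [Fintype V] in
theorem sq_insert (G : SimpleGraph V) (u : V) (ρ : Finset V) (h1 : u ∉ ρ) :
    insert u ρ ∈ cliq G ↔ ρ ∈ cliq G ∧ ∀ y ∈ ρ, G.Adj u y := by
  constructor
  · intro h
    refine ⟨fun x hx y hy hxy => h (by simp at hx; simp [hx]) (by simp at hy; simp [hy]) hxy, fun y hy => ?_⟩
    exact h (by simp) (by simp [hy]) (fun h' => h1 (h' ▸ hy))
  · rintro ⟨h, h'⟩ x hx y hy hxy
    simp only [Finset.coe_insert, Set.mem_insert_iff, Finset.mem_coe] at hx hy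
    rcases hx with rfl | hx
    · rcases hy with rfl | hy
      · exact absurd rfl hxy
      · exact h' y hy
    · rcases hy with rfl | hy
      · exact (h' x hx).symm
      · exact h (Finset.mem_coe.2 hx) (Finset.mem_coe.2 hy) hxy

omit [Fintype V] in
theorem sq_one (G : SimpleGraph V) (u w : V) (huw : G.Adj u w) (hns : NoSquare G u w) (ρ : Finset V)
    (h1 : u ∉ ρ) (h2 : w ∉ ρ) :
    insert u ρ ∈ cliqP (contrH G u w) (fun x => x ≠ w) ↔ (insert u ρ ∈ cliq G ∨ insert w ρ ∈ cliq G) := by
  have huw' : u ≠ w := huw.ne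
  rw [sq_insert G u ρ h1, sq_insert G w ρ h2]
  constructor
  · intro h
    have h3 : insert u ρ ∈ cliq (contrH G u w) := h.1
    rw [sq_insert _ u ρ h1] at h3
    have h4 : ρ ∈ cliq G := by
      refine (sq_base G u w ρ h1 h2).1 ⟨h3.1, fun v hv => h.2 v (Finset.mem_insert_of_mem hv)⟩
    by_contra hcon
    rw [not_or, not_and, not_and] at hcon
    have h5 := hcon.1 h4
    have h6 := hcon.2 h4
    push Not at h5 h6
    obtain ⟨y, hy, hy'⟩ := h5
    obtain ⟨x, hx, hx'⟩ := h6
    have hadj : ∀ z ∈ ρ, G.Adj u z ∨ G.Adj w z := by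
      intro z hz
      rcases (h3.2 z hz).2.2.2 with h | h | h
      · exact Or.inl h
      · exact Or.inr h.2
      · exact absurd (h.1 ▸ hz) h1
    have hux : G.Adj u x := (hadj x hx).resolve_right hx'
    have hwy : G.Adj w y := (hadj y hy).resolve_left hy'
    have hxy : x ≠ y := by
      rintro rfl
      exact hy' hux
    exact hns x y hux (fun h => h2 (h ▸ hx)) hx' hwy (fun h => h1 (h ▸ hy)) hy' (h4 (by simpa using hx) (by simpa using hy) hxy)
  · intro h
    have h4 : ρ ∈ cliq G := by
      rcases h with h | h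
      · exact h.1
      · exact h.1
    have h5 := (sq_base G u w ρ h1 h2).2 h4
    refine ⟨?_, ?_⟩
    · show insert u ρ ∈ cliq (contrH G u w)
      rw [sq_insert _ u ρ h1]
      refine ⟨h5.1, fun y hy => ⟨huw', fun h' => h2 (h' ▸ hy), fun h' => h1 (h' ▸ hy), ?_⟩⟩
      rcases h with h | h
      · exact Or.inl (h.2 y hy)
      · exact Or.inr (Or.inl ⟨rfl, h.2 y hy⟩)
    · intro v hv
      rcases Finset.mem_insert.1 hv with rfl | hv
      · exact huw'
      · exact h5.2 v hv

omit [Fintype V] in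
theorem sq_two (G : SimpleGraph V) (u w : V) (huw : G.Adj u w) (ρ : Finset V)
    (h1 : u ∉ ρ) (h2 : w ∉ ρ) (h3 : insert u ρ ∈ cliq G) (h4 : insert w ρ ∈ cliq G) :
    insert u (insert w ρ) ∈ cliq G := by
  have h5 : u ∉ insert w ρ := by
    rw [Finset.mem_insert, not_or]
    exact ⟨huw.ne, h1⟩
  rw [sq_insert G u _ h5]
  refine ⟨h4, fun y hy => ?_⟩
  rcases Finset.mem_insert.1 hy with rfl | hy
  · exact huw
  · exact ((sq_insert G u ρ h1).1 h3).2 y hy

/-- for a chain supported in a family closed under subsets the boundary has no case distinction -/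
theorem sq_dT [Finite B] (b : V → B) (T : Set (Finset V)) (hT : ∀ τ ∈ T, ∀ ρ, ρ ⊆ τ → ρ ∈ T) (k : ℕ)
    (c : Finset V → B → ZMod 2) (hc : c ∈ IC b T k) (τ : Finset V) :
    dT B T c τ = ∑ v ∈ Finset.univ \ τ, c (insert v τ) := by
  by_cases h : τ ∈ T
  · exact aone_dT_apply T c τ h
  · rw [aone_dT_apply_not T c τ h]
    symm
    apply Finset.sum_eq_zero
    intro v _
    apply hc.1
    rintro ⟨h3, -⟩
    exact h (hT _ h3 τ (Finset.subset_insert _ _))

/-- the chain map -/
def sqPhi (B : Type) (u w : V) : (Finset V → B → ZMod 2) →ₗ[ZMod 2] (Finset V → B → ZMod 2) where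
  toFun c := fun τ => if w ∈ τ then 0 else if u ∈ τ then c τ + c (insert w (τ.erase u)) else c τ
  map_add' c d := by
    funext τ
    simp only [Pi.add_apply]
    split_ifs
    · simp
    · abel
    · rfl
  map_smul' r c := by
    funext τ
    simp only [Pi.smul_apply, RingHom.id_apply]
    split_ifs
    · simp
    · rw [smul_add]
    · rfl

omit [Fintype V] [Group B] in
theorem sqPhi_w (u w : V) (c : Finset V → B → ZMod 2) (τ : Finset V) (h : w ∈ τ) :
    sqPhi B u w c τ = 0 := if_pos h

omit [Fintype V] [Group B] in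
theorem sqPhi_u (u w : V) (c : Finset V → B → ZMod 2) (τ : Finset V) (h : w ∉ τ) (h' : u ∈ τ) :
    sqPhi B u w c τ = c τ + c (insert w (τ.erase u)) := by
  show (if w ∈ τ then 0 else if u ∈ τ then c τ + c (insert w (τ.erase u)) else c τ) = _
  rw [if_neg h, if_pos h']

omit [Fintype V] [Group B] in
theorem sqPhi_n (u w : V) (c : Finset V → B → ZMod 2) (τ : Finset V) (h : w ∉ τ) (h' : u ∉ τ) :
    sqPhi B u w c τ = c τ := by
  show (if w ∈ τ then 0 else if u ∈ τ then c τ + c (insert w (τ.erase u)) else c τ) = _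
  rw [if_neg h, if_neg h']

omit [Fintype V] in
theorem sq_mem (G : SimpleGraph V) (u w : V) (huw : G.Adj u w) (hns : NoSquare G u w) (b : V → B)
    (hb : b u = b w) (k : ℕ) (c : Finset V → B → ZMod 2) (hc : c ∈ IC b (cliq G) k) :
    sqPhi B u w c ∈ IC b (cliqP (contrH G u w) (fun x => x ≠ w)) k := by
  refine ⟨fun τ hτ => ?_, fun τ v hv x => ?_⟩
  · by_cases hw : w ∈ τ
    · exact sqPhi_w u w c τ hw
    by_cases hu : u ∈ τ
    · rw [sqPhi_u u w c τ hw hu]
      have h1 : u ∉ τ.erase u := Finset.notMem_erase u τ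
      have h2 : w ∉ τ.erase u := fun h => hw (Finset.mem_of_mem_erase h)
      have h3 : insert u (τ.erase u) = τ := Finset.insert_erase hu
      have h4 : c τ = 0 := by
        apply hc.1
        rintro ⟨h5, h6⟩
        refine hτ ⟨?_, h6⟩
        rw [← h3, sq_one G u w huw hns _ h1 h2]
        left
        rwa [h3]
      have h5 : c (insert w (τ.erase u)) = 0 := by
        apply hc.1
        rintro ⟨h5, h6⟩
        refine hτ ⟨?_, ?_⟩
        · rw [← h3, sq_one G u w huw hns _ h1 h2]
          right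
          exact h5
        · rw [← h3, Finset.card_insert_of_notMem h1]
          rwa [Finset.card_insert_of_notMem h2] at h6
      rw [h4, h5, add_zero]
    · rw [sqPhi_n u w c τ hw hu]
      apply hc.1
      rintro ⟨h5, h6⟩
      exact hτ ⟨(sq_base G u w τ hu hw).2 h5, h6⟩
  · by_cases hw : w ∈ τ
    · rw [sqPhi_w u w c τ hw]; rfl
    by_cases hu : u ∈ τ
    · rw [sqPhi_u u w c τ hw hu, Pi.add_apply, Pi.add_apply, hc.2 τ v hv x]
      congr 1
      by_cases hvu : v = u
      · rw [hvu, hb]
        exact hc.2 _ w (Finset.mem_insert_self _ _) x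
      · exact hc.2 _ v (Finset.mem_insert_of_mem (Finset.mem_erase.2 ⟨hvu, hv⟩)) x
    · rw [sqPhi_n u w c τ hw hu]
      exact hc.2 τ v hv x

omit [Fintype V] in
theorem sq_surj (G : SimpleGraph V) (u w : V) (huw : G.Adj u w) (hns : NoSquare G u w) (b : V → B)
    (hb : b u = b w) (k : ℕ) (e : Finset V → B → ZMod 2)
    (he : e ∈ IC b (cliqP (contrH G u w) (fun x => x ≠ w)) k) :
    ∃ c ∈ IC b (cliq G) k, sqPhi B u w c = e := by
  classical
  have huw' : u ≠ w := huw.ne
  let c : Finset V → B → ZMod 2 := fun τ => if w ∈ τ then (if u ∈ τ then 0 else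
    if insert u (τ.erase w) ∈ cliq G then 0 else e (insert u (τ.erase w))) else
    if τ ∈ cliq G then e τ else 0
  have c1 : ∀ τ, w ∈ τ → u ∈ τ → c τ = 0 := fun τ h1 h2 => by
    show (if w ∈ τ then (if u ∈ τ then 0 else _) else _) = _
    rw [if_pos h1, if_pos h2]
  have c2 : ∀ τ, w ∈ τ → u ∉ τ → insert u (τ.erase w) ∈ cliq G → c τ = 0 := fun τ h1 h2 h3 => by
    show (if w ∈ τ then (if u ∈ τ then 0 else if insert u (τ.erase w) ∈ cliq G then 0 else _) else _) = _
    rw [if_pos h1, if_neg h2, if_pos h3]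
  have c3 : ∀ τ, w ∈ τ → u ∉ τ → insert u (τ.erase w) ∉ cliq G → c τ = e (insert u (τ.erase w)) :=
    fun τ h1 h2 h3 => by
    show (if w ∈ τ then (if u ∈ τ then 0 else if insert u (τ.erase w) ∈ cliq G then 0 else
      e (insert u (τ.erase w))) else _) = _
    rw [if_pos h1, if_neg h2, if_neg h3]
  have c4 : ∀ τ, w ∉ τ → τ ∈ cliq G → c τ = e τ := fun τ h1 h2 => by
    show (if w ∈ τ then _ else if τ ∈ cliq G then e τ else 0) = _
    rw [if_neg h1, if_pos h2]
  have c5 : ∀ τ, w ∉ τ → τ ∉ cliq G → c τ = 0 := fun τ h1 h2 => by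
    show (if w ∈ τ then _ else if τ ∈ cliq G then e τ else 0) = _
    rw [if_neg h1, if_neg h2]
  refine ⟨c, ⟨fun τ hτ => ?_, fun τ v hv x => ?_⟩, ?_⟩
  · by_cases hw : w ∈ τ
    · by_cases hu : u ∈ τ
      · exact c1 τ hw hu
      by_cases h : insert u (τ.erase w) ∈ cliq G
      · exact c2 τ hw hu h
      rw [c3 τ hw hu h]
      apply he.1
      rintro ⟨h5, h6⟩
      have h1 : u ∉ τ.erase w := fun h => hu (Finset.mem_of_mem_erase h)
      have h2 : w ∉ τ.erase w := Finset.notMem_erase w τ
      have h3 : insert w (τ.erase w) = τ := Finset.insert_erase hw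
      rw [sq_one G u w huw hns _ h1 h2, h3] at h5
      refine hτ ⟨h5.resolve_left h, ?_⟩
      rw [Finset.card_insert_of_notMem h1] at h6
      rw [← h3, Finset.card_insert_of_notMem h2, h6]
    · by_cases h : τ ∈ cliq G
      · rw [c4 τ hw h]
        exact he.1 τ (fun h' => hτ ⟨h, h'.2⟩)
      · exact c5 τ hw h
  · by_cases hw : w ∈ τ
    · by_cases hu : u ∈ τ
      · rw [c1 τ hw hu]; rfl
      by_cases h : insert u (τ.erase w) ∈ cliq G
      · rw [c2 τ hw hu h]; rfl
      rw [c3 τ hw hu h]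
      by_cases hvw : v = w
      · rw [hvw, ← hb]
        exact he.2 _ u (Finset.mem_insert_self _ _) x
      · exact he.2 _ v (Finset.mem_insert_of_mem (Finset.mem_erase.2 ⟨hvw, hv⟩)) x
    · by_cases h : τ ∈ cliq G
      · rw [c4 τ hw h]
        exact he.2 τ v hv x
      · rw [c5 τ hw h]; rfl
  · funext τ
    by_cases hw : w ∈ τ
    · rw [sqPhi_w u w c τ hw]
      symm
      exact he.1 τ (fun h => h.1.2 w hw rfl)
    by_cases hu : u ∈ τ
    · rw [sqPhi_u u w c τ hw hu]
      have h2 : w ∉ τ.erase u := fun h => hw (Finset.mem_of_mem_erase h)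
      have h3 : (insert w (τ.erase u)).erase w = τ.erase u := Finset.erase_insert h2
      have h4 : u ∉ insert w (τ.erase u) := by
        rw [Finset.mem_insert, not_or]
        exact ⟨huw', Finset.notMem_erase u τ⟩
      have h5 : insert u ((insert w (τ.erase u)).erase w) = τ := by
        rw [h3, Finset.insert_erase hu]
      by_cases h : τ ∈ cliq G
      · rw [c4 τ hw h, c2 _ (Finset.mem_insert_self _ _) h4 (by rw [h5]; exact h), add_zero]
      · rw [c5 τ hw h, c3 _ (Finset.mem_insert_self _ _) h4 (by rw [h5]; exact h), h5, zero_add]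
    · rw [sqPhi_n u w c τ hw hu]
      by_cases h : τ ∈ cliq G
      · exact c4 τ hw h
      · rw [c5 τ hw h]
        symm
        apply he.1
        intro h'
        exact h ((sq_base G u w τ hu hw).1 h'.1)

theorem sq_image (G : SimpleGraph V) (u w : V) (huw : G.Adj u w) (hns : NoSquare G u w) (b : V → B)
    (hb : b u = b w) (k : ℕ) : (IC b (cliq G) k).map (sqPhi B u w) =
      IC b (cliqP (contrH G u w) (fun x => x ≠ w)) k := by
  apply le_antisymm
  · rintro _ ⟨c, hc, rfl⟩
    exact sq_mem G u w huw hns b hb k c hc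
  · intro e he
    exact sq_surj G u w huw hns b hb k e he

theorem sq_comm [Finite B] (G : SimpleGraph V) (u w : V) (huw : G.Adj u w) (hns : NoSquare G u w) (b : V → B)
    (hb : b u = b w) (k : ℕ) (c : Finset V → B → ZMod 2) (hc : c ∈ IC b (cliq G) k) :
    dT B (cliqP (contrH G u w) (fun x => x ≠ w)) (sqPhi B u w c) = sqPhi B u w (dT B (cliq G) c) := by
  have huw' : u ≠ w := huw.ne
  have hΦ := sq_mem G u w huw hns b hb k c hc
  funext τ
  rw [sq_dT b _ (cliqP_down (contrH G u w) _) k _ hΦ τ]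
  by_cases hw : w ∈ τ
  · rw [sqPhi_w u w _ τ hw]
    apply Finset.sum_eq_zero
    intro v _
    exact sqPhi_w u w c _ (Finset.mem_insert_of_mem hw)
  by_cases hu : u ∈ τ
  · rw [sqPhi_u u w _ τ hw hu, sq_dT b _ (cliq_down G) k _ hc, sq_dT b _ (cliq_down G) k _ hc]
    have hwm : w ∈ Finset.univ \ τ := by simp [hw]
    have hu2 : u ∉ insert w (τ.erase u) := by
      rw [Finset.mem_insert, not_or]
      exact ⟨huw', Finset.notMem_erase u τ⟩
    have hum : u ∈ Finset.univ \ (insert w (τ.erase u)) := by simpa using hu2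
    rw [← Finset.add_sum_erase _ _ hwm, ← Finset.add_sum_erase _ (fun v => c (insert v τ)) hwm,
      ← Finset.add_sum_erase _ (fun v => c (insert v (insert w (τ.erase u)))) hum]
    have e1 : (Finset.univ \ (insert w (τ.erase u))).erase u = (Finset.univ \ τ).erase w := by
      ext v
      simp only [Finset.mem_erase, Finset.mem_sdiff, Finset.mem_univ, true_and, Finset.mem_insert, not_or,
        not_and]
      constructor
      · rintro ⟨h1, h2, h3⟩
        exact ⟨h2, h3 h1⟩
      · rintro ⟨h1, h2⟩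
        exact ⟨fun h => h2 (h ▸ hu), h1, fun _ => h2⟩
    rw [e1, sqPhi_w u w c _ (Finset.mem_insert_self _ _), zero_add]
    have e2 : insert u (insert w (τ.erase u)) = insert w τ := by
      rw [Finset.insert_comm, Finset.insert_erase hu]
    rw [e2]
    have e3 : ∀ v ∈ (Finset.univ \ τ).erase w, sqPhi B u w c (insert v τ) =
        c (insert v τ) + c (insert v (insert w (τ.erase u))) := by
      intro v hv
      simp only [Finset.mem_erase, Finset.mem_sdiff, Finset.mem_univ, true_and] at hv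
      have hvu : v ≠ u := fun h => hv.2 (h ▸ hu)
      rw [sqPhi_u u w c _ (by rw [Finset.mem_insert, not_or]; exact ⟨hv.1.symm, hw⟩)
        (Finset.mem_insert_of_mem hu), Finset.erase_insert_of_ne hvu, Finset.insert_comm]
    rw [Finset.sum_congr rfl e3, Finset.sum_add_distrib]
    have e4 : c (insert w τ) + c (insert w τ) = 0 := by
      funext x
      exact CharTwo.add_self_eq_zero _
    calc _ = (c (insert w τ) + c (insert w τ)) + (∑ v ∈ (Finset.univ \ τ).erase w, c (insert v τ) +
          ∑ v ∈ (Finset.univ \ τ).erase w, c (insert v (insert w (τ.erase u)))) := by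
            rw [e4, zero_add]
      _ = _ := by abel
  · rw [sqPhi_n u w _ τ hw hu, sq_dT b _ (cliq_down G) k _ hc]
    have hwm : w ∈ Finset.univ \ τ := by simp [hw]
    have hum : u ∈ (Finset.univ \ τ).erase w := by simp [hu, huw']
    rw [← Finset.add_sum_erase _ _ hwm, ← Finset.add_sum_erase _ (fun v => c (insert v τ)) hwm,
      ← Finset.add_sum_erase _ _ hum, ← Finset.add_sum_erase _ (fun v => c (insert v τ)) hum]
    rw [sqPhi_w u w c _ (Finset.mem_insert_self _ _), zero_add,
      sqPhi_u u w c (insert u τ) (by rw [Finset.mem_insert, not_or]; exact ⟨huw'.symm, hw⟩)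
        (Finset.mem_insert_self _ _), Finset.erase_insert hu]
    have e3 : ∀ v ∈ ((Finset.univ \ τ).erase w).erase u, sqPhi B u w c (insert v τ) = c (insert v τ) := by
      intro v hv
      simp only [Finset.mem_erase, Finset.mem_sdiff, Finset.mem_univ, true_and] at hv
      exact sqPhi_n u w c _ (by rw [Finset.mem_insert, not_or]; exact ⟨hv.2.1.symm, hw⟩)
        (by rw [Finset.mem_insert, not_or]; exact ⟨hv.1.symm, hu⟩)
    rw [Finset.sum_congr rfl e3]
    abel

/-- the kernel of the chain map is acyclic -/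
theorem sq_acyclic [Finite B] (G : SimpleGraph V) (u w : V) (huw : G.Adj u w) (b : V → B)
    (hb : b u = b w) (k : ℕ) :
    (IC b (cliq G) k ⊓ LinearMap.ker (sqPhi B u w)) ⊓ LinearMap.ker (dT B (cliq G)) ≤
      (IC b (cliq G) (k + 1) ⊓ LinearMap.ker (sqPhi B u w)).map (dT B (cliq G)) := by
  have huw' : u ≠ w := huw.ne
  rintro c ⟨⟨hc, hk⟩, hd⟩
  have hk' : sqPhi B u w c = 0 := hk
  have hd' : dT B (cliq G) c = 0 := hd
  have k0 : ∀ τ, w ∉ τ → u ∉ τ → c τ = 0 := fun τ h1 h2 => by
    rw [← sqPhi_n u w c τ h1 h2, hk']; rfl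
  have k1 : ∀ τ, w ∉ τ → u ∈ τ → c (insert w (τ.erase u)) = c τ := fun τ h1 h2 => by
    have h := sqPhi_u u w c τ h1 h2
    rw [hk'] at h
    have h3 : c τ + c (insert w (τ.erase u)) = 0 := h.symm
    funext x
    have h4 : c τ x + c (insert w (τ.erase u)) x = 0 := congrFun h3 x
    exact (CharTwo.add_eq_zero.1 h4).symm
  let g : Finset V → B → ZMod 2 := fun σ => if u ∈ σ ∧ w ∈ σ then c (σ.erase w) else 0
  have g1 : ∀ σ, u ∈ σ → w ∈ σ → g σ = c (σ.erase w) := fun σ h1 h2 => if_pos ⟨h1, h2⟩
  have g2 : ∀ σ, u ∉ σ → g σ = 0 := fun σ h1 => if_neg (fun h => h1 h.1)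
  have g3 : ∀ σ, w ∉ σ → g σ = 0 := fun σ h1 => if_neg (fun h => h1 h.2)
  have hg : g ∈ IC b (cliq G) (k + 1) := by
    refine ⟨fun σ hσ => ?_, fun σ v hv x => ?_⟩
    · by_cases hu : u ∈ σ
      swap
      · exact g2 σ hu
      by_cases hw : w ∈ σ
      swap
      · exact g3 σ hw
      rw [g1 σ hu hw]
      have hwe : w ∉ σ.erase w := Finset.notMem_erase w σ
      have hue : u ∈ σ.erase w := Finset.mem_erase.2 ⟨huw', hu⟩
      by_contra hne
      have h1 : σ.erase w ∈ cliq G ∧ (σ.erase w).card = k := by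
        by_contra h
        exact hne (hc.1 _ h)
      have h2 : insert w ((σ.erase w).erase u) ∈ cliq G := by
        by_contra h
        apply hne
        rw [← k1 _ hwe hue]
        exact hc.1 _ (fun h' => h h'.1)
      have h3 : insert u ((σ.erase w).erase u) = σ.erase w := Finset.insert_erase hue
      have h4 := sq_two G u w huw ((σ.erase w).erase u) (Finset.notMem_erase _ _)
        (fun h => hwe (Finset.mem_of_mem_erase h)) (by rw [h3]; exact h1.1) h2
      have h5 : insert u (insert w ((σ.erase w).erase u)) = σ := by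
        rw [Finset.insert_comm, h3, Finset.insert_erase hw]
      rw [h5] at h4
      refine hσ ⟨h4, ?_⟩
      have h6 := Finset.card_erase_add_one hw
      omega
    · by_cases hu : u ∈ σ
      swap
      · rw [g2 σ hu]; rfl
      by_cases hw : w ∈ σ
      swap
      · rw [g3 σ hw]; rfl
      rw [g1 σ hu hw]
      by_cases hvw : v = w
      · rw [hvw, ← hb]
        exact hc.2 _ u (Finset.mem_erase.2 ⟨huw', hu⟩) x
      · exact hc.2 _ v (Finset.mem_erase.2 ⟨hvw, hv⟩) x
  have hgk : sqPhi B u w g = 0 := by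
    funext τ
    by_cases hw : w ∈ τ
    · exact sqPhi_w u w g τ hw
    by_cases hu : u ∈ τ
    · rw [sqPhi_u u w g τ hw hu, g3 τ hw, g2 (insert w (τ.erase u)), add_zero]
      · rfl
      · rw [Finset.mem_insert, not_or]
        exact ⟨huw', Finset.notMem_erase u τ⟩
    · rw [sqPhi_n u w g τ hw hu]
      exact g3 τ hw
  refine ⟨g, ⟨hg, hgk⟩, ?_⟩
  funext σ
  rw [sq_dT b _ (cliq_down G) (k + 1) g hg σ]
  by_cases hu : u ∈ σ
  · by_cases hw : w ∈ σ
    · have hwe : w ∉ σ.erase w := Finset.notMem_erase w σ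
      have h0 : dT B (cliq G) c (σ.erase w) = 0 := by rw [hd']; rfl
      rw [sq_dT b _ (cliq_down G) k c hc] at h0
      have hwm : w ∈ Finset.univ \ (σ.erase w) := by simp
      rw [← Finset.add_sum_erase _ _ hwm, Finset.insert_erase hw] at h0
      have e1 : (Finset.univ \ (σ.erase w)).erase w = Finset.univ \ σ := by
        ext v
        simp only [Finset.mem_erase, Finset.mem_sdiff, Finset.mem_univ, true_and, not_and]
        constructor
        · rintro ⟨h1, h2⟩
          exact h2 h1
        · intro h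
          exact ⟨fun h' => h (h' ▸ hw), fun _ => h⟩
      rw [e1] at h0
      have e2 : ∀ v ∈ Finset.univ \ σ, g (insert v σ) = c (insert v (σ.erase w)) := by
        intro v hv
        have hv' : v ∉ σ := by simpa using hv
        have hvw : v ≠ w := fun h => hv' (by rw [h]; exact hw)
        rw [g1 _ (Finset.mem_insert_of_mem hu) (Finset.mem_insert_of_mem hw),
          Finset.erase_insert_of_ne hvw]
      rw [Finset.sum_congr rfl e2]
      funext x
      have h1 := congrFun h0 x
      exact (CharTwo.add_eq_zero.1 h1).symm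
    · have hwm : w ∈ Finset.univ \ σ := by simp [hw]
      rw [← Finset.add_sum_erase _ _ hwm, g1 _ (Finset.mem_insert_of_mem hu) (Finset.mem_insert_self _ _),
        Finset.erase_insert hw, Finset.sum_eq_zero, add_zero]
      intro v hv
      simp only [Finset.mem_erase, Finset.mem_sdiff, Finset.mem_univ, true_and] at hv
      apply g3
      rw [Finset.mem_insert, not_or]
      exact ⟨hv.1.symm, hw⟩
  · by_cases hw : w ∈ σ
    · have hum : u ∈ Finset.univ \ σ := by simp [hu]
      rw [← Finset.add_sum_erase _ _ hum, g1 _ (Finset.mem_insert_self _ _) (Finset.mem_insert_of_mem hw),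
        Finset.sum_eq_zero, add_zero]
      · have hw2 : w ∉ (insert u σ).erase w := Finset.notMem_erase _ _
        have hu2 : u ∈ (insert u σ).erase w := Finset.mem_erase.2 ⟨huw', Finset.mem_insert_self _ _⟩
        rw [← k1 _ hw2 hu2]
        congr 1
        rw [Finset.erase_right_comm, Finset.erase_insert hu, Finset.insert_erase hw]
      · intro v hv
        simp only [Finset.mem_erase, Finset.mem_sdiff, Finset.mem_univ, true_and] at hv
        apply g2
        rw [Finset.mem_insert, not_or]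
        exact ⟨hv.1.symm, hu⟩
    · rw [k0 σ hw hu]
      apply Finset.sum_eq_zero
      intro v hv
      by_cases hvu : v = u
      · apply g3
        rw [Finset.mem_insert, not_or]
        exact ⟨fun h => huw' (hvu ▸ h.symm), hw⟩
      · apply g2
        rw [Finset.mem_insert, not_or]
        exact ⟨fun h => hvu h.symm, hu⟩

end SQ

theorem bettiF_contr {V : Type} [Fintype V] [DecidableEq V] {B : Type} [Group B] [Finite B]
    (G : SimpleGraph V) (u w : V) (huw : G.Adj u w) (hns : NoSquare G u w) (b : V → B)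
    (hb : b u = b w) (k : ℕ) :
    bettiF b (cliq G) k ≤ bettiF b (cliqP (contrH G u w) (fun x => x ≠ w)) k := by
  -- the dimension of the chains
  have hcd : ∀ j, Module.finrank (ZMod 2) (IC b (cliq G) j) =
      Module.finrank (ZMod 2) (IC b (cliqP (contrH G u w) (fun x => x ≠ w)) j) +
      Module.finrank (ZMod 2) (IC b (cliq G) j ⊓ LinearMap.ker (sqPhi B u w) :
        Submodule (ZMod 2) (Finset V → B → ZMod 2)) := by
    intro j
    rw [← aone_finrank_map_add_inf (sqPhi B u w) (IC b (cliq G) j), sq_image G u w huw hns b hb j]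
  -- the rank of the boundary
  have hrk : ∀ j, Module.finrank (ZMod 2) ((IC b (cliqP (contrH G u w) (fun x => x ≠ w)) j).map
        (dT B (cliqP (contrH G u w) (fun x => x ≠ w)))) +
      Module.finrank (ZMod 2) ((IC b (cliq G) j ⊓ LinearMap.ker (sqPhi B u w) :
        Submodule (ZMod 2) (Finset V → B → ZMod 2)).map (dT B (cliq G))) ≤
      Module.finrank (ZMod 2) ((IC b (cliq G) j).map (dT B (cliq G))) := by
    intro j
    have h := aone_finrank_map_add_inf (sqPhi B u w) ((IC b (cliq G) j).map (dT B (cliq G)))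
    have e1 : ((IC b (cliq G) j).map (dT B (cliq G))).map (sqPhi B u w) =
        (IC b (cliqP (contrH G u w) (fun x => x ≠ w)) j).map
          (dT B (cliqP (contrH G u w) (fun x => x ≠ w))) := by
      rw [← sq_image G u w huw hns b hb j]
      apply le_antisymm
      · rintro _ ⟨_, ⟨c, hc, rfl⟩, rfl⟩
        exact ⟨_, ⟨c, hc, rfl⟩, sq_comm G u w huw hns b hb j c hc⟩
      · rintro _ ⟨_, ⟨c, hc, rfl⟩, rfl⟩
        exact ⟨_, ⟨c, hc, rfl⟩, (sq_comm G u w huw hns b hb j c hc).symm⟩
    have e2 : (IC b (cliq G) j ⊓ LinearMap.ker (sqPhi B u w)).map (dT B (cliq G)) ≤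
        (IC b (cliq G) j).map (dT B (cliq G)) ⊓ LinearMap.ker (sqPhi B u w) := by
      rintro _ ⟨c, ⟨hc, hk⟩, rfl⟩
      refine ⟨⟨c, hc, rfl⟩, ?_⟩
      show sqPhi B u w (dT B (cliq G) c) = 0
      have hk' : sqPhi B u w c = 0 := hk
      rw [← sq_comm G u w huw hns b hb j c hc, hk', map_zero]
    have e3 := Submodule.finrank_mono e2
    rw [e1] at h
    omega
  -- acyclicity of the kernel
  have hK := aone_finrank_map_add_inf (dT B (cliq G)) (IC b (cliq G) k ⊓ LinearMap.ker (sqPhi B u w))
  have hK2 := Submodule.finrank_mono (sq_acyclic G u w huw b hb k)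
  have h1 := hcd k
  have h2 := hrk k
  have h3 := hrk (k + 1)
  unfold bettiF cdim rk
  omega

end SingerRA
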