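import Mathlib
import Pool.Agent.Lib_MP_394d50_gt.Defs2
import Pool.Agent.Lib_MP_394d50_gt.AOne
import Pool.Agent.Lib_MP_394d50_gt.AInv
import Pool.Agent.Lib_MP_394d50_gt.EAdd
import Pool.Agent.Lib_MP_394d50_vk.SDefs
import Pool.Agent.Lib_MP_394d50_vk.SDbl
import Pool.Agent.Lib_MP_394d50_vk.SQis
import Pool.Agent.Lib_MP_394d50_vk.SLnk

/-!
Piece SSPLIT: the gradient inequality for vertex splits (about 200-250 lines).

Follow the proof of `SmallGrad.add` (EAdd.lean, line 213). Given `ε`: `Q1`, `q1` for `contrG G u w`, `Q2`, `q2` for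
`linkG G u w` (trivial group if `k = 0`), both with a small multiple of `ε`. `Q = Q1 × Q2`,
`q x = (q1 x, q2 x)` with `q1 w := q1 u` (so `q w = q u`; `q2 x := 1` for `x` not adjacent to both `u` and `w`). If `x`, `y` are
adjacent in `G` then `q x`, `q y` commute. Let `A = Q × Multiplicative (V → ZMod 2)`, `a = stdA q`,
`B = Q × Multiplicative ({x // x ≠ w} → ZMod 2)`, `π : A → B`, `(x, e) ↦ (x, e')`, `e' y = e y` for
`y ≠ u`, `e' u = e u + e w`; `b = π ∘ a`, `b w = b u`, the kernel of `π` is `{1, z}`, `z = (1, e_u + e_w) = a u * a w`.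
1. `bettiF_double_rel` with `T = cliq G`, `T1 = {σ ∈ cliq G, ¬ (u ∈ σ ∧ w ∈ σ)}`: `hzT`: `f (z * x) = f (x * a u * a w)` because
   `z` is central. `hsurj`: `norm_surj` (AInv.lean) for the family `{σ ∈ cliq G, w ∉ σ}` (labels: restriction `{x // x ≠ w} → V`
   extended by `0`) when `w ∉ σ`, and for the family `{σ ∈ cliq G, u ∉ σ}` (labels with `u`, `w` exchanged) when
   `u ∉ σ`. So `bettiF a T k ≤ bettiF b T k + bettiF b T1 k`.
2. `bettiF_sub_le` (AOne.lean): `bettiF b T1 k ≤ bettiF b T k + bettiF b (T \ T1) (k + 1)`.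
3. `bettiF_contr`: `bettiF b T k ≤ bettiF b (cliqP (contrH G u w) (· ≠ w)) k`, and by `cliqP_eq`, `bettiF_reindex` this is
   `bettiF (stdA q') (cliq (contrG G u w)) k`, `q' = q` on `{x // x ≠ w}`.
4. `bettiF_both` for `k = j + 1` (for `k = 0`, `T \ T1` has no set with one element: `bettiF_eq_zero`).
5. Passage to `q1` and `q2`: `cover_sub` (EAdd.lean) with the vertex set `{x // x ≠ w}`, group `Q`, projections to
   `Q1` (`P = True` or directly `bettiF_cover_real`) and to `Q2` (`P x = G.Adj u x ∧ G.Adj w x`; use `SmallGrad.iso` to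
   replace `linkG G u w` by the isomorphic graph on `{x : {x // x ≠ w} // P x}`).
-/

namespace SingerRA

namespace SSplit

section Labels

variable {V : Type} [DecidableEq V]

/-- the labels of the contraction -/
def fold (u w : V) :
    Multiplicative (V → ZMod 2) →* Multiplicative ({x : V // x ≠ w} → ZMod 2) where
  toFun e := Multiplicative.ofAdd (fun y => e.toAdd y.1 + if y.1 = u then e.toAdd w else 0)
  map_one' := by
    show Multiplicative.ofAdd _ = Multiplicative.ofAdd 0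
    congr 1
    funext y
    show (0 : ZMod 2) + (if y.1 = u then (0 : ZMod 2) else 0) = 0
    simp
  map_mul' x y := by
    apply Multiplicative.toAdd.injective
    funext v
    show (x.toAdd v.1 + y.toAdd v.1) + (if v.1 = u then x.toAdd w + y.toAdd w else 0) =
      (x.toAdd v.1 + if v.1 = u then x.toAdd w else 0) +
        (y.toAdd v.1 + if v.1 = u then y.toAdd w else 0)
    split_ifs <;> ring

theorem fold_apply (u w : V) (e : Multiplicative (V → ZMod 2)) (y : {x : V // x ≠ w}) :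
    (fold u w e).toAdd y = e.toAdd y.1 + if y.1 = u then e.toAdd w else 0 := rfl

theorem fold_surj (u w : V) : Function.Surjective (fold u w) := by
  intro e
  refine ⟨extLab V (fun x => x ≠ w) e, ?_⟩
  apply Multiplicative.toAdd.injective
  funext y
  rw [fold_apply, extLab_pos V _ _ y.1 y.2, extLab_neg V (fun x => x ≠ w) e w (by simp)]
  simp

theorem fold_ker {u w : V} (huw : u ≠ w) (e : Multiplicative (V → ZMod 2)) :
    fold u w e = 1 ↔
      e = 1 ∨ e = Multiplicative.ofAdd (Pi.single u 1 + Pi.single w 1 : V → ZMod 2) := by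
  constructor
  · intro h
    have h1 : ∀ y : {x : V // x ≠ w}, e.toAdd y.1 + (if y.1 = u then e.toAdd w else 0) = 0 := by
      intro y
      rw [← fold_apply, h]
      rfl
    by_cases hw : e.toAdd w = 0
    · left
      apply Multiplicative.toAdd.injective
      funext y
      show e.toAdd y = 0
      by_cases hy : y = w
      · rw [hy, hw]
      · have h2 := h1 ⟨y, hy⟩
        rw [hw, ite_self, add_zero] at h2
        exact h2
    · right
      have hw1 : e.toAdd w = 1 := AInvAux.zmod2_ne_zero hw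
      apply Multiplicative.toAdd.injective
      funext y
      show e.toAdd y = (Pi.single u 1 : V → ZMod 2) y + (Pi.single w 1 : V → ZMod 2) y
      rw [Pi.single_apply, Pi.single_apply]
      by_cases hy : y = w
      · rw [hy, hw1, if_neg huw.symm, if_pos rfl, zero_add]
      · have h2 := h1 ⟨y, hy⟩
        rw [hw1] at h2
        rw [if_neg hy, add_zero]
        by_cases hyu : y = u
        · rw [if_pos hyu] at h2 ⊢
          exact zmod_eq h2
        · rw [if_neg hyu] at h2 ⊢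
          rw [add_zero] at h2
          exact h2
  · rintro (h | h)
    · rw [h, map_one]
    · apply Multiplicative.toAdd.injective
      funext y
      rw [fold_apply, h]
      show ((Pi.single u 1 : V → ZMod 2) y.1 + (Pi.single w 1 : V → ZMod 2) y.1) +
        (if y.1 = u then ((Pi.single u 1 : V → ZMod 2) w + (Pi.single w 1 : V → ZMod 2) w) else 0) = 0
      rw [Pi.single_apply, Pi.single_apply, Pi.single_apply, Pi.single_apply, if_neg y.2,
        if_neg huw.symm, if_pos rfl]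
      by_cases hyu : y.1 = u
      · rw [if_pos hyu, if_pos hyu]; decide
      · rw [if_neg hyu, if_neg hyu]; decide
where
  zmod_eq : ∀ {x : ZMod 2}, x + 1 = 0 → x = 1 := by decide

theorem fold_single {u w : V} (v : V) (hv : v ≠ w) :
    fold u w (Multiplicative.ofAdd (Pi.single v 1)) =
      Multiplicative.ofAdd (Pi.single (⟨v, hv⟩ : {x : V // x ≠ w}) 1) := by
  apply Multiplicative.toAdd.injective
  funext y
  rw [fold_apply]
  show (Pi.single v 1 : V → ZMod 2) y.1 + (if y.1 = u then (Pi.single v 1 : V → ZMod 2) w else 0) =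
    (Pi.single (⟨v, hv⟩ : {x : V // x ≠ w}) 1 : _ → ZMod 2) y
  rw [Pi.single_apply, Pi.single_apply, Pi.single_apply, if_neg hv.symm, ite_self, add_zero]
  simp [Subtype.ext_iff]

theorem fold_w {u w : V} (huw : u ≠ w) :
    fold u w (Multiplicative.ofAdd (Pi.single w 1)) =
      Multiplicative.ofAdd (Pi.single (⟨u, huw⟩ : {x : V // x ≠ w}) 1) := by
  apply Multiplicative.toAdd.injective
  funext y
  rw [fold_apply]
  show (Pi.single w 1 : V → ZMod 2) y.1 + (if y.1 = u then (Pi.single w 1 : V → ZMod 2) w else 0) =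
    (Pi.single (⟨u, huw⟩ : {x : V // x ≠ w}) 1 : _ → ZMod 2) y
  rw [Pi.single_apply, Pi.single_apply, Pi.single_apply, if_neg y.2, if_pos rfl, zero_add]
  simp [Subtype.ext_iff]

/-- labels for the sets not containing `u` -/
def swp {u w : V} (huw : u ≠ w) :
    Multiplicative ({x : V // x ≠ w} → ZMod 2) →* Multiplicative (V → ZMod 2) where
  toFun e := Multiplicative.ofAdd (fun y => if h : y ≠ w then (if y = u then 0 else e.toAdd ⟨y, h⟩)
    else e.toAdd ⟨u, huw⟩)
  map_one' := by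
    show Multiplicative.ofAdd _ = Multiplicative.ofAdd 0
    congr 1
    funext y
    show (if h : y ≠ w then (if y = u then (0 : ZMod 2) else 0) else 0) = 0
    split_ifs <;> rfl
  map_mul' x y := by
    apply Multiplicative.toAdd.injective
    funext v
    show (if h : v ≠ w then (if v = u then 0 else x.toAdd ⟨v, h⟩ + y.toAdd ⟨v, h⟩)
        else x.toAdd ⟨u, huw⟩ + y.toAdd ⟨u, huw⟩) =
      (if h : v ≠ w then (if v = u then 0 else x.toAdd ⟨v, h⟩) else x.toAdd ⟨u, huw⟩) +
      (if h : v ≠ w then (if v = u then 0 else y.toAdd ⟨v, h⟩) else y.toAdd ⟨u, huw⟩)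
    split_ifs <;> simp

theorem swp_apply {u w : V} (huw : u ≠ w) (e : Multiplicative ({x : V // x ≠ w} → ZMod 2)) (y : V) :
    (swp huw e).toAdd y = if h : y ≠ w then (if y = u then 0 else e.toAdd ⟨y, h⟩)
      else e.toAdd ⟨u, huw⟩ := rfl

end Labels

variable {V : Type} [Fintype V] [DecidableEq V]

/-- the inequality over the group `Q` -/
theorem core (G : SimpleGraph V) (u w : V) (huw : G.Adj u w) (hns : NoSquare G u w)
    {Q : Type} [Group Q] [Finite Q] (q : V → Q) (hqw : q w = q u) (hsq : ∀ v, q v * q v = 1)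
    (hcomm : ∀ x y, G.Adj x y → q x * q y = q y * q x) (k : ℕ) :
    ∃ b : V → Q × Multiplicative ({x : V // x ≠ w} → ZMod 2),
      (∀ v (hv : v ≠ w), b v = (q v, Multiplicative.ofAdd (Pi.single ⟨v, hv⟩ 1))) ∧
      (∀ k, bettiF b (cliq G) k ≤ bettiF b (cliqP (contrH G u w) (fun x => x ≠ w)) k) ∧
      (∀ j, bettiF b {σ | σ ∈ cliq G ∧ u ∈ σ ∧ w ∈ σ} (j + 2) ≤
        bettiF b (cliqP G (fun x => G.Adj u x ∧ G.Adj w x)) j) ∧
      bettiF (stdA q) (cliq G) k ≤ 2 * bettiF b (cliq G) k +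
        bettiF b {σ | σ ∈ cliq G ∧ u ∈ σ ∧ w ∈ σ} (k + 1) := by
  classical
  have hne : u ≠ w := fun h => G.loopless.irrefl w (h ▸ huw)
  let π : Q × Multiplicative (V → ZMod 2) →*
      Q × Multiplicative ({x : V // x ≠ w} → ZMod 2) := (MonoidHom.id Q).prodMap (fold u w)
  have hπ : Function.Surjective π := by
    rintro ⟨x, y⟩
    obtain ⟨y', rfl⟩ := fold_surj u w y
    exact ⟨(x, y'), rfl⟩
  let z : Q × Multiplicative (V → ZMod 2) :=
    (1, Multiplicative.ofAdd (Pi.single u 1 + Pi.single w 1 : V → ZMod 2))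
  have hz : ∀ x, π x = 1 ↔ x = 1 ∨ x = z := by
    rintro ⟨x, e⟩
    constructor
    · intro h
      have h1 : x = 1 := congrArg Prod.fst h
      have h2 : fold u w e = 1 := congrArg Prod.snd h
      rcases (fold_ker hne e).mp h2 with h3 | h3
      · left; rw [h1, h3]; rfl
      · right; rw [h1, h3]
    · rintro (h | h)
      · rw [h, map_one]
      · rw [h]
        exact Prod.ext rfl ((fold_ker hne _).mpr (Or.inr rfl))
  have hz1 : z ≠ 1 := by
    intro h
    have h1 : (Pi.single u 1 + Pi.single w 1 : V → ZMod 2) = 0 :=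
      congrArg (fun x => x.2.toAdd) h
    have h2 := congrFun h1 u
    rw [Pi.add_apply, Pi.single_eq_same, Pi.single_eq_of_ne hne, add_zero] at h2
    exact one_ne_zero h2
  set a := stdA q with ha
  let b : V → Q × Multiplicative ({x : V // x ≠ w} → ZMod 2) := fun v => π (a v)
  have hb1 : ∀ v (hv : v ≠ w), b v = (q v, Multiplicative.ofAdd (Pi.single ⟨v, hv⟩ 1)) :=
    fun v hv => Prod.ext rfl (fold_single v hv)
  have hbw : b w = (q u, Multiplicative.ofAdd (Pi.single ⟨u, hne⟩ 1)) :=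
    Prod.ext hqw (fold_w hne)
  have hbuw : b u = b w := by rw [hb1 u hne, hbw]
  have hsqA : ∀ v, a v * a v = 1 := by
    intro v
    refine Prod.ext (hsq v) ?_
    exact ((stdMk (⊥ : SimpleGraph V) q hsq (fun _ _ h => h.elim)).sq v |> congrArg Prod.snd)
  have hsqB : ∀ v, b v * b v = 1 := by
    intro v
    show π (a v) * π (a v) = 1
    rw [← map_mul, hsqA, map_one]
  have hcommA : ∀ σ ∈ cliq G, ∀ x ∈ σ, ∀ y ∈ σ, a x * a y = a y * a x := by
    intro σ hσ x hx y hy
    by_cases hxy : x = y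
    · rw [hxy]
    · exact Prod.ext (hcomm x y (hσ hx hy hxy)) (mul_comm _ _)
  have hcommB : ∀ σ ∈ cliq G, ∀ x ∈ σ, ∀ y ∈ σ, b x * b y = b y * b x := by
    intro σ hσ x hx y hy
    show π _ * π _ = π _ * π _
    rw [← map_mul, hcommA σ hσ x hx y hy, map_mul]
  have hOKw : OK b {σ | σ ∈ cliq G ∧ w ∉ σ} := by
    refine ⟨conv_of_down (fun τ hτ ρ h => ⟨cliq_down G τ hτ.1 ρ h, fun h' => hτ.2 (h h')⟩),
      hsqB, fun σ hσ => hcommB σ hσ.1, ⟨(extLab V (fun x => x ≠ w)).comp
        (MonoidHom.snd Q _), ?_⟩⟩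
    intro σ hσ v hv x
    have hvw : v ≠ w := fun h => hσ.2 (h ▸ hv)
    rw [hb1 v hvw]
    show (extLab V (fun x => x ≠ w)
      (Multiplicative.ofAdd (Pi.single (⟨v, hvw⟩ : {x : V // x ≠ w}) 1 : _ → ZMod 2))).toAdd x = _
    by_cases hx : x ≠ w
    · rw [extLab_pos V _ _ x hx]
      show (Pi.single (⟨v, hvw⟩ : {x : V // x ≠ w}) 1 : _ → ZMod 2) ⟨x, hx⟩ = _
      rw [Pi.single_apply]
      simp [Subtype.ext_iff]
    · rw [extLab_neg V _ _ x hx, if_neg]
      rintro rfl
      exact hx hvw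
  have hOKu : OK b {σ | σ ∈ cliq G ∧ u ∉ σ} := by
    refine ⟨conv_of_down (fun τ hτ ρ h => ⟨cliq_down G τ hτ.1 ρ h, fun h' => hτ.2 (h h')⟩),
      hsqB, fun σ hσ => hcommB σ hσ.1, ⟨(swp hne).comp (MonoidHom.snd Q _), ?_⟩⟩
    intro σ hσ v hv x
    have hvu : v ≠ u := fun h => hσ.2 (h ▸ hv)
    by_cases hvw : v = w
    · subst hvw
      rw [hbw]
      show (swp hne (Multiplicative.ofAdd
        (Pi.single (⟨u, hne⟩ : {x : V // x ≠ v}) 1 : _ → ZMod 2))).toAdd x = _
      rw [swp_apply]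
      show (if h : x ≠ v then (if x = u then 0 else
        (Pi.single (⟨u, hne⟩ : {x : V // x ≠ v}) 1 : _ → ZMod 2) ⟨x, h⟩) else
        (Pi.single (⟨u, hne⟩ : {x : V // x ≠ v}) 1 : _ → ZMod 2) ⟨u, hne⟩) = _
      by_cases hx : x ≠ v
      · rw [dif_pos hx, if_neg hx]
        by_cases hxu : x = u
        · rw [if_pos hxu]
        · rw [if_neg hxu, Pi.single_apply, if_neg]
          intro h
          exact hxu (congrArg Subtype.val h)
      · rw [dif_neg hx, Pi.single_apply, if_pos rfl, if_pos (not_not.mp hx)]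
    · rw [hb1 v hvw]
      show (swp hne (Multiplicative.ofAdd
        (Pi.single (⟨v, hvw⟩ : {x : V // x ≠ w}) 1 : _ → ZMod 2))).toAdd x = _
      rw [swp_apply]
      show (if h : x ≠ w then (if x = u then 0 else
        (Pi.single (⟨v, hvw⟩ : {x : V // x ≠ w}) 1 : _ → ZMod 2) ⟨x, h⟩) else
        (Pi.single (⟨v, hvw⟩ : {x : V // x ≠ w}) 1 : _ → ZMod 2) ⟨u, hne⟩) = _
      by_cases hx : x ≠ w
      · rw [dif_pos hx]
        by_cases hxu : x = u
        · rw [if_pos hxu, if_neg]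
          intro h
          exact hvu (by rw [← h, hxu])
        · rw [if_neg hxu, Pi.single_apply]
          simp [Subtype.ext_iff]
      · rw [dif_neg hx, Pi.single_apply, if_neg, if_neg]
        · intro h
          exact hx (by rw [h]; exact hvw)
        · intro h
          exact hvu (congrArg Subtype.val h).symm
  have hcen : ∀ x : Q × Multiplicative (V → ZMod 2), z * x = x * a u * a w := by
    intro x
    refine Prod.ext ?_ ?_
    · show 1 * x.1 = x.1 * q u * q w
      rw [hqw, mul_assoc, hsq, mul_one, one_mul]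
    · show Multiplicative.ofAdd (Pi.single u 1 + Pi.single w 1 : V → ZMod 2) * x.2 =
        x.2 * Multiplicative.ofAdd (Pi.single u 1 : V → ZMod 2) *
          Multiplicative.ofAdd (Pi.single w 1 : V → ZMod 2)
      rw [ofAdd_add, mul_comm, mul_assoc]
  have hsub : delF G u w ⊆ cliq G := fun σ h => h.1
  have hd : ∀ σ ∈ delF G u w, ∀ τ ∈ cliq G, τ ⊆ σ → τ ∈ delF G u w :=
    fun σ hσ τ hτ h => ⟨hτ, fun h' => hσ.2 ⟨h h'.1, h h'.2⟩⟩
  have s1 := bettiF_double_rel π hπ z hz hz1 a (cliq G) (delF G u w) hsub hd (by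
      intro σ hσ f hf
      by_cases hw : w ∈ σ
      · have hu : u ∉ σ := fun h => hσ.2 ⟨h, hw⟩
        exact norm_surj π hπ z hz hz1 a {σ | σ ∈ cliq G ∧ u ∉ σ} hOKu hsqA σ ⟨hσ.1, hu⟩
          (hcommA σ hσ.1) f hf
      · exact norm_surj π hπ z hz hz1 a {σ | σ ∈ cliq G ∧ w ∉ σ} hOKw hsqA σ ⟨hσ.1, hw⟩
          (hcommA σ hσ.1) f hf) (by
      intro σ hσ hσ1 f hf x
      have h1 : u ∈ σ ∧ w ∈ σ := by
        by_contra h
        exact hσ1 ⟨hσ, h⟩
      rw [hcen, hf w h1.2, hf u h1.1]) k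
  have s2 := bettiF_sub_le b (cliq G) (delF G u w) (conv_of_down (cliq_down G)) hsub hd k
  have e : cliq G \ delF G u w = {σ | σ ∈ cliq G ∧ u ∈ σ ∧ w ∈ σ} := by
    ext σ
    constructor
    · rintro ⟨g1, g2⟩
      refine ⟨g1, ?_⟩
      by_contra h
      exact g2 ⟨g1, h⟩
    · rintro ⟨g1, g2⟩
      exact ⟨g1, fun h => h.2 g2⟩
  rw [e] at s2
  refine ⟨b, hb1, fun k => bettiF_contr G u w huw hns b hbuw k,
    fun j => bettiF_both G u w huw b hbuw hOKw j, ?_⟩
  have s1' : bettiF a (cliq G) k ≤ bettiF b (cliq G) k + bettiF b (delF G u w) k := s1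
  linarith

/-- Passage to a quotient with the standard marking. -/
theorem pass {U : Type} [Fintype U] [DecidableEq U] (H : SimpleGraph U) {A Q0 : Type} [Group A]
    [Group Q0] [Finite A] (hA : IsPGroup 2 A) (π : A →* Q0 × Multiplicative (U → ZMod 2))
    (hπ : Function.Surjective π) (c : U → A) (q0 : U → Q0) (hq : ∀ v, π (c v) = stdA q0 v)
    (hsqA : ∀ v, c v * c v = 1) (hcomm : ∀ x y, H.Adj x y → c x * c y = c y * c x) (k : ℕ) :
    (bettiF c (cliq H) k : ℝ) ≤
      (Nat.card A / (Nat.card Q0 * 2 ^ Nat.card U) : ℝ) * bettiF (stdA q0) (cliq H) k := by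
  have : Finite (Q0 × Multiplicative (U → ZMod 2)) := Finite.of_surjective π hπ
  have hsq0 : ∀ v, q0 v * q0 v = 1 := by
    intro v
    have h1 : π (c v) * π (c v) = 1 := by rw [← map_mul, hsqA, map_one]
    rw [hq] at h1
    exact congrArg Prod.fst h1
  have hcomm0 : ∀ x y, H.Adj x y → q0 x * q0 y = q0 y * q0 x := by
    intro x y hxy
    have h1 : π (c x) * π (c y) = π (c y) * π (c x) := by
      rw [← map_mul, hcomm x y hxy, map_mul]
    rw [hq, hq] at h1
    exact congrArg Prod.fst h1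
  have hfun : (fun v => π (c v)) = stdA q0 := funext hq
  have hOK : OK (fun v => π (c v)) (cliq H) := by
    rw [hfun]
    exact OK_of_Mk (stdMk H q0 hsq0 hcomm0)
  have h := bettiF_cover_real hA π hπ c (cliq H) hOK hsqA (by
    intro σ hσ x hx y hy
    by_cases hxy : x = y
    · rw [hxy]
    · exact hcomm x y (hσ hx hy hxy)) k
  rw [hfun] at h
  have e2 : (Nat.card (Q0 × Multiplicative (U → ZMod 2)) : ℝ) = Nat.card Q0 * 2 ^ Nat.card U := by
    rw [Nat.card_prod, card_mulfun]
    push_cast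
    rfl
  rw [e2] at h
  exact h

end SSplit

open SSplit in
theorem SmallGrad.split {V : Type} [Finite V] (G : SimpleGraph V) (u w : V) (huw : G.Adj u w)
    (hns : NoSquare G u w) (k : ℕ) (h1 : SmallGrad k (contrG G u w))
    (h2 : ∀ j, j + 1 = k → SmallGrad j (linkG G u w)) : SmallGrad k G := by
  classical
  intro instF instD ε hε
  have hne : u ≠ w := fun h => G.loopless.irrefl w (h ▸ huw)
  set n := Nat.card {x : V // x ≠ w} with hn
  obtain ⟨Q1, _, _, q1', hQ1, hsq1', hcomm1', hb1⟩ := h1 inferInstance inferInstance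
    (ε / 4) (by positivity)
  obtain ⟨Q2, _, _, q2', hQ2, hsq2', hcomm2', hb2⟩ : ∃ (Q2 : Type) (_ : Group Q2) (_ : Finite Q2)
      (q2 : {v : V // G.Adj u v ∧ G.Adj w v} → Q2), IsPGroup 2 Q2 ∧ (∀ v, q2 v * q2 v = 1) ∧
      (∀ x y, (linkG G u w).Adj x y → q2 x * q2 y = q2 y * q2 x) ∧
      ∀ j, j + 1 = k → (bettiF (stdA q2) (cliq (linkG G u w)) j : ℝ) ≤
        ε / (2 * 2 ^ n) * Nat.card Q2 := by
    rcases k with _ | j
    · refine ⟨PUnit, inferInstance, inferInstance, fun _ => 1, ?_, ?_, ?_, ?_⟩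
      · exact fun x => ⟨0, rfl⟩
      · exact fun _ => rfl
      · exact fun _ _ _ => rfl
      · intro j hj; omega
    · obtain ⟨Q2, i1, i2, q2, hQ2, hsq2, hcomm2, hb2⟩ := h2 j rfl inferInstance inferInstance
        (ε / (2 * 2 ^ n)) (by positivity)
      refine ⟨Q2, i1, i2, q2, hQ2, hsq2, hcomm2, ?_⟩
      intro j' hj'
      obtain rfl : j' = j := by omega
      exact hb2
  let q1 : V → Q1 := fun x => if h : x ≠ w then q1' ⟨x, h⟩ else q1' ⟨u, hne⟩
  let q2 : V → Q2 := fun x => if h : G.Adj u x ∧ G.Adj w x then q2' ⟨x, h⟩ else 1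
  let q : V → Q1 × Q2 := fun x => (q1 x, q2 x)
  have hq1 : ∀ x (hx : x ≠ w), q1 x = q1' ⟨x, hx⟩ := fun x hx => dif_pos hx
  have hq1w : q1 w = q1' ⟨u, hne⟩ := dif_neg (by simp)
  have hq2 : ∀ x (hx : G.Adj u x ∧ G.Adj w x), q2 x = q2' ⟨x, hx⟩ := fun x hx => dif_pos hx
  have hqw : q w = q u := by
    refine Prod.ext ?_ ?_
    · show q1 w = q1 u
      rw [hq1w, hq1 u hne]
    · show q2 w = q2 u
      have e1 : q2 w = 1 := dif_neg (fun h => G.loopless.irrefl w h.2)
      have e2 : q2 u = 1 := dif_neg (fun h => G.loopless.irrefl u h.1)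
      rw [e1, e2]
  have hsq : ∀ x, q x * q x = 1 := by
    intro x
    refine Prod.ext ?_ ?_
    · show q1 x * q1 x = 1
      by_cases hx : x ≠ w
      · rw [hq1 x hx]; exact hsq1' _
      · rw [not_not.mp hx, hq1w]; exact hsq1' _
    · show q2 x * q2 x = 1
      by_cases hx : G.Adj u x ∧ G.Adj w x
      · rw [hq2 x hx]; exact hsq2' _
      · have e1 : q2 x = 1 := dif_neg hx
        rw [e1, one_mul]
  have hcw : ∀ y, G.Adj w y → q1 w * q1 y = q1 y * q1 w := by
    intro y hy
    have hyw : y ≠ w := fun h => G.loopless.irrefl w (h ▸ hy)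
    rw [hq1w, hq1 y hyw]
    by_cases hyu : y = u
    · subst hyu; rfl
    · exact hcomm1' _ _ ⟨hne, hyw, fun h => hyu h.symm, Or.inr (Or.inl ⟨rfl, hy⟩)⟩
  have hcomm : ∀ x y, G.Adj x y → q x * q y = q y * q x := by
    intro x y hxy
    refine Prod.ext ?_ ?_
    · show q1 x * q1 y = q1 y * q1 x
      by_cases hx : x = w
      · rw [hx]; exact hcw y (hx ▸ hxy)
      · by_cases hy : y = w
        · rw [hy]; exact (hcw x (hy ▸ hxy.symm)).symm
        · rw [hq1 x hx, hq1 y hy]
          exact hcomm1' _ _ ⟨hx, hy, fun h => G.ne_of_adj hxy h, Or.inl hxy⟩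
    · show q2 x * q2 y = q2 y * q2 x
      by_cases hx : G.Adj u x ∧ G.Adj w x
      · by_cases hy : G.Adj u y ∧ G.Adj w y
        · rw [hq2 x hx, hq2 y hy]
          exact hcomm2' _ _ hxy
        · have e1 : q2 y = 1 := dif_neg hy
          rw [e1, mul_one, one_mul]
      · have e1 : q2 x = 1 := dif_neg hx
        rw [e1, mul_one, one_mul]
  have hP12 : IsPGroup 2 (Q1 × Q2) := isPGroup_prod hQ1 hQ2
  refine ⟨Q1 × Q2, inferInstance, inferInstance, q, hP12, hsq, hcomm, ?_⟩
  obtain ⟨b, hbv, s3, s4, s5⟩ := core G u w huw hns q hqw hsq hcomm k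
  set a1 : ℝ := (Nat.card Q1 : ℝ) with ha1
  set a2 : ℝ := (Nat.card Q2 : ℝ) with ha2
  have ha1pos : 0 < a1 := by rw [ha1]; exact_mod_cast Nat.card_pos
  have ha2pos : 0 < a2 := by rw [ha2]; exact_mod_cast Nat.card_pos
  have hcQ : (Nat.card (Q1 × Q2) : ℝ) = a1 * a2 := by
    rw [Nat.card_prod]; push_cast; rfl
  have hcB : (Nat.card ((Q1 × Q2) × Multiplicative ({x : V // x ≠ w} → ZMod 2)) : ℝ) =
      a1 * a2 * 2 ^ n := by
    rw [Nat.card_prod, card_mulfun]
    push_cast
    rw [hcQ]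
  have hsqB : ∀ v (hv : v ≠ w), b v * b v = 1 := by
    intro v hv
    rw [hbv v hv]
    refine Prod.ext (hsq v) ?_
    show Multiplicative.ofAdd _ * Multiplicative.ofAdd _ = 1
    rw [← ofAdd_add]
    have : (Pi.single (⟨v, hv⟩ : {x : V // x ≠ w}) 1 : _ → ZMod 2) + Pi.single ⟨v, hv⟩ 1 = 0 := by
      funext x
      exact CharTwo.add_self_eq_zero _
    rw [this]
    rfl
  -- the contraction
  have c1 : (bettiF b (cliq G) k : ℝ) ≤ a1 * a2 * (ε / 4) := by
    have t1 : (bettiF b (cliq G) k : ℝ) ≤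
        bettiF b (cliqP (contrH G u w) (fun x => x ≠ w)) k := by exact_mod_cast s3 k
    rw [cliqP_eq, bettiF_reindex] at t1
    refine t1.trans ?_
    have t2 := pass (contrG G u w) (isPGroup_std (V := {x : V // x ≠ w}) hP12)
      ((MonoidHom.fst Q1 Q2).prodMap (MonoidHom.id (Multiplicative ({x : V // x ≠ w} → ZMod 2))))
      (by
        rintro ⟨x, y⟩
        exact ⟨((x, 1), y), rfl⟩)
      (fun v : {x : V // x ≠ w} => b v.1) q1' (by
        rintro ⟨v, hv⟩
        rw [hbv v hv]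
        exact Prod.ext (hq1 v hv) rfl)
      (fun v => hsqB v.1 v.2) (by
        intro x y hxy
        rw [hbv x.1 x.2, hbv y.1 y.2]
        refine Prod.ext (Prod.ext ?_ ?_) (mul_comm _ _)
        · show q1 x.1 * q1 y.1 = q1 y.1 * q1 x.1
          rw [hq1 x.1 x.2, hq1 y.1 y.2]
          exact hcomm1' _ _ hxy
        · show q2 x.1 * q2 y.1 = q2 y.1 * q2 x.1
          by_cases hx : G.Adj u x.1 ∧ G.Adj w x.1
          · by_cases hy : G.Adj u y.1 ∧ G.Adj w y.1
            · rcases hxy.2.2.2 with h | h | h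
              · exact congrArg Prod.snd (hcomm _ _ h)
              · exact absurd (h.1 ▸ hx.1) (G.loopless.irrefl u)
              · exact absurd (h.1 ▸ hy.1) (G.loopless.irrefl u)
            · have e1 : q2 y.1 = 1 := dif_neg hy
              rw [e1, mul_one, one_mul]
          · have e1 : q2 x.1 = 1 := dif_neg hx
            rw [e1, mul_one, one_mul]) k
    refine t2.trans ?_
    rw [hcB, ← ha1, ← hn]
    have e1 : a1 * a2 * 2 ^ n / (a1 * 2 ^ n) = a2 := by
      have : (2 : ℝ) ^ n ≠ 0 := by positivity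
      field_simp
    rw [e1]
    calc a2 * (bettiF (stdA q1') (cliq (contrG G u w)) k : ℝ) ≤ a2 * (ε / 4 * a1) :=
          mul_le_mul_of_nonneg_left hb1 ha2pos.le
      _ = a1 * a2 * (ε / 4) := by ring
  -- the link
  have c2 : (bettiF b {σ | σ ∈ cliq G ∧ u ∈ σ ∧ w ∈ σ} (k + 1) : ℝ) ≤ a1 * a2 * (ε / 2) := by
    rcases k with _ | j
    · have e : bettiF b {σ | σ ∈ cliq G ∧ u ∈ σ ∧ w ∈ σ} (0 + 1) = 0 := by
        apply bettiF_eq_zero
        rintro σ ⟨_, hu, hw⟩ h0
        obtain ⟨x, rfl⟩ := Finset.card_eq_one.mp h0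
        rw [Finset.mem_singleton] at hu hw
        exact hne (hu.trans hw.symm)
      rw [e]
      push_cast
      positivity
    · have t1 : (bettiF b {σ | σ ∈ cliq G ∧ u ∈ σ ∧ w ∈ σ} (j + 1 + 1) : ℝ) ≤
          bettiF b (cliqP G (fun x => G.Adj u x ∧ G.Adj w x)) j := by exact_mod_cast s4 j
      rw [cliqP_eq, bettiF_reindex] at t1
      refine t1.trans ?_
      have hnw : ∀ v : {v : V // G.Adj u v ∧ G.Adj w v}, v.1 ≠ w :=
        fun v h => G.ne_of_adj v.2.2 h.symm
      let rs : Multiplicative ({x : V // x ≠ w} → ZMod 2) →*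
          Multiplicative ({v : V // G.Adj u v ∧ G.Adj w v} → ZMod 2) :=
        { toFun := fun x => Multiplicative.ofAdd (fun v => x.toAdd ⟨v.1, hnw v⟩)
          map_one' := rfl
          map_mul' := fun _ _ => rfl }
      have hrs : Function.Surjective rs := by
        intro y
        refine ⟨Multiplicative.ofAdd (fun x => if h : G.Adj u x.1 ∧ G.Adj w x.1 then
          y.toAdd ⟨x.1, h⟩ else 0), ?_⟩
        apply Multiplicative.toAdd.injective
        funext v
        show (if h : G.Adj u v.1 ∧ G.Adj w v.1 then y.toAdd ⟨v.1, h⟩ else 0) = y.toAdd v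
        rw [dif_pos v.2]
      have t2 := pass (linkG G u w) (isPGroup_std (V := {x : V // x ≠ w}) hP12)
        ((MonoidHom.snd Q1 Q2).prodMap rs)
        (by
          rintro ⟨x, y⟩
          obtain ⟨y', rfl⟩ := hrs y
          exact ⟨((1, x), y'), rfl⟩)
        (fun v : {v : V // G.Adj u v ∧ G.Adj w v} => b v.1) q2' (by
          rintro ⟨v, hv⟩
          rw [hbv v (hnw ⟨v, hv⟩)]
          refine Prod.ext (hq2 v hv) ?_
          apply Multiplicative.toAdd.injective
          funext x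
          show (Pi.single (⟨v, hnw ⟨v, hv⟩⟩ : {x : V // x ≠ w}) 1 : _ → ZMod 2) ⟨x.1, hnw x⟩ =
            (Pi.single (⟨v, hv⟩ : {v : V // G.Adj u v ∧ G.Adj w v}) 1 : _ → ZMod 2) x
          rw [Pi.single_apply, Pi.single_apply]
          simp [Subtype.ext_iff])
        (fun v => hsqB v.1 (hnw v)) (by
          intro x y hxy
          rw [hbv x.1 (hnw x), hbv y.1 (hnw y)]
          exact Prod.ext (hcomm _ _ hxy) (mul_comm _ _)) j
      refine t2.trans ?_
      have hb0 : (0 : ℝ) ≤ bettiF (stdA q2') (cliq (linkG G u w)) j := bettiF_nn _ _ _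
      rw [hcB, ← ha2]
      calc (a1 * a2 * 2 ^ n / (a2 * 2 ^ Nat.card {v : V // G.Adj u v ∧ G.Adj w v})) *
          (bettiF (stdA q2') (cliq (linkG G u w)) j : ℝ)
          ≤ (a1 * 2 ^ n) * (bettiF (stdA q2') (cliq (linkG G u w)) j : ℝ) :=
            mul_le_mul_of_nonneg_right (card_ratio ha1pos ha2pos
              (one_le_pow₀ (by norm_num)) (one_le_pow₀ (by norm_num))) hb0
        _ ≤ (a1 * 2 ^ n) * (ε / (2 * 2 ^ n) * a2) :=
            mul_le_mul_of_nonneg_left (hb2 j rfl) (by positivity)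
        _ = a1 * a2 * (ε / 2) := by
            have : (2 : ℝ) ^ n ≠ 0 := by positivity
            field_simp
  have s5' : (bettiF (stdA q) (cliq G) k : ℝ) ≤ 2 * bettiF b (cliq G) k +
      bettiF b {σ | σ ∈ cliq G ∧ u ∈ σ ∧ w ∈ σ} (k + 1) := by exact_mod_cast s5
  rw [hcQ]
  linarith

end SingerRA
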